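import Pool.Agent.Work.MP_29fd3c_tk.Interface

/-! # Block POIX (MP_29fd3c_ag): Poisson summation for Gaussians with a shift and a frequency

Adapted from `Work/MP_b10815_co_flt/POI.lean` by helper4. -/

set_option autoImplicit false

namespace Pool.TK.POIX

open Matrix Complex MeasureTheory

open scoped MatrixOrder in
/-- factorisation of a positive definite matrix -/
theorem exists_factor {n : ℕ} (P : Matrix (Fin n) (Fin n) ℝ) (hP : P.PosDef) :
    ∃ B : Matrix (Fin n) (Fin n) ℝ, B.det ≠ 0 ∧ P = Bᵀ * B := by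
  obtain ⟨B, hB⟩ := CStarAlgebra.nonneg_iff_eq_star_mul_self.mp hP.posSemidef.nonneg
  have hB' : P = Bᵀ * B := by
    rw [hB, star_eq_conjTranspose, conjTranspose_eq_transpose_of_trivial]
  refine ⟨B, ?_, hB'⟩
  intro h0
  have h1 := hP.det_pos
  rw [hB', det_mul, h0, mul_zero] at h1
  exact lt_irrefl _ h1

theorem qf_factor {n : ℕ} (B : Matrix (Fin n) (Fin n) ℝ) (v : Fin n → ℝ) :
    qf (Bᵀ * B) v = (B *ᵥ v) ⬝ᵥ (B *ᵥ v) := by
  unfold qf
  rw [← mulVec_mulVec, dotProduct_mulVec, vecMul_transpose]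

/-- lower bound `c |v|² ≤ qf P v` -/
theorem exists_lower {n : ℕ} (P : Matrix (Fin n) (Fin n) ℝ) (hP : P.PosDef) :
    ∃ c : ℝ, 0 < c ∧ ∀ v : Fin n → ℝ, c * (v ⬝ᵥ v) ≤ qf P v := by
  obtain ⟨B, hB, hPB⟩ := exists_factor P hP
  -- v = B⁻¹ (B v); |v|² ≤ K |B v|²
  set M := B⁻¹ with hM
  let K : ℝ := ∑ i, ∑ j, (M i j) ^ 2
  have hK : 0 ≤ K := Finset.sum_nonneg fun i _ => Finset.sum_nonneg fun j _ => sq_nonneg _
  have hb : ∀ w : Fin n → ℝ, (M *ᵥ w) ⬝ᵥ (M *ᵥ w) ≤ K * (w ⬝ᵥ w) := by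
    intro w
    simp only [dotProduct, mulVec, K]
    rw [Finset.sum_mul]
    apply Finset.sum_le_sum
    intro i _
    have := Finset.sum_mul_sq_le_sq_mul_sq Finset.univ (fun j => M i j) w
    calc (∑ x, M i x * w x) * (∑ x, M i x * w x) = (∑ x, M i x * w x) ^ 2 := by ring
      _ ≤ (∑ j, M i j ^ 2) * ∑ j, w j ^ 2 := this
      _ = _ := by simp only [pow_two]
  refine ⟨(K + 1)⁻¹, by positivity, fun v => ?_⟩
  have h1 := hb (B *ᵥ v)
  have h2 : M *ᵥ (B *ᵥ v) = v := by
    rw [mulVec_mulVec, hM, nonsing_inv_mul _ (isUnit_iff_ne_zero.2 hB), one_mulVec]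
  rw [h2, ← qf_factor, ← hPB] at h1
  have h3 : 0 ≤ qf P v := by
    rw [hPB, qf_factor]
    exact Finset.sum_nonneg fun i _ => mul_self_nonneg _
  rw [inv_mul_le_iff₀ (by positivity)]
  nlinarith

/-- one dimensional summability -/
theorem summable_one (a K : ℝ) (ha : 0 < a) :
    Summable (fun m : ℤ => Real.exp (-a * (m : ℝ) ^ 2 + K * |(m : ℝ)|)) := by
  have hg : Summable (fun m : ℤ => Real.exp (-|(m : ℝ)|)) := by
    apply Summable.of_nat_of_neg
    · have : Summable (fun n : ℕ => Real.exp (-1) ^ n) :=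
        summable_geometric_of_lt_one (Real.exp_pos _).le (by rw [Real.exp_lt_one_iff]; norm_num)
      refine this.congr (fun n => ?_)
      rw [← Real.exp_nat_mul]
      simp
    · have : Summable (fun n : ℕ => Real.exp (-1) ^ n) :=
        summable_geometric_of_lt_one (Real.exp_pos _).le (by rw [Real.exp_lt_one_iff]; norm_num)
      refine this.congr (fun n => ?_)
      rw [← Real.exp_nat_mul]
      simp
  refine Summable.of_nonneg_of_le (fun m => (Real.exp_pos _).le) (fun m => ?_)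
    (hg.mul_left (Real.exp ((K + 1) ^ 2 / (4 * a))))
  rw [← Real.exp_add]
  apply Real.exp_le_exp.2
  have h1 : (m : ℝ) ^ 2 = |(m : ℝ)| ^ 2 := (sq_abs _).symm
  rw [h1]
  set x := |(m : ℝ)|
  have h2 : (K + 1) ^ 2 / (4 * a) - (K + 1) * x + a * x ^ 2 = ((K + 1) - 2 * a * x) ^ 2 / (4 * a) := by
    field_simp; ring
  have h3 : 0 ≤ ((K + 1) - 2 * a * x) ^ 2 / (4 * a) := by positivity
  nlinarith

/-- product summability -/
theorem summable_pi {n : ℕ} (f : ℤ → ℝ) (hf0 : ∀ m, 0 ≤ f m) (hf : Summable f) :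
    Summable (fun z : Fin n → ℤ => ∏ i, f (z i)) := by
  induction n with
  | zero => exact summable_of_hasFiniteSupport (Set.toFinite _)
  | succ n ih =>
    have hg0 : (0 : (Fin n → ℤ) → ℝ) ≤ fun z : Fin n → ℤ => ∏ i, f (z i) := fun z =>
      Finset.prod_nonneg fun i _ => hf0 _
    have h1 := Summable.mul_of_nonneg hf ih hf0 hg0
    let e : ℤ × (Fin n → ℤ) ≃ (Fin (n + 1) → ℤ) :=
      { toFun := fun p => Fin.cons p.1 p.2
        invFun := fun z => (z 0, Fin.tail z)
        left_inv := fun p => by simp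
        right_inv := fun z => by simp }
    refine (e.summable_iff).1 (h1.congr (fun p => ?_))
    change f p.1 * ∏ i, f (p.2 i) = ∏ i, f ((Fin.cons p.1 p.2 : Fin (n + 1) → ℤ) i)
    rw [Fin.prod_univ_succ]
    simp

/-- uniform bound on balls -/
theorem exists_bound {n : ℕ} (P : Matrix (Fin n) (Fin n) ℝ) (hP : P.PosDef) (R : ℝ) (_hR : 0 ≤ R) :
    ∃ g : (Fin n → ℤ) → ℝ, Summable g ∧ ∀ x : Fin n → ℝ, (∀ i, |x i| ≤ R) → ∀ z : Fin n → ℤ,
      Real.exp (-Real.pi * qf P (x + zc z)) ≤ g z := by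
  obtain ⟨c, hc, hlow⟩ := exists_lower P hP
  -- |x + z|² ≥ z²/2 - x² in each coordinate
  refine ⟨fun z => ∏ i, Real.exp (Real.pi * c * R ^ 2) * Real.exp (-(Real.pi * c / 2) * (z i : ℝ) ^ 2 + 0 * |(z i : ℝ)|), ?_, ?_⟩
  · exact summable_pi (fun m : ℤ => Real.exp (Real.pi * c * R ^ 2) *
      Real.exp (-(Real.pi * c / 2) * (m : ℝ) ^ 2 + 0 * |(m : ℝ)|)) (fun m => by positivity)
      ((summable_one _ 0 (by positivity)).mul_left _)
  · intro x hx z
    have h1 : ∀ i, (z i : ℝ) ^ 2 / 2 - R ^ 2 ≤ (x i + z i) ^ 2 := by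
      intro i
      have h2 : x i ^ 2 ≤ R ^ 2 := by
        rw [← sq_abs (x i)]
        exact pow_le_pow_left₀ (abs_nonneg _) (hx i) 2
      nlinarith [sq_nonneg (2 * x i + z i)]
    beta_reduce
    rw [show (∏ i, Real.exp (Real.pi * c * R ^ 2) *
      Real.exp (-(Real.pi * c / 2) * (z i : ℝ) ^ 2 + 0 * |(z i : ℝ)|)) =
      Real.exp (∑ i, (Real.pi * c * R ^ 2 + (-(Real.pi * c / 2) * (z i : ℝ) ^ 2 + 0 * |(z i : ℝ)|))) by
        rw [Real.exp_sum]
        exact Finset.prod_congr rfl fun i _ => (Real.exp_add _ _).symm]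
    apply Real.exp_le_exp.2
    have h3 := hlow (x + zc z)
    have h4 : ∑ i, ((z i : ℝ) ^ 2 / 2 - R ^ 2) ≤ (x + zc z) ⬝ᵥ (x + zc z) := by
      simp only [dotProduct]
      apply Finset.sum_le_sum
      intro i _
      have := h1 i
      simp only [Pi.add_apply, zc]
      nlinarith
    have h5 : ∑ i, (Real.pi * c * R ^ 2 + (-(Real.pi * c / 2) * (z i : ℝ) ^ 2 + 0 * |(z i : ℝ)|)) =
        -(Real.pi * c) * ∑ i, ((z i : ℝ) ^ 2 / 2 - R ^ 2) := by
      rw [Finset.mul_sum]
      apply Finset.sum_congr rfl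
      intro i _
      ring
    rw [h5]
    have hpi := Real.pi_pos
    have h6 : Real.pi * (c * ∑ i, ((z i : ℝ) ^ 2 / 2 - R ^ 2)) ≤ Real.pi * qf P (x + zc z) := by
      apply mul_le_mul_of_nonneg_left _ hpi.le
      exact (mul_le_mul_of_nonneg_left h4 hc.le).trans h3
    nlinarith

theorem summable_theta {n : ℕ} (P : Matrix (Fin n) (Fin n) ℝ) (hP : P.PosDef) (u : Fin n → ℝ) :
    Summable (fun z : Fin n → ℤ => Real.exp (-Real.pi * qf P (u + zc z))) := by
  obtain ⟨g, hg, hb⟩ := exists_bound P hP (∑ i, |u i|) (Finset.sum_nonneg fun i _ => abs_nonneg _)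
  refine Summable.of_nonneg_of_le (fun z => (Real.exp_pos _).le) (fun z => hb u ?_ z) hg
  intro i
  exact Finset.single_le_sum (f := fun i => |u i|) (fun j _ => abs_nonneg _) (Finset.mem_univ i)

theorem continuous_qf {n : ℕ} (P : Matrix (Fin n) (Fin n) ℝ) : Continuous (fun v => qf P v) := by
  unfold qf
  simp only [dotProduct, mulVec]
  fun_prop


/-- the character `e(η·x)` -/
noncomputable def ec {n : ℕ} (η x : Fin n → ℝ) : ℂ :=
  cexp (2 * Real.pi * I * ((η ⬝ᵥ x : ℝ) : ℂ))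

theorem norm_ec {n : ℕ} (η x : Fin n → ℝ) : ‖ec η x‖ = 1 := by
  unfold ec
  have : 2 * (Real.pi : ℂ) * I * ((η ⬝ᵥ x : ℝ) : ℂ) = ((2 * Real.pi * (η ⬝ᵥ x) : ℝ) : ℂ) * I := by
    push_cast; ring
  rw [this, Complex.norm_exp_ofReal_mul_I]

theorem continuous_ec {n : ℕ} (η : Fin n → ℝ) : Continuous (fun x => ec η x) := by
  unfold ec
  simp only [dotProduct]
  fun_prop

theorem ec_add_left {n : ℕ} (η μ x : Fin n → ℝ) : ec (η + μ) x = ec η x * ec μ x := by
  unfold ec
  rw [← Complex.exp_add, add_dotProduct]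
  congr 1
  push_cast; ring

theorem ec_add_int {n : ℕ} (w z : Fin n → ℤ) (x : Fin n → ℝ) :
    ec (zc w) (x + zc z) = ec (zc w) x := by
  unfold ec
  have : 2 * (Real.pi : ℂ) * I * ((zc w ⬝ᵥ (x + zc z) : ℝ) : ℂ) =
      2 * (Real.pi : ℂ) * I * ((zc w ⬝ᵥ x : ℝ) : ℂ) +
      ((∑ i, w i * z i : ℤ) : ℂ) * (2 * Real.pi * I) := by
    rw [dotProduct_add]
    have h : zc w ⬝ᵥ zc z = ((∑ i, w i * z i : ℤ) : ℝ) := by
      simp [dotProduct, zc]
    rw [h]
    push_cast
    ring
  rw [this, Complex.exp_add, Complex.exp_int_mul_two_pi_mul_I, mul_one]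

/-- continuity of the periodised Gaussian -/
theorem continuous_theta {n : ℕ} (P : Matrix (Fin n) (Fin n) ℝ) (hP : P.PosDef)
    (η : Fin n → ℝ) :
    Continuous (fun x : Fin n → ℝ => ∑' z : Fin n → ℤ,
      ((Real.exp (-Real.pi * qf P (x + zc z)) : ℝ) : ℂ) * ec η (x + zc z)) := by
  rw [continuous_iff_continuousAt]
  intro x0
  set R : ℝ := (∑ i, |x0 i|) + 1 with hR
  have hR0 : 0 ≤ R := by
    have : 0 ≤ ∑ i, |x0 i| := Finset.sum_nonneg fun i _ => abs_nonneg _
    linarith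
  obtain ⟨g, hg, hb⟩ := exists_bound P hP R hR0
  have hU : {x : Fin n → ℝ | ∀ i, |x i| < R} ∈ nhds x0 := by
    apply IsOpen.mem_nhds
    · simp only [Set.ofPred_forall]
      apply isOpen_iInter_of_finite
      intro i
      exact isOpen_lt (by fun_prop) continuous_const
    · intro i
      have := Finset.single_le_sum (f := fun i => |x0 i|) (fun j _ => abs_nonneg _) (Finset.mem_univ i)
      have h2 : |x0 i| ≤ ∑ i, |x0 i| := this
      rw [hR]; linarith
  have hc : ContinuousOn (fun x : Fin n → ℝ => ∑' z : Fin n → ℤ,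
      ((Real.exp (-Real.pi * qf P (x + zc z)) : ℝ) : ℂ) * ec η (x + zc z))
      {x : Fin n → ℝ | ∀ i, |x i| < R} := by
    apply continuousOn_tsum (u := g)
    · intro z
      apply Continuous.continuousOn
      have h1 := continuous_qf P
      have h2 := continuous_ec η
      have h3 : Continuous (fun x : Fin n → ℝ => x + zc z) := by fun_prop
      exact (Complex.continuous_ofReal.comp (Real.continuous_exp.comp
        (continuous_const.mul (h1.comp h3)))).mul (h2.comp h3)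
    · exact hg
    · intro z x hx
      rw [norm_mul, norm_ec, mul_one, Complex.norm_real, Real.norm_eq_abs,
        abs_of_pos (Real.exp_pos _)]
      exact hb x (fun i => (hx i).le) z
  exact hc.continuousAt hU

theorem measurableEmbedding_mulVec {n : ℕ} (B : Matrix (Fin n) (Fin n) ℝ) (hB : B.det ≠ 0) :
    MeasurableEmbedding (fun x : Fin n → ℝ => B *ᵥ x) := by
  apply Continuous.measurableEmbedding
  · exact Continuous.matrix_mulVec continuous_const continuous_id
  · intro x y hxy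
    have h1 : B⁻¹ *ᵥ (B *ᵥ x) = B⁻¹ *ᵥ (B *ᵥ y) := by
      simp only at hxy; rw [hxy]
    rw [mulVec_mulVec, mulVec_mulVec, nonsing_inv_mul _ (isUnit_iff_ne_zero.2 hB), one_mulVec,
      one_mulVec] at h1
    exact h1

theorem map_mulVec {n : ℕ} (B : Matrix (Fin n) (Fin n) ℝ) (hB : B.det ≠ 0) :
    Measure.map (fun x : Fin n → ℝ => B *ᵥ x) volume =
      ENNReal.ofReal (abs (det B)⁻¹) • (volume : Measure (Fin n → ℝ)) := by
  have h := Real.map_matrix_volume_pi_eq_smul_volume_pi hB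
  rw [← h]
  congr 1

theorem integral_comp_mulVec {n : ℕ} (B : Matrix (Fin n) (Fin n) ℝ) (hB : B.det ≠ 0)
    (f : (Fin n → ℝ) → ℂ) :
    ∫ x : Fin n → ℝ, f (B *ᵥ x) = (((abs (det B))⁻¹ : ℝ) : ℂ) * ∫ y, f y := by
  have h1 := (measurableEmbedding_mulVec B hB).integral_map (μ := volume) f
  rw [← h1, map_mulVec B hB, integral_smul_measure, ENNReal.toReal_ofReal (abs_nonneg _), abs_inv,
    Complex.real_smul]

theorem integrable_comp_mulVec {n : ℕ} (B : Matrix (Fin n) (Fin n) ℝ) (hB : B.det ≠ 0)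
    (f : (Fin n → ℝ) → ℂ) (hf : Integrable f) :
    Integrable (fun x : Fin n → ℝ => f (B *ᵥ x)) := by
  have h1 := (measurableEmbedding_mulVec B hB).integrable_map_iff (μ := volume) (g := f)
  apply h1.1
  rw [map_mulVec B hB]
  exact hf.smul_measure ENNReal.ofReal_ne_top


/-- Gaussian Fourier integral with a matrix -/
theorem integral_gauss {n : ℕ} (P : Matrix (Fin n) (Fin n) ℝ) (hP : P.PosDef) (w : Fin n → ℝ) :
    Integrable (fun x : Fin n → ℝ => ec w x * ((Real.exp (-Real.pi * qf P x) : ℝ) : ℂ)) ∧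
    ∫ x : Fin n → ℝ, ec w x * ((Real.exp (-Real.pi * qf P x) : ℝ) : ℂ) =
      (((Real.sqrt P.det)⁻¹ * Real.exp (-Real.pi * qf P⁻¹ w) : ℝ) : ℂ) := by
  obtain ⟨B, hB, hPB⟩ := exists_factor P hP
  have hBu : IsUnit B.det := isUnit_iff_ne_zero.2 hB
  set v : Fin n → ℝ := w ᵥ* B⁻¹ with hv
  let c : Fin n → ℂ := fun i => (2 * Real.pi * I) * (v i : ℂ)
  let f : (Fin n → ℝ) → ℂ := fun y => Complex.exp (-(Real.pi : ℂ) * ∑ i, (y i : ℂ) ^ 2 + ∑ i, c i * y i)
  have hpi : 0 < (Real.pi : ℂ).re := by simpa using Real.pi_pos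
  have key : ∀ x : Fin n → ℝ, f (B *ᵥ x) = ec w x * ((Real.exp (-Real.pi * qf P x) : ℝ) : ℂ) := by
    intro x
    have h1 : ∑ i, (((B *ᵥ x) i : ℝ) : ℂ) ^ 2 = ((qf P x : ℝ) : ℂ) := by
      rw [hPB, qf_factor]
      simp only [dotProduct, pow_two]
      push_cast
      rfl
    have h2 : ∑ i, c i * (((B *ᵥ x) i : ℝ) : ℂ) = 2 * Real.pi * I * ((w ⬝ᵥ x : ℝ) : ℂ) := by
      have h3 : v ⬝ᵥ (B *ᵥ x) = w ⬝ᵥ x := by
        rw [hv, dotProduct_mulVec, vecMul_vecMul, nonsing_inv_mul _ hBu, vecMul_one]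
      have h4 : ∑ i, c i * (((B *ᵥ x) i : ℝ) : ℂ) = (2 * Real.pi * I) * ((v ⬝ᵥ (B *ᵥ x) : ℝ) : ℂ) := by
        simp only [dotProduct, c]
        push_cast
        rw [Finset.mul_sum]
        apply Finset.sum_congr rfl
        intro i _
        ring
      rw [h4, h3]
    simp only [f, ec]
    rw [h1, h2, Complex.exp_add, mul_comm]
    congr 1
    push_cast
    rfl
  have hint : Integrable f := GaussianFourier.integrable_cexp_neg_mul_sum_add hpi c
  have hval : ∫ y, f y = ((Real.exp (-Real.pi * qf P⁻¹ w) : ℝ) : ℂ) := by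
    have h1 := GaussianFourier.integral_cexp_neg_mul_sum_add hpi c
    have hpi0 : (Real.pi : ℂ) ≠ 0 := by exact_mod_cast Real.pi_ne_zero
    simp only [f]
    rw [h1, div_self hpi0, Complex.one_cpow, one_mul]
    have h2 : qf P⁻¹ w = v ⬝ᵥ v := by
      unfold qf
      rw [hPB, Matrix.mul_inv_rev, ← mulVec_mulVec, dotProduct_mulVec, ← hv]
      congr 1
      rw [← transpose_nonsing_inv, mulVec_transpose, hv]
    rw [h2, Complex.ofReal_exp]
    congr 1
    simp only [dotProduct, c]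
    push_cast
    rw [Finset.mul_sum, Finset.sum_div]
    apply Finset.sum_congr rfl
    intro i _
    field_simp
    ring_nf
    rw [Complex.I_sq]
    ring
  constructor
  · have h1 := integrable_comp_mulVec B hB f hint
    simpa only [key] using h1
  · have h1 := integral_comp_mulVec B hB f
    simp only [key] at h1
    rw [h1, hval]
    have h2 : (abs (det B))⁻¹ = (Real.sqrt P.det)⁻¹ := by
      rw [hPB, det_mul, det_transpose, ← pow_two, Real.sqrt_sq_eq_abs]
    rw [h2]
    push_cast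
    rfl

theorem qf_neg {n : ℕ} (P : Matrix (Fin n) (Fin n) ℝ) (v : Fin n → ℝ) : qf P (-v) = qf P v := by
  unfold qf
  rw [mulVec_neg, neg_dotProduct_neg]

/-- half-open unit cells -/
def cell {n : ℕ} (z : Fin n → ℤ) : Set (Fin n → ℝ) :=
  {x | ∀ i, x i ∈ Set.Ioc (z i : ℝ) (z i + 1)}

theorem measurableSet_cell {n : ℕ} (z : Fin n → ℤ) : MeasurableSet (cell z) := by
  unfold cell
  exact MeasurableSet.univ_pi' (fun i => measurableSet_Ioc)

theorem iUnion_cell {n : ℕ} : ⋃ z : Fin n → ℤ, cell z = Set.univ := by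
  rw [Set.eq_univ_iff_forall]
  intro x
  rw [Set.mem_iUnion]
  refine ⟨fun i => ⌈x i⌉ - 1, fun i => ⟨?_, ?_⟩⟩
  · push_cast
    have := Int.ceil_lt_add_one (x i)
    linarith
  · push_cast
    have := Int.le_ceil (x i)
    linarith

theorem disjoint_cell {n : ℕ} : Pairwise (Function.onFun Disjoint (cell (n := n))) := by
  intro z z' hzz'
  rw [Function.onFun, Set.disjoint_left]
  intro x hx hx'
  apply hzz'
  funext i
  have h1 := hx i
  have h2 := hx' i
  have h3 : (z i : ℝ) < z' i + 1 := lt_of_lt_of_le h1.1 h2.2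
  have h4 : (z' i : ℝ) < z i + 1 := lt_of_lt_of_le h2.1 h1.2
  have h5 : z i < z' i + 1 := by exact_mod_cast h3
  have h6 : z' i < z i + 1 := by exact_mod_cast h4
  omega

theorem setIntegral_cell {n : ℕ} {E : Type} [NormedAddCommGroup E] [NormedSpace ℝ E]
    (g : (Fin n → ℝ) → E) (z : Fin n → ℤ) :
    ∫ x in cell z, g x = ∫ x in cell (0 : Fin n → ℤ), g (x + zc z) := by
  have h1 := (measurePreserving_add_right (volume : Measure (Fin n → ℝ)) (zc z)).setIntegral_preimage_emb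
    (measurableEmbedding_addRight (zc z)) g (cell z)
  rw [← h1]
  congr 2
  ext x
  simp only [cell, Set.mem_ofPred_eq, Set.mem_preimage, Pi.add_apply, zc, Pi.zero_apply,
    Int.cast_zero, zero_add, Set.mem_Ioc]
  constructor
  · intro h i
    have := h i
    constructor <;> linarith [this.1, this.2]
  · intro h i
    have := h i
    constructor <;> linarith [this.1, this.2]


/-- the Fourier integral, unfolded -/
theorem hasSum_unfold {n : ℕ} (P : Matrix (Fin n) (Fin n) ℝ) (hP : P.PosDef) (η : Fin n → ℝ)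
    (w : Fin n → ℤ) :
    ∫ x in cell (0 : Fin n → ℤ), ec (zc (-w)) x *
      (∑' z : Fin n → ℤ, ((Real.exp (-Real.pi * qf P (x + zc z)) : ℝ) : ℂ) * ec η (x + zc z)) =
      (((Real.sqrt P.det)⁻¹ * Real.exp (-Real.pi * qf P⁻¹ (zc w - η)) : ℝ) : ℂ) := by
  obtain ⟨hint, hval⟩ := integral_gauss P hP (zc (-w) + η)
  have hneg : zc (-w) + η = -(zc w - η) := by
    funext i
    simp [zc]
    ring
  set g : (Fin n → ℝ) → ℂ := fun x => ec (zc (-w) + η) x *
    ((Real.exp (-Real.pi * qf P x) : ℝ) : ℂ) with hg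
  rw [hneg, qf_neg] at hval
  have h1 := hasSum_integral_iUnion (μ := volume) (f := g) (s := cell (n := n)) measurableSet_cell
    disjoint_cell hint.integrableOn
  rw [iUnion_cell, setIntegral_univ, hval] at h1
  have h2 := hasSum_integral_iUnion (μ := volume) (f := fun x => ‖g x‖) (s := cell (n := n))
    measurableSet_cell disjoint_cell hint.norm.integrableOn
  have h3 : HasSum (fun z => ∫ x in cell (0 : Fin n → ℤ), g (x + zc z))
      (∫ x in cell (0 : Fin n → ℤ), ∑' z, g (x + zc z)) := by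
    apply hasSum_integral_of_summable_integral_norm
    · intro z
      have h4 : Integrable (fun x => g (x + zc z)) := hint.comp_add_right (zc z)
      exact h4.integrableOn
    · refine h2.summable.congr (fun z => ?_)
      exact (setIntegral_cell (fun x => ‖g x‖) z)
  have h5 : (fun z => ∫ x in cell z, g x) = fun z => ∫ x in cell (0 : Fin n → ℤ), g (x + zc z) := by
    funext z; exact setIntegral_cell g z
  rw [h5] at h1
  rw [h1.unique h3]
  congr 1
  funext x
  simp only [hg, ec_add_left, ec_add_int]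
  rw [← tsum_mul_left]
  congr 1
  funext z
  ring

/-- the projection to the torus -/
def pr {n : ℕ} (x : Fin n → ℝ) : UnitAddTorus (Fin n) := fun i => (x i : UnitAddCircle)

theorem isQuotientMap_pr {n : ℕ} : Topology.IsQuotientMap (pr (n := n)) := by
  have h1 : IsOpenQuotientMap (Pi.map (fun (_ : Fin n) (t : ℝ) => (t : UnitAddCircle))) :=
    IsOpenQuotientMap.piMap (fun i => QuotientAddGroup.isOpenQuotientMap_mk)
  exact h1.isQuotientMap


/-- the periodised Gaussian as a function on the torus -/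
noncomputable def G {n : ℕ} (P : Matrix (Fin n) (Fin n) ℝ) (η : Fin n → ℝ)
    (t : UnitAddTorus (Fin n)) : ℂ :=
  ∑' z : Fin n → ℤ, ((Real.exp (-Real.pi * qf P ((fun i => Quotient.out (t i)) + zc z)) : ℝ) : ℂ) *
    ec η ((fun i => Quotient.out (t i)) + zc z)

theorem G_pr {n : ℕ} (P : Matrix (Fin n) (Fin n) ℝ) (η x : Fin n → ℝ) :
    G P η (pr x) = ∑' z : Fin n → ℤ, ((Real.exp (-Real.pi * qf P (x + zc z)) : ℝ) : ℂ) *
      ec η (x + zc z) := by
  unfold G
  have h1 : ∀ i, ∃ m : ℤ, Quotient.out (pr x i) = x i + m := by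
    intro i
    have h2 : ((Quotient.out (pr x i) : ℝ) : UnitAddCircle) = (x i : UnitAddCircle) :=
      Quotient.out_eq' _
    have h3 : ((Quotient.out (pr x i) - x i : ℝ) : UnitAddCircle) = 0 := by
      rw [AddCircle.coe_sub, h2, sub_self]
    obtain ⟨m, hm⟩ := (AddCircle.coe_eq_zero_iff (1 : ℝ)).1 h3
    refine ⟨m, ?_⟩
    rw [zsmul_eq_mul, mul_one] at hm
    linarith
  choose m hm using h1
  have h3 : (fun i => Quotient.out (pr x i)) = x + zc m := by
    funext i; exact hm i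
  rw [h3]
  rw [← (Equiv.addLeft m).tsum_eq (fun z : Fin n → ℤ =>
    ((Real.exp (-Real.pi * qf P (x + zc z)) : ℝ) : ℂ) * ec η (x + zc z))]
  congr 1
  funext z
  have h4 : x + zc m + zc z = x + zc (Equiv.addLeft m z) := by
    funext i
    simp [zc, add_assoc]
  rw [h4]

theorem mFourier_coe {n : ℕ} (w : Fin n → ℤ) (x : Fin n → ℝ) :
    UnitAddTorus.mFourier w (fun i => (x i : UnitAddCircle)) = ec (zc w) x := by
  unfold ec UnitAddTorus.mFourier
  simp only [ContinuousMap.coe_mk]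
  have h : 2 * (Real.pi : ℂ) * I * ((zc w ⬝ᵥ x : ℝ) : ℂ) =
      ∑ i, 2 * (Real.pi : ℂ) * I * ((w i : ℂ) * (x i : ℂ)) := by
    simp only [dotProduct, zc]
    push_cast
    rw [Finset.mul_sum]
  rw [h, Complex.exp_sum]
  apply Finset.prod_congr rfl
  intro i _
  rw [fourier_coe_apply]
  congr 1
  push_cast
  ring

theorem poix : Stmt_POIX := by
  intro n P hP u η
  refine ⟨summable_theta P hP u, ?_⟩
  -- the continuous function on the torus
  have hcont : Continuous (G P η) := by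
    rw [isQuotientMap_pr.continuous_iff]
    have h1 : G P η ∘ pr = fun x : Fin n → ℝ =>
        ∑' z : Fin n → ℤ, ((Real.exp (-Real.pi * qf P (x + zc z)) : ℝ) : ℂ) *
          ec η (x + zc z) := by
      funext x; exact G_pr P η x
    rw [h1]
    exact continuous_theta P hP η
  let F : C(UnitAddTorus (Fin n), ℂ) := ⟨G P η, hcont⟩
  set c : (Fin n → ℤ) → ℝ := fun w =>
    (Real.sqrt P.det)⁻¹ * Real.exp (-Real.pi * qf P⁻¹ (zc w - η)) with hc
  have hcoeff : ∀ w, UnitAddTorus.mFourierCoeff F w = ((c w : ℝ) : ℂ) := by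
    intro w
    rw [UnitAddTorus.mFourierCoeff_eq_integral F w 0]
    rw [hc, ← hasSum_unfold P hP η w]
    have hset : {x : Fin n → ℝ | ∀ i, x i ∈ Set.Ioc ((0 : Fin n → ℝ) i) ((0 : Fin n → ℝ) i + 1)} =
        cell (0 : Fin n → ℤ) := by
      ext x; simp [cell]
    rw [hset]
    congr 1
    funext x
    rw [mFourier_coe, smul_eq_mul]
    congr 1
    exact G_pr P η x
  have hcs : Summable c := by
    have h1 := summable_theta P⁻¹ hP.inv (-η)
    have h2 : c = fun w => (Real.sqrt P.det)⁻¹ * Real.exp (-Real.pi * qf P⁻¹ (-η + zc w)) := by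
      funext w
      rw [hc, show -η + zc w = zc w - η by funext i; simp; ring]
    rw [h2]
    exact h1.mul_left _
  have hsum : Summable (UnitAddTorus.mFourierCoeff F) := by
    rw [show UnitAddTorus.mFourierCoeff F = fun w => ((c w : ℝ) : ℂ) from funext hcoeff]
    exact_mod_cast hcs
  have h1 := UnitAddTorus.hasSum_mFourier_series_apply_of_summable hsum (pr u)
  have h2 : F (pr u) = ∑' z : Fin n → ℤ, ((Real.exp (-Real.pi * qf P (u + zc z)) : ℝ) : ℂ) *
      ec η (u + zc z) := G_pr P η u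
  rw [h2] at h1
  have h3 : (fun w : Fin n → ℤ => UnitAddTorus.mFourierCoeff F w • UnitAddTorus.mFourier w (pr u)) =
      fun w : Fin n → ℤ => ((c w : ℝ) : ℂ) * ec (zc w) u := by
    funext w
    rw [hcoeff w, smul_eq_mul]
    congr 1
    exact mFourier_coe w u
  rw [h3] at h1
  exact h1

end Pool.TK.POIX
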