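import Pool.Agent.Work.MP_29fd3c_tk.Interface2

/-!
# AVG: the average of the sum over the nonzero periods
-/

set_option autoImplicit false

namespace Pool.TK.AVG

open Matrix Complex MeasureTheory ENNReal

theorem vol_cube (g : ℕ) : volume (cube g) = 1 := by
  have h : cube g = Set.pi Set.univ
      (fun _ : Fin g => Set.pi Set.univ (fun _ : Fin g => Set.Ico (0 : ℝ) 1)) := by
    ext x
    simp [cube, Set.mem_pi]
  rw [h, volume_pi_pi]
  simp [volume_pi_pi]

/-- the Gaussian -/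
noncomputable def ga {g : ℕ} (s : ℝ) (v : Fin g → ℝ) : ℝ≥0∞ :=
  ENNReal.ofReal (Real.exp (-(Real.pi * s * (v ⬝ᵥ v))))

theorem ga_meas {g : ℕ} (s : ℝ) : Measurable (ga (g := g) s) := by
  unfold ga
  apply ENNReal.measurable_ofReal.comp
  apply Continuous.measurable
  unfold dotProduct
  fun_prop

theorem tsum_split {β : Type} [DecidableEq β] (f : β → ℝ≥0∞) (b : β) :
    ∑' x, f x = f b + ∑' x, if x = b then 0 else f x := by
  rw [ENNReal.tsum_eq_add_tsum_ite b]
  congr 1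
  apply tsum_congr
  intro x
  by_cases h : x = b <;> simp [h]

theorem th_nonneg (s : ℝ) : 0 ≤ th s := tsum_nonneg fun _ => (Real.exp_pos _).le

/-- the sum of the translates of the Gaussian -/
noncomputable def psi {g : ℕ} (s : ℝ) (v : Fin g → ℝ) : ℝ≥0∞ := ∑' b : Fin g → ℤ, ga s (zc b - v)

theorem psi_meas {g : ℕ} (s : ℝ) : Measurable (psi (g := g) s) := by
  unfold psi
  apply Measurable.tsum
  intro b
  exact (ga_meas s).comp (measurable_const.sub measurable_id)

theorem psi_per {g : ℕ} (s : ℝ) (v : Fin g → ℝ) (n : Fin g → ℤ) :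
    psi s (v + zc n) = psi s v := by
  unfold psi
  rw [← (Equiv.subRight n).tsum_eq (fun b => ga s (zc b - v))]
  apply tsum_congr
  intro b
  congr 1
  ext i
  simp [zc]
  ring

theorem hq_meas {g : ℕ} (y : ℝ) (q : Ix g) : Continuous (fun x : Fin g → Fin g → ℝ => hq x y q) := by
  unfold hq symx
  simp only [dotProduct, mulVec, Pi.sub_apply]
  fun_prop

theorem term_meas {g : ℕ} (t y : ℝ) (q : Ix g) :
    Measurable (fun x : Fin g → Fin g → ℝ => if q = 0 then (0 : ℝ≥0∞) else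
        ENNReal.ofReal (Real.exp (-(Real.pi / 2 * t * hq x y q)))) := by
  split_ifs with h
  · exact measurable_const
  · apply ENNReal.measurable_ofReal.comp
    apply Continuous.measurable
    have := hq_meas y q
    fun_prop

theorem exp_split {g : ℕ} (t y : ℝ) (hy : 0 < y) (x : Fin g → Fin g → ℝ) (a b : Fin g → ℤ) :
    ENNReal.ofReal (Real.exp (-(Real.pi / 2 * t * hq x y (a, b)))) =
      ga (t * y / 2) (zc a) * ga (t / (2 * y)) (zc b - symx x *ᵥ zc a) := by
  unfold ga hq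
  rw [← ENNReal.ofReal_mul (Real.exp_pos _).le, ← Real.exp_add]
  congr 2
  have : y⁻¹ = 1 / y := by rw [one_div]
  rw [this]
  field_simp
  ring

/-- the part `a = 0` -/
theorem zero_part (hG : Stmt_THG) (g : ℕ) (t y : ℝ) (ht : 0 < t) (hy : 0 < y) :
    1 ≤ th (t / (2 * y)) ^ g ∧
    ∫⁻ x in cube g, ∑' b : Fin g → ℤ, (if ((0, b) : Ix g) = 0 then (0 : ℝ≥0∞) else
        ENNReal.ofReal (Real.exp (-(Real.pi / 2 * t * hq x y ((0, b) : Ix g))))) =
      ENNReal.ofReal (th (t / (2 * y)) ^ g - 1) := by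
  have hs : 0 < t / (2 * y) := by positivity
  have h1 := (hG g (t / (2 * y)) hs).2
  rw [tsum_split _ (0 : Fin g → ℤ)] at h1
  have h0 : ENNReal.ofReal (Real.exp (-(Real.pi * (t / (2 * y)) *
      (zc (0 : Fin g → ℤ) ⬝ᵥ zc (0 : Fin g → ℤ))))) = 1 := by
    have : (zc (0 : Fin g → ℤ) ⬝ᵥ zc (0 : Fin g → ℤ)) = 0 := by simp [zc, dotProduct]
    rw [this]
    simp
  rw [h0] at h1
  have hle : 1 ≤ th (t / (2 * y)) ^ g := by
    have : ENNReal.ofReal 1 ≤ ENNReal.ofReal (th (t / (2 * y)) ^ g) := by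
      rw [← h1, ENNReal.ofReal_one]
      exact le_self_add
    rwa [ENNReal.ofReal_le_ofReal_iff (pow_nonneg (th_nonneg _) _)] at this
  refine ⟨hle, ?_⟩
  have hc : ∀ x : Fin g → Fin g → ℝ, (∑' b : Fin g → ℤ, (if ((0, b) : Ix g) = 0 then (0 : ℝ≥0∞) else
        ENNReal.ofReal (Real.exp (-(Real.pi / 2 * t * hq x y ((0, b) : Ix g)))))) =
      ∑' b : Fin g → ℤ, ite (b = 0) 0 (ENNReal.ofReal (Real.exp (-(Real.pi * (t / (2 * y)) *
      (zc b ⬝ᵥ zc b))))) := by
    intro x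
    apply tsum_congr
    intro b
    by_cases hb : b = 0
    · subst hb
      simp
    · have h2 : ¬ ((0, b) : Ix g) = 0 := by
        intro h
        apply hb
        have := congrArg Prod.snd h
        simpa using this
      rw [if_neg h2, if_neg hb, exp_split t y hy x 0 b]
      have h3 : (zc (0 : Fin g → ℤ)) = 0 := by
        ext i
        simp [zc]
      have h4 : ga (t * y / 2) (0 : Fin g → ℝ) = 1 := by simp [ga]
      rw [h3, h4]
      simp [ga]
  have hS : (∑' b : Fin g → ℤ, ite (b = 0) 0 (ENNReal.ofReal (Real.exp (-(Real.pi * (t / (2 * y)) *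
      (zc b ⬝ᵥ zc b)))))) = ENNReal.ofReal (th (t / (2 * y)) ^ g - 1) := by
    rw [ENNReal.ofReal_sub _ zero_le_one, ← h1, ENNReal.ofReal_one]
    rw [ENNReal.add_sub_cancel_left ENNReal.one_ne_top]
  simp only [hc]
  rw [hS, lintegral_const]
  simp [vol_cube]

/-- the part `a ≠ 0` -/
theorem one_part (hE : Stmt_EQD) (hU : Stmt_UNF) (hG : Stmt_THG) (g : ℕ) (t y : ℝ) (ht : 0 < t)
    (hy : 0 < y) (a : Fin g → ℤ) (ha : a ≠ 0) :
    ∫⁻ x in cube g, ∑' b : Fin g → ℤ, (if ((a, b) : Ix g) = 0 then (0 : ℝ≥0∞) else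
        ENNReal.ofReal (Real.exp (-(Real.pi / 2 * t * hq x y ((a, b) : Ix g))))) =
      ga (t * y / 2) (zc a) * ENNReal.ofReal (((Real.sqrt (t / (2 * y)))⁻¹) ^ g) := by
  have hs : 0 < t / (2 * y) := by positivity
  have hc : ∀ x : Fin g → Fin g → ℝ, (∑' b : Fin g → ℤ, (if ((a, b) : Ix g) = 0 then (0 : ℝ≥0∞) else
        ENNReal.ofReal (Real.exp (-(Real.pi / 2 * t * hq x y ((a, b) : Ix g)))))) =
      ga (t * y / 2) (zc a) * psi (t / (2 * y)) (symx x *ᵥ zc a) := by
    intro x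
    unfold psi
    rw [← ENNReal.tsum_mul_left]
    apply tsum_congr
    intro b
    have h2 : ¬ ((a, b) : Ix g) = 0 := by
      intro h
      apply ha
      have := congrArg Prod.fst h
      simpa using this
    rw [if_neg h2, exp_split t y hy x a b]
  simp only [hc]
  rw [lintegral_const_mul' _ _ (by unfold ga; exact ENNReal.ofReal_ne_top)]
  rw [hE g a ha (psi (t / (2 * y))) (psi_meas _) (fun v n => psi_per _ v n)]
  have h5 := hU g (ga (t / (2 * y))) (ga_meas _)
  have h6 := (hG g (t / (2 * y)) hs).1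
  unfold psi
  rw [h5]
  unfold ga at *
  rw [h6]

theorem avg (hE : Stmt_EQD) (hU : Stmt_UNF) (hG : Stmt_THG) : Stmt_AVG := by
  intro g t y ht hy
  have hs : 0 < t * y / 2 := by positivity
  have h1 : ∀ x : Fin g → Fin g → ℝ, (∑' q : Ix g, (if q = 0 then (0 : ℝ≥0∞) else
        ENNReal.ofReal (Real.exp (-(Real.pi / 2 * t * hq x y q))))) =
      ∑' a : Fin g → ℤ, ∑' b : Fin g → ℤ, (if ((a, b) : Ix g) = 0 then (0 : ℝ≥0∞) else
        ENNReal.ofReal (Real.exp (-(Real.pi / 2 * t * hq x y ((a, b) : Ix g))))) := by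
    intro x
    exact ENNReal.tsum_prod (f := fun a b => (if ((a, b) : Ix g) = 0 then (0 : ℝ≥0∞) else
        ENNReal.ofReal (Real.exp (-(Real.pi / 2 * t * hq x y ((a, b) : Ix g))))))
  simp only [h1]
  rw [lintegral_tsum (fun a => (Measurable.tsum (fun b => term_meas t y (a, b))).aemeasurable)]
  rw [tsum_split _ (0 : Fin g → ℤ)]
  obtain ⟨hge, hz⟩ := zero_part hG g t y ht hy
  rw [hz]
  have h2 : (∑' a : Fin g → ℤ, ite (a = 0) 0 (∫⁻ x in cube g, ∑' b : Fin g → ℤ,
      (if ((a, b) : Ix g) = 0 then (0 : ℝ≥0∞) else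
        ENNReal.ofReal (Real.exp (-(Real.pi / 2 * t * hq x y ((a, b) : Ix g))))))) ≤
      ∑' a : Fin g → ℤ, ga (t * y / 2) (zc a) *
        ENNReal.ofReal (((Real.sqrt (t / (2 * y)))⁻¹) ^ g) := by
    apply ENNReal.tsum_le_tsum
    intro a
    by_cases ha : a = 0
    · rw [if_pos ha]
      exact zero_le
    · rw [if_neg ha, one_part hE hU hG g t y ht hy a ha]
  have h3 : (∑' a : Fin g → ℤ, ga (t * y / 2) (zc a) *
        ENNReal.ofReal (((Real.sqrt (t / (2 * y)))⁻¹) ^ g)) =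
      ENNReal.ofReal ((Real.sqrt (t / (2 * y)))⁻¹ ^ g * th (t * y / 2) ^ g) := by
    rw [ENNReal.tsum_mul_right, mul_comm, ENNReal.ofReal_mul (by positivity)]
    congr 1
    exact (hG g (t * y / 2) hs).2
  rw [ENNReal.ofReal_add (mul_nonneg (by positivity) (pow_nonneg (th_nonneg _) _))
    (by linarith), add_comm]
  gcongr
  exact h2.trans h3.le

end Pool.TK.AVG
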