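import Pool.Agent.Work.MP_29fd3c_tk.POIX

/-! # Block DOMA (MP_29fd3c_ag): the theta series converges very well everywhere

Written by helper4. -/

set_option autoImplicit false

namespace Pool.TK.DOMA

open Matrix Complex MeasureTheory Pool.TH

theorem term_norm {g : ℕ} (τ : Matrix (Fin g) (Fin g) ℂ) (z : Fin g → ℂ) (n : Fin g → ℤ) :
    ‖term τ z n‖ =
      Real.exp (-Real.pi * qf (Y τ) (zc n) - 2 * Real.pi * (zc n ⬝ᵥ vim z)) := by
  rw [term, Complex.norm_exp]
  congr 1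
  have h1 : (dotProduct (fun i => (n i : ℂ)) (τ.mulVec (fun i => (n i : ℂ)))).im =
      qf (Y τ) (zc n) := by
    simp only [dotProduct, mulVec, qf, Y, zc, Complex.im_sum, Matrix.map_apply]
    refine Finset.sum_congr rfl fun i _ => ?_
    have : ((n i : ℂ) * ∑ j, τ i j * (n j : ℂ)).im = (n i : ℝ) * (∑ j, τ i j * (n j : ℂ)).im := by
      rw [Complex.mul_im]; simp
    rw [this, Complex.im_sum]
    congr 1
    refine Finset.sum_congr rfl fun j _ => ?_
    rw [Complex.mul_im]; simp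
  have h2 : (dotProduct (fun i => (n i : ℂ)) z).im = zc n ⬝ᵥ vim z := by
    simp only [dotProduct, zc, vim, Complex.im_sum]
    refine Finset.sum_congr rfl fun i _ => ?_
    rw [Complex.mul_im]; simp
  rw [← h1, ← h2]
  simp [Complex.add_re, Complex.mul_re, Complex.mul_im]
  ring

theorem doma : Stmt_DOMA := by
  intro g τ _ hY z B
  obtain ⟨c, hc, hlow⟩ := POIX.exists_lower (Y τ) hY
  set K : ℝ := 2 * Real.pi * (∑ i, |vim z i|) + |B| with hK
  have hs := POIX.summable_pi (n := g)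
    (fun m : ℤ => Real.exp (-(Real.pi * c) * (m : ℝ) ^ 2 + K * |(m : ℝ)|))
    (fun m => (Real.exp_pos _).le) (POIX.summable_one (Real.pi * c) K (by positivity))
  refine Summable.of_nonneg_of_le (fun n => by positivity) (fun n => ?_) hs
  rw [term_norm, ← Real.exp_add, ← Real.exp_sum]
  apply Real.exp_le_exp.2
  have h1 := hlow (zc n)
  have h2 : zc n ⬝ᵥ zc n = ∑ i, (n i : ℝ) ^ 2 := by
    simp only [dotProduct, zc, pow_two]
  have h3 : -(2 * Real.pi * (zc n ⬝ᵥ vim z)) ≤ 2 * Real.pi * (∑ i, |vim z i|) * N1 n := by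
    have h4 : -(zc n ⬝ᵥ vim z) ≤ (∑ i, |vim z i|) * N1 n := by
      calc -(zc n ⬝ᵥ vim z) ≤ |zc n ⬝ᵥ vim z| := neg_le_abs _
        _ ≤ ∑ i, |zc n i * vim z i| := Finset.abs_sum_le_sum_abs _ _
        _ = ∑ i, |vim z i| * |(n i : ℝ)| := by
          refine Finset.sum_congr rfl fun i _ => ?_
          rw [abs_mul, mul_comm]; rfl
        _ ≤ ∑ i, |vim z i| * N1 n := by
          refine Finset.sum_le_sum fun i _ => mul_le_mul_of_nonneg_left ?_ (abs_nonneg _)
          exact Finset.single_le_sum (f := fun i => |(n i : ℝ)|) (fun j _ => abs_nonneg _)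
            (Finset.mem_univ i)
        _ = (∑ i, |vim z i|) * N1 n := by rw [Finset.sum_mul]
    have hpi := Real.pi_pos
    calc -(2 * Real.pi * (zc n ⬝ᵥ vim z)) = 2 * Real.pi * -(zc n ⬝ᵥ vim z) := by ring
      _ ≤ 2 * Real.pi * ((∑ i, |vim z i|) * N1 n) := mul_le_mul_of_nonneg_left h4 (by positivity)
      _ = _ := by ring
  have h5 : B * N1 n ≤ |B| * N1 n := mul_le_mul_of_nonneg_right (le_abs_self B) (N1_nonneg n)
  have h6 : ∑ i, (-(Real.pi * c) * (n i : ℝ) ^ 2 + K * |(n i : ℝ)|) =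
      -(Real.pi * (c * (zc n ⬝ᵥ zc n))) + K * N1 n := by
    rw [Finset.sum_add_distrib, ← Finset.mul_sum, ← Finset.mul_sum, h2, N1]
    ring
  rw [h6]
  have h7 : Real.pi * (c * (zc n ⬝ᵥ zc n)) ≤ Real.pi * qf (Y τ) (zc n) :=
    mul_le_mul_of_nonneg_left h1 Real.pi_pos.le
  rw [hK]
  nlinarith

end Pool.TK.DOMA
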