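import Pool.Agent.Work.MP_29fd3c_th.Der

/-!
# Theta divisors of abelian varieties without short periods: definitions (MP_29fd3c_ag)
-/

set_option autoImplicit false

namespace Pool.TK

open Matrix Complex MeasureTheory Pool.TH

/-- quadratic form of a matrix -/
def qf {n : ℕ} (P : Matrix (Fin n) (Fin n) ℝ) (v : Fin n → ℝ) : ℝ := v ⬝ᵥ (P *ᵥ v)

/-- integer vectors as real vectors -/
def zc {n : ℕ} (z : Fin n → ℤ) : Fin n → ℝ := fun i => (z i : ℝ)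

/-- real part of the period matrix -/
def X {g : ℕ} (τ : Matrix (Fin g) (Fin g) ℂ) : Matrix (Fin g) (Fin g) ℝ := τ.map Complex.re

/-- imaginary part of the period matrix -/
def Y {g : ℕ} (τ : Matrix (Fin g) (Fin g) ℂ) : Matrix (Fin g) (Fin g) ℝ := τ.map Complex.im

/-- real parts of a complex vector -/
def vre {g : ℕ} (z : Fin g → ℂ) : Fin g → ℝ := fun i => (z i).re

/-- imaginary parts of a complex vector -/
def vim {g : ℕ} (z : Fin g → ℂ) : Fin g → ℝ := fun i => (z i).im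

/-- the index set of the period lattice -/
abbrev Ix (g : ℕ) : Type := (Fin g → ℤ) × (Fin g → ℤ)

/-- the value of the Hermitian form at the period `q.2 - τ q.1` -/
noncomputable def hh {g : ℕ} (τ : Matrix (Fin g) (Fin g) ℂ) (q : Ix g) : ℝ :=
  qf (Y τ) (zc q.1) + qf (Y τ)⁻¹ (zc q.2 - X τ *ᵥ zc q.1)

/-- the character `z ↦ exp (2πi (a·x + b·y))`, `z = x + τ y`, of the period `q = (a, b)` -/
noncomputable def chr {g : ℕ} (τ : Matrix (Fin g) (Fin g) ℂ) (z : Fin g → ℂ) (q : Ix g) : ℂ :=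
  cexp (2 * Real.pi * I *
    ((zc q.1 ⬝ᵥ vre z + (zc q.2 - X τ *ᵥ zc q.1) ⬝ᵥ ((Y τ)⁻¹ *ᵥ vim z) : ℝ) : ℂ))

/-- the sign `(-1) ^ (a·b)` -/
noncomputable def sgn {g : ℕ} (q : Ix g) : ℂ :=
  cexp (Real.pi * I * ((zc q.1 ⬝ᵥ zc q.2 : ℝ) : ℂ))

/-- the square of the invariant norm of the theta function -/
noncomputable def nrm2 {g : ℕ} (τ : Matrix (Fin g) (Fin g) ℂ) (z : Fin g → ℂ) : ℝ :=
  Real.sqrt ((2 : ℝ) • Y τ).det * Real.exp (-(2 * Real.pi * qf (Y τ)⁻¹ (vim z))) * ‖theta τ z‖ ^ 2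

/-- sum of the squares of the absolute values -/
noncomputable def sq {g : ℕ} (v : Fin g → ℂ) : ℝ := ∑ i, ‖v i‖ ^ 2

/-- `∑ Re (conj (l i) * v i)` -/
noncomputable def rip {g : ℕ} (l v : Fin g → ℂ) : ℝ := ∑ i, ((starRingEnd ℂ) (l i) * v i).re

/-- the point `z + Bᵗ v` -/
noncomputable def pt {g : ℕ} (B : Matrix (Fin g) (Fin g) ℝ) (z v : Fin g → ℂ) : Fin g → ℂ :=
  z + (B.transpose.map (fun x : ℝ => (x : ℂ))) *ᵥ v

/-- the vector `l = B a + i B⁻ᵗ (b - X a)`: `chr (z + Bᵗ v) = chr z * exp (2πi (l, v))` -/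
noncomputable def ell {g : ℕ} (τ : Matrix (Fin g) (Fin g) ℂ) (B : Matrix (Fin g) (Fin g) ℝ)
    (q : Ix g) : Fin g → ℂ :=
  fun i => (((B *ᵥ zc q.1) i : ℝ) : ℂ) +
    (((B.transpose⁻¹ *ᵥ (zc q.2 - X τ *ᵥ zc q.1)) i : ℝ) : ℂ) * I

/-- the entire function `G v = θ (z + Bᵗ v) exp (π/2 ∑ (v i)² + 2πi y·(Bᵗ v))`, `y = Y⁻¹ Im z` -/
noncomputable def GG {g : ℕ} (τ : Matrix (Fin g) (Fin g) ℂ) (B : Matrix (Fin g) (Fin g) ℝ)
    (z v : Fin g → ℂ) : ℂ :=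
  theta τ (pt B z v) * cexp ((Real.pi / 2 : ℝ) * ∑ i, v i ^ 2 +
    2 * Real.pi * I * ∑ i, (((Y τ)⁻¹ *ᵥ vim z) i : ℂ) *
      ((B.transpose.map (fun x : ℝ => (x : ℂ))) *ᵥ v) i)

end Pool.TK
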