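import Pool.Agent.Work.MP_29fd3c_tk.Interface

/-!
# MP_29fd3c_ag, block EDER: derivatives of exponential sums
-/

set_option autoImplicit false

namespace Pool.TK.EDER

open Complex

/-- `h ^ j exp (-c h)` is bounded by a multiple of `exp (-(c/2) h)` -/
theorem pow_mul_exp_le {c h : ℝ} (hc : 0 < c) (hh : 0 ≤ h) (j : ℕ) :
    h ^ j * Real.exp (-(c * h)) ≤ (2 / c) ^ j * j.factorial * Real.exp (-(c / 2 * h)) := by
  have h1 := Real.pow_div_factorial_le_exp (c / 2 * h) (by positivity) j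
  have hf : (0 : ℝ) < j.factorial := by exact_mod_cast j.factorial_pos
  rw [div_le_iff₀ hf] at h1
  have h2 : h ^ j = (2 / c) ^ j * (c / 2 * h) ^ j := by
    rw [← mul_pow]
    congr 1
    field_simp
  have h3 : Real.exp (-(c * h)) = Real.exp (-(c / 2 * h)) * Real.exp (-(c / 2 * h)) := by
    rw [← Real.exp_add]; congr 1; ring
  have h4 : Real.exp (c / 2 * h) * Real.exp (-(c / 2 * h)) = 1 := by
    rw [← Real.exp_add]; simp
  have hE : 0 < Real.exp (-(c / 2 * h)) := Real.exp_pos _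
  calc h ^ j * Real.exp (-(c * h))
      = (2 / c) ^ j * (c / 2 * h) ^ j * (Real.exp (-(c / 2 * h)) * Real.exp (-(c / 2 * h))) := by
        rw [h3, h2]
    _ ≤ (2 / c) ^ j * (Real.exp (c / 2 * h) * j.factorial)
          * (Real.exp (-(c / 2 * h)) * Real.exp (-(c / 2 * h))) := by
        refine mul_le_mul_of_nonneg_right ?_ (by positivity)
        exact mul_le_mul_of_nonneg_left h1 (by positivity)
    _ = (2 / c) ^ j * j.factorial * (Real.exp (c / 2 * h) * Real.exp (-(c / 2 * h)))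
          * Real.exp (-(c / 2 * h)) := by ring
    _ = (2 / c) ^ j * j.factorial * Real.exp (-(c / 2 * h)) := by rw [h4, mul_one]

theorem summable_pow {ι : Type} {h : ι → ℝ} (h0 : ∀ i, 0 ≤ h i)
    (hs : ∀ s : ℝ, 0 < s → Summable (fun i => Real.exp (-(s * h i)))) {c : ℝ} (hc : 0 < c)
    (j : ℕ) : Summable (fun i => (h i) ^ j * Real.exp (-(c * h i))) := by
  refine Summable.of_nonneg_of_le (fun i => mul_nonneg (pow_nonneg (h0 i) j) (Real.exp_pos _).le)
    (fun i => pow_mul_exp_le hc (h0 i) j) ?_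
  exact (hs (c / 2) (by positivity)).mul_left _

theorem eder : Stmt_EDER := by
  intro ι h ε h0 hε hs j u hu
  have hcpos : ∀ x : ℝ, -1 / 2 < x → 0 < Real.pi / 2 * (1 + 2 * x) := by
    intro x hx
    have := Real.pi_pos
    have h1 : 0 < 1 + 2 * x := by linarith
    positivity
  refine ⟨summable_pow h0 hs (hcpos u hu) j, ?_⟩
  set u0 : ℝ := (u + -1 / 2) / 2 with hu0
  have hu0' : -1 / 2 < u0 := by rw [hu0]; linarith
  have hu0u : u0 < u := by rw [hu0]; linarith
  set g : ι → ℝ → ℂ := fun i x => ((-(Real.pi * h i)) ^ j : ℝ) * ε i *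
    ((Real.exp (-(Real.pi / 2 * (1 + 2 * x) * h i)) : ℝ) : ℂ) with hg
  set g' : ι → ℝ → ℂ := fun i x => ((-(Real.pi * h i)) ^ (j + 1) : ℝ) * ε i *
    ((Real.exp (-(Real.pi / 2 * (1 + 2 * x) * h i)) : ℝ) : ℂ) with hg'
  have hbound : ∀ (k : ℕ) (i : ι) (x : ℝ), u0 ≤ x →
      ‖(((-(Real.pi * h i)) ^ k : ℝ) : ℂ) * ε i *
        ((Real.exp (-(Real.pi / 2 * (1 + 2 * x) * h i)) : ℝ) : ℂ)‖
      ≤ Real.pi ^ k * ((h i) ^ k * Real.exp (-(Real.pi / 2 * (1 + 2 * u0) * h i))) := by
    intro k i x hx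
    have hpi := Real.pi_pos
    rw [norm_mul, norm_mul, Complex.norm_real, Complex.norm_real, Real.norm_eq_abs,
      Real.norm_eq_abs, abs_of_pos (Real.exp_pos _), abs_pow, abs_neg,
      abs_of_nonneg (mul_nonneg hpi.le (h0 i)), mul_pow]
    have h1 : Real.exp (-(Real.pi / 2 * (1 + 2 * x) * h i))
        ≤ Real.exp (-(Real.pi / 2 * (1 + 2 * u0) * h i)) := by
      refine Real.exp_le_exp.2 ?_
      have h2 : 0 ≤ h i * (x - u0) := mul_nonneg (h0 i) (by linarith)
      nlinarith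
    have h3 : 0 ≤ Real.pi ^ k * (h i) ^ k := mul_nonneg (by positivity) (pow_nonneg (h0 i) k)
    calc Real.pi ^ k * (h i) ^ k * ‖ε i‖ * Real.exp (-(Real.pi / 2 * (1 + 2 * x) * h i))
        ≤ Real.pi ^ k * (h i) ^ k * 1 * Real.exp (-(Real.pi / 2 * (1 + 2 * u0) * h i)) := by
          refine mul_le_mul ?_ h1 (Real.exp_pos _).le (by rw [mul_one]; exact h3)
          exact mul_le_mul_of_nonneg_left (hε i) h3
      _ = _ := by ring
  have hsum : ∀ k : ℕ, Summable (fun i =>
      Real.pi ^ k * ((h i) ^ k * Real.exp (-(Real.pi / 2 * (1 + 2 * u0) * h i)))) :=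
    fun k => (summable_pow h0 hs (hcpos u0 hu0') k).mul_left _
  refine hasDerivAt_tsum_of_isPreconnected (g := g) (g' := g') (t := Set.Ioi u0) (y₀ := u)
    (hsum (j + 1)) isOpen_Ioi isPreconnected_Ioi ?_ ?_ hu0u ?_ hu0u
  · intro i x _
    have h1 : HasDerivAt (fun x : ℝ => Real.exp (-(Real.pi / 2 * (1 + 2 * x) * h i)))
        (Real.exp (-(Real.pi / 2 * (1 + 2 * x) * h i)) * (-(Real.pi * h i))) x := by
      have h2 : HasDerivAt (fun x : ℝ => -(Real.pi / 2 * (1 + 2 * x) * h i))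
          (-(Real.pi * h i)) x := by
        have h3 := (((hasDerivAt_id x).const_mul 2).const_add 1).const_mul (Real.pi / 2)
        have h4 := (h3.mul_const (h i)).neg
        refine h4.congr_deriv ?_
        ring
      exact h2.exp
    have h5 := h1.ofReal_comp
    have h6 := h5.const_mul ((((-(Real.pi * h i)) ^ j : ℝ) : ℂ) * ε i)
    refine h6.congr_deriv ?_
    rw [hg']
    push_cast
    ring
  · intro i x hx
    exact hbound (j + 1) i x (le_of_lt hx)
  · exact Summable.of_norm_bounded (hsum j) (fun i => hbound j i u hu0u.le)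

end Pool.TK.EDER
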