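import Pool.Agent.Work.MP_29fd3c_tk.Interface

/-! Block ELL: the characters along `pt`. -/

set_option autoImplicit false

namespace Pool.TK.ELL

open Matrix Complex MeasureTheory Pool.TH

theorem map_re' {g : ℕ} (M : Matrix (Fin g) (Fin g) ℝ) (v : Fin g → ℂ) (i : Fin g) :
    ((M.map (fun x : ℝ => (x : ℂ)) *ᵥ v) i).re = (M *ᵥ vre v) i := by
  simp only [mulVec, dotProduct, Complex.re_sum, Matrix.map_apply, Complex.re_ofReal_mul, vre]

theorem map_im' {g : ℕ} (M : Matrix (Fin g) (Fin g) ℝ) (v : Fin g → ℂ) (i : Fin g) :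
    ((M.map (fun x : ℝ => (x : ℂ)) *ᵥ v) i).im = (M *ᵥ vim v) i := by
  simp only [mulVec, dotProduct, Complex.im_sum, Matrix.map_apply, Complex.im_ofReal_mul, vim]

theorem vre_pt {g : ℕ} (B : Matrix (Fin g) (Fin g) ℝ) (z v : Fin g → ℂ) :
    vre (pt B z v) = vre z + B.transpose *ᵥ vre v := by
  ext i
  simp only [pt, vre, Pi.add_apply, Complex.add_re]
  rw [map_re']

theorem vim_pt {g : ℕ} (B : Matrix (Fin g) (Fin g) ℝ) (z v : Fin g → ℂ) :
    vim (pt B z v) = vim z + B.transpose *ᵥ vim v := by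
  ext i
  simp only [pt, vim, Pi.add_apply, Complex.add_im]
  rw [map_im']

theorem rip_ell {g : ℕ} (τ : Matrix (Fin g) (Fin g) ℂ) (B : Matrix (Fin g) (Fin g) ℝ) (q : Ix g)
    (v : Fin g → ℂ) : rip (Pool.TK.ell τ B q) v = (B *ᵥ zc q.1) ⬝ᵥ vre v +
      (B.transpose⁻¹ *ᵥ (zc q.2 - X τ *ᵥ zc q.1)) ⬝ᵥ vim v := by
  unfold rip dotProduct
  rw [← Finset.sum_add_distrib]
  apply Finset.sum_congr rfl
  intro i _
  simp [Pool.TK.ell, vre, vim, Complex.mul_re]

theorem ell : Stmt_ELL := by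
  intro g τ hτ hY B hB hYB
  have hu : IsUnit B.det := isUnit_iff_ne_zero.mpr hB
  have hut : IsUnit B.transpose.det := by rw [det_transpose]; exact hu
  have hinv : (Y τ)⁻¹ = B⁻¹ * B.transpose⁻¹ := by rw [hYB, Matrix.mul_inv_rev]
  have hT : (B⁻¹).transpose = B.transpose⁻¹ := Matrix.transpose_nonsing_inv B
  constructor
  · intro z v q
    unfold chr
    rw [← Complex.exp_add]
    congr 1
    rw [vre_pt, vim_pt, rip_ell, ← mul_add]
    congr 1
    rw [← Complex.ofReal_add]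
    congr 1
    set w := zc q.2 - X τ *ᵥ zc q.1
    have e1 : zc q.1 ⬝ᵥ (B.transpose *ᵥ vre v) = (B *ᵥ zc q.1) ⬝ᵥ vre v := by
      rw [dotProduct_mulVec, vecMul_transpose]
    have e2 : w ⬝ᵥ ((Y τ)⁻¹ *ᵥ (B.transpose *ᵥ vim v)) =
        (B.transpose⁻¹ *ᵥ w) ⬝ᵥ vim v := by
      rw [mulVec_mulVec, hinv, Matrix.mul_assoc, Matrix.nonsing_inv_mul _ hut, Matrix.mul_one,
        dotProduct_mulVec, ← hT, mulVec_transpose]
    rw [dotProduct_add, mulVec_add, dotProduct_add, e1, e2]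
    ring
  · intro q
    set w := zc q.2 - X τ *ᵥ zc q.1 with hw
    have h1 : qf (Y τ) (zc q.1) = (B *ᵥ zc q.1) ⬝ᵥ (B *ᵥ zc q.1) := by
      unfold qf
      rw [hYB, ← mulVec_mulVec, dotProduct_mulVec, vecMul_transpose]
    have h2 : qf (Y τ)⁻¹ w = (B.transpose⁻¹ *ᵥ w) ⬝ᵥ (B.transpose⁻¹ *ᵥ w) := by
      unfold qf
      rw [hinv, ← mulVec_mulVec, dotProduct_mulVec, ← mulVec_transpose, hT]
    unfold hh
    rw [← hw, h1, h2]
    unfold sq dotProduct
    rw [← Finset.sum_add_distrib]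
    apply Finset.sum_congr rfl
    intro i _
    rw [← Complex.normSq_eq_norm_sq, Complex.normSq_apply]
    simp [Pool.TK.ell, hw]

end Pool.TK.ELL
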