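import Pool.Agent.Work.MP_29fd3c_tk.Interface2

/-! # Block EQD: equidistribution of `X a` modulo `1` -/

set_option autoImplicit false

namespace Pool.TK.EQD

open MeasureTheory ENNReal

/-- the homomorphism of tori `X ↦ X a` -/
noncomputable def T (g : ℕ) (a : Fin g → ℤ) :
    (Fin g → Fin g → UnitAddCircle) →+ (Fin g → UnitAddCircle) where
  toFun x := fun i => ∑ j, a j • x (min i j) (max i j)
  map_zero' := by
    funext i
    simp
  map_add' x y := by
    funext i
    simp [Finset.sum_add_distrib]

theorem T_cont (g : ℕ) (a : Fin g → ℤ) : Continuous (T g a) := by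
  refine continuous_pi (fun i => ?_)
  show Continuous (fun x : Fin g → Fin g → UnitAddCircle => ∑ j, a j • x (min i j) (max i j))
  refine continuous_finsetSum _ (fun j _ => ?_)
  exact (continuous_zsmul (a j)).comp
    ((continuous_apply (max i j)).comp (continuous_apply (min i j)))

/-- the projection to the torus commutes with `X ↦ X a` -/
theorem T_mk (g : ℕ) (a : Fin g → ℤ) (x : Fin g → Fin g → ℝ) :
    T g a (fun i j => (x i j : UnitAddCircle)) =
      fun i => (((symx x).mulVec (zc a)) i : UnitAddCircle) := by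
  funext i
  show ∑ j, a j • (x (min i j) (max i j) : UnitAddCircle) = _
  rw [Matrix.mulVec, dotProduct]
  have h : (((∑ j, symx x i j * zc a j : ℝ)) : UnitAddCircle) =
      ∑ j, ((symx x i j * zc a j : ℝ) : UnitAddCircle) := by
    exact map_sum (QuotientAddGroup.mk' (AddSubgroup.zmultiples (1 : ℝ))) _ _
  rw [h]
  refine Finset.sum_congr rfl (fun j _ => ?_)
  rw [← AddCircle.coe_zsmul]
  congr 1
  simp only [symx, zc, zsmul_eq_mul]
  ring

theorem T_surj (g : ℕ) (a : Fin g → ℤ) (ha : a ≠ 0) : Function.Surjective (T g a) := by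
  obtain ⟨k, hk⟩ : ∃ k, a k ≠ 0 := by
    by_contra h
    push Not at h
    exact ha (funext h)
  have hk' : (a k : ℝ) ≠ 0 := by exact_mod_cast hk
  intro t
  obtain ⟨s, hs⟩ : ∃ s : Fin g → ℝ, (fun i => (s i : UnitAddCircle)) = t := by
    choose s hs using fun i => QuotientAddGroup.mk_surjective (t i)
    exact ⟨s, funext hs⟩
  -- a real symmetric matrix with `X a = s`
  set u : Fin g → ℝ := fun i => s i / a k with hu
  set c : ℝ := (s k - ∑ j ∈ Finset.univ.erase k, u j * a j) / a k with hc
  set x : Fin g → Fin g → ℝ := fun i j =>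
    if i = k ∧ j = k then c else if i = k then u j else if j = k then u i else 0 with hx
  refine ⟨fun i j => (x i j : UnitAddCircle), ?_⟩
  rw [T_mk, ← hs]
  funext i
  have key : ((symx x).mulVec (zc a)) i = s i := by
    rw [Matrix.mulVec, dotProduct]
    have hsym : ∀ i j : Fin g, symx x i j =
        if i = k ∧ j = k then c else if i = k then u j else if j = k then u i else 0 := by
      intro i j
      simp only [symx, hx]
      rcases le_total i j with hij | hij
      · rw [min_eq_left hij, max_eq_right hij]
      · rw [min_eq_right hij, max_eq_left hij]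
        by_cases h1 : i = k
        · by_cases h2 : j = k
          · simp [h1, h2]
          · simp [h1, h2]
        · by_cases h2 : j = k
          · simp [h1, h2]
          · simp [h1, h2]
    by_cases hi : i = k
    · subst hi
      rw [← Finset.add_sum_erase _ _ (Finset.mem_univ i)]
      have h1 : ∀ j ∈ Finset.univ.erase i, symx x i j * zc a j = u j * a j := by
        intro j hj
        have hj' : j ≠ i := Finset.ne_of_mem_erase hj
        rw [hsym]
        simp [hj', zc]
      rw [Finset.sum_congr rfl h1, hsym]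
      simp only [and_self, if_true, zc, hc]
      field_simp
      ring
    · rw [Finset.sum_eq_single k]
      · rw [hsym]
        simp only [hi, false_and, if_false, if_true, zc, hu]
        field_simp
      · intro j _ hj
        rw [hsym]
        simp [hi, hj]
      · intro h
        exact absurd (Finset.mem_univ k) h
  rw [key]

/-- the cube in dimension `g` projects to the torus preserving the measure -/
theorem mp1 (g : ℕ) : MeasurePreserving (fun (v : Fin g → ℝ) i => (v i : UnitAddCircle))
    (volume.restrict {v : Fin g → ℝ | ∀ i, 0 ≤ v i ∧ v i < 1}) volume := by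
  have h0 : MeasurePreserving (fun (t : ℝ) => (t : UnitAddCircle))
      (volume.restrict (Set.Ico 0 1)) volume := by
    have h := UnitAddCircle.measurePreserving_mk 0
    rw [zero_add] at h
    rw [Measure.restrict_congr_set Ico_ae_eq_Ioc]
    exact h
  have h1 := measurePreserving_pi (fun _ : Fin g => (volume : Measure ℝ).restrict (Set.Ico 0 1))
    (fun _ => (volume : Measure UnitAddCircle)) (fun _ => h0)
  rw [← Measure.restrict_pi_pi] at h1
  have hset : (Set.univ.pi fun _ : Fin g => Set.Ico (0 : ℝ) 1) =
      {v : Fin g → ℝ | ∀ i, 0 ≤ v i ∧ v i < 1} := by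
    ext v
    simp [Set.mem_pi]
  rw [hset] at h1
  exact h1

theorem mp2 (g : ℕ) : MeasurePreserving
    (fun (x : Fin g → Fin g → ℝ) i j => (x i j : UnitAddCircle))
    (volume.restrict (cube g)) volume := by
  have h1 := measurePreserving_pi
    (fun _ : Fin g => (volume : Measure (Fin g → ℝ)).restrict
      {v : Fin g → ℝ | ∀ i, 0 ≤ v i ∧ v i < 1})
    (fun _ => (volume : Measure (Fin g → UnitAddCircle))) (fun _ => mp1 g)
  rw [← Measure.restrict_pi_pi] at h1
  have hset : (Set.univ.pi fun _ : Fin g => {v : Fin g → ℝ | ∀ i, 0 ≤ v i ∧ v i < 1}) =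
      cube g := by
    ext v
    simp [Set.mem_pi, cube]
  rw [hset] at h1
  exact h1

theorem haar1 (g : ℕ) : (volume : Measure (Fin g → UnitAddCircle)).IsAddHaarMeasure :=
  inferInstance

theorem haar2 (g : ℕ) : (volume : Measure (Fin g → Fin g → UnitAddCircle)).IsAddHaarMeasure := by
  have h1 := haar1 g
  have h3 : MeasurableAdd (Fin g → UnitAddCircle) := inferInstance
  have h4 : SigmaFinite (volume : Measure (Fin g → UnitAddCircle)) := inferInstance
  have h5 : ∀ i : Fin g,
      ((fun _ : Fin g => (volume : Measure (Fin g → UnitAddCircle))) i).IsAddHaarMeasure :=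
    fun _ => h1
  exact @Measure.pi.isAddHaarMeasure (Fin g) (fun _ => Fin g → UnitAddCircle) _ _
    (fun _ => volume) (fun _ => h4) _ _ h5 (fun _ => h3)

theorem prob1 (g : ℕ) : IsProbabilityMeasure (volume : Measure (Fin g → UnitAddCircle)) := by
  refine ⟨?_⟩
  have h6 : (volume : Measure (Fin g → UnitAddCircle)) Set.univ =
      ∏ i : Fin g, ((fun _ : Fin g => (volume : Measure UnitAddCircle)) i) Set.univ :=
    Measure.pi_univ _
  rw [h6]
  exact Finset.prod_eq_one (fun i _ => UnitAddCircle.measure_univ)

theorem prob2 (g : ℕ) :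
    IsProbabilityMeasure (volume : Measure (Fin g → Fin g → UnitAddCircle)) := by
  have h1 := prob1 g
  have h5 : ∀ i : Fin g, IsProbabilityMeasure
      ((fun _ : Fin g => (volume : Measure (Fin g → UnitAddCircle))) i) := fun _ => h1
  refine ⟨?_⟩
  have h6 : (volume : Measure (Fin g → Fin g → UnitAddCircle)) Set.univ =
      ∏ i : Fin g, ((fun _ : Fin g => (volume : Measure (Fin g → UnitAddCircle))) i) Set.univ :=
    Measure.pi_univ _
  rw [h6]
  exact Finset.prod_eq_one (fun i _ => h1.measure_univ)

theorem mpT (g : ℕ) (a : Fin g → ℤ) (ha : a ≠ 0) : MeasurePreserving (T g a) volume volume := by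
  have h1 := haar1 g
  have h2 := haar2 g
  have h3 := prob1 g
  have h4 := prob2 g
  refine AddMonoidHom.measurePreserving (T_cont g a) (T_surj g a ha) ?_
  rw [measure_univ, measure_univ]

theorem eqd : Stmt_EQD := by
  intro g a ha ψ hψ hper
  set Ψ : (Fin g → UnitAddCircle) → ℝ≥0∞ :=
    fun u => ψ (fun i => (AddCircle.measurableEquivIco 1 0 (u i) : ℝ)) with hΨ
  have hΨm : Measurable Ψ := by
    refine hψ.comp (measurable_pi_lambda _ (fun i => ?_))
    exact measurable_subtype_coe.comp
      ((AddCircle.measurableEquivIco 1 0).measurable.comp (measurable_pi_apply i))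
  have hmk : ∀ v : Fin g → ℝ, Ψ (fun i => (v i : UnitAddCircle)) = ψ v := by
    intro v
    have h1 : (fun i => (AddCircle.measurableEquivIco 1 0 ((v i : UnitAddCircle)) : ℝ)) =
        fun i => Int.fract (v i) := by
      funext i
      have := AddCircle.coe_equivIco_mk_apply (1 : ℝ) (v i)
      rw [div_one, mul_one] at this
      exact this
    show ψ _ = _
    rw [h1, ← hper (fun i => Int.fract (v i)) (fun i => ⌊v i⌋)]
    congr 1
    funext i
    simp only [Pi.add_apply, zc]
    exact Int.fract_add_floor (v i)
  have e1 : ∫⁻ x in cube g, ψ ((symx x).mulVec (zc a)) =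
      ∫⁻ x in cube g, Ψ (T g a (fun i j => (x i j : UnitAddCircle))) := by
    refine lintegral_congr (fun x => ?_)
    rw [T_mk, hmk]
  have e2 : ∫⁻ x in cube g, Ψ (T g a (fun i j => (x i j : UnitAddCircle))) =
      ∫⁻ X, Ψ (T g a X) :=
    (mp2 g).lintegral_comp (hΨm.comp (T_cont g a).measurable)
  have e3 : ∫⁻ X, Ψ (T g a X) = ∫⁻ u, Ψ u := (mpT g a ha).lintegral_comp hΨm
  have e4 : ∫⁻ v in {v : Fin g → ℝ | ∀ i, 0 ≤ v i ∧ v i < 1}, ψ v = ∫⁻ u, Ψ u := by
    rw [← (mp1 g).lintegral_comp hΨm]
    exact lintegral_congr (fun v => (hmk v).symm)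
  rw [e1, e2, e3, e4]

end Pool.TK.EQD
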