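import Pool.Agent.Work.MP_29fd3c_tk.Interface

/-!
# Block PARS (MP_29fd3c_ag): Parseval's identity for power series on a circle
-/

set_option autoImplicit false

namespace Pool.TK.PARS

open Complex MeasureTheory Filter Topology

/-- the exponential `e^(i k α)` -/
noncomputable def ex (k : ℤ) (α : ℝ) : ℂ := cexp (k * α * I)

theorem ex_cont (k : ℤ) : Continuous (ex k) := by
  unfold ex
  fun_prop

theorem ex_norm (k : ℤ) (α : ℝ) : ‖ex k α‖ = 1 := by
  unfold ex
  have : ((k : ℂ) * α * I) = (((k : ℝ) * α : ℝ) : ℂ) * I := by push_cast; ring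
  rw [this, Complex.norm_exp_ofReal_mul_I]

theorem ex_int (k : ℤ) : ∫ α in (0 : ℝ)..(2 * Real.pi), ex k α = if k = 0 then 2 * Real.pi else 0 := by
  by_cases hk : k = 0
  · subst hk
    simp [ex]
  · rw [if_neg hk]
    have hc : (k : ℂ) * I ≠ 0 := mul_ne_zero (by exact_mod_cast hk) I_ne_zero
    have e : ∀ α : ℝ, ex k α = cexp (k * I * α) := by
      intro α
      unfold ex
      congr 1
      ring
    simp only [e]
    rw [integral_exp_mul_complex hc]
    have e1 : (k : ℂ) * I * ((2 * Real.pi : ℝ) : ℂ) = k * (2 * Real.pi * I) := by push_cast; ring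
    rw [e1, Complex.exp_int_mul_two_pi_mul_I]
    simp

theorem ex_add (k l : ℤ) (α : ℝ) : ex k α * ex l α = ex (k + l) α := by
  unfold ex
  rw [← Complex.exp_add]
  congr 1
  push_cast
  ring

theorem ex_conj (k : ℤ) (α : ℝ) : (starRingEnd ℂ) (ex k α) = ex (-k) α := by
  unfold ex
  rw [← Complex.exp_conj]
  congr 1
  simp

/-- termwise integration of absolutely convergent trigonometric series -/
theorem int_sum {ι : Type} [Countable ι] (b : ι → ℂ) (n : ι → ℤ) (hb : Summable (fun i => ‖b i‖)) :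
    HasSum (fun i => b i * (if n i = 0 then (2 * Real.pi : ℂ) else 0))
      (∫ α in (0 : ℝ)..(2 * Real.pi), ∑' i, b i * ex (n i) α) := by
  have h := intervalIntegral.hasSum_integral_of_dominated_convergence (μ := volume)
    (a := 0) (b := 2 * Real.pi) (F := fun i α => b i * ex (n i) α)
    (f := fun α => ∑' i, b i * ex (n i) α) (fun i _ => ‖b i‖) ?_ ?_ ?_ ?_ ?_
  · have e : ∀ i, ∫ α in (0 : ℝ)..(2 * Real.pi), b i * ex (n i) α =
        b i * (if n i = 0 then (2 * Real.pi : ℂ) else 0) := by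
      intro i
      rw [intervalIntegral.integral_const_mul, ex_int]
      split_ifs <;> simp
    simpa only [e] using h
  · intro i
    exact ((ex_cont (n i)).const_mul (b i)).aestronglyMeasurable
  · intro i
    refine Filter.Eventually.of_forall fun α _ => ?_
    rw [norm_mul, ex_norm, mul_one]
  · exact Filter.Eventually.of_forall fun α _ => hb
  · exact intervalIntegrable_const
  · refine Filter.Eventually.of_forall fun α _ => ?_
    apply Summable.hasSum
    apply Summable.of_norm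
    simpa only [norm_mul, ex_norm, mul_one] using hb

/-- the Fourier coefficients -/
theorem coeff (b : ℕ → ℂ) (hb : Summable (fun i => ‖b i‖)) (k : ℕ) :
    ∫ α in (0 : ℝ)..(2 * Real.pi), (∑' l : ℕ, b l * ex l α) * ex (-k) α = 2 * Real.pi * b k := by
  have h := int_sum b (fun l : ℕ => (l : ℤ) - k) hb
  have e1 : ∀ α : ℝ, (∑' l : ℕ, b l * ex l α) * ex (-k) α = ∑' l : ℕ, b l * ex ((l : ℤ) - k) α := by
    intro α
    rw [← tsum_mul_right]
    congr 1
    ext l
    rw [mul_assoc, ex_add, sub_eq_add_neg]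
  have h2 := hasSum_single (f := fun l : ℕ => b l * (if ((l : ℤ) - k) = 0 then (2 * Real.pi : ℂ)
    else 0)) k (fun l hl => by
      have : ((l : ℤ) - k) ≠ 0 := by
        intro h0
        apply hl
        omega
      simp [this])
  have h3 := h.unique h2
  simp only [e1]
  rw [h3]
  simp [mul_comm]

theorem pars : Stmt_PARS := by
  intro a ρ hρ hs
  set b : ℕ → ℂ := fun k => a k * (ρ : ℂ) ^ k with hb
  have hbn : ∀ k, ‖b k‖ = ‖a k‖ * ρ ^ k := by
    intro k
    rw [hb, norm_mul, norm_pow, Complex.norm_real, Real.norm_eq_abs, abs_of_nonneg hρ]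
  have hbs : Summable (fun k => ‖b k‖) := by simpa only [hbn] using hs
  have hser : ∀ α : ℝ, ∑' k : ℕ, a k * (ρ * cexp (α * I)) ^ k = ∑' k : ℕ, b k * ex k α := by
    intro α
    congr 1
    ext k
    rw [mul_pow, ← Complex.exp_nat_mul, hb, ex, mul_assoc]
    congr 3
    push_cast
    ring
  have hsum : ∀ α : ℝ, Summable (fun k : ℕ => ‖b k * ex k α‖) := by
    intro α
    simpa only [norm_mul, ex_norm, mul_one] using hbs
  -- the double series
  have hdd : Summable (fun q : ℕ × ℕ => ‖b q.1 * (starRingEnd ℂ) (b q.2)‖) := by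
    have := hbs.mul_of_nonneg hbs (fun _ => norm_nonneg _) (fun _ => norm_nonneg _)
    simpa only [norm_mul, RCLike.norm_conj] using this
  have h := int_sum (fun q : ℕ × ℕ => b q.1 * (starRingEnd ℂ) (b q.2))
    (fun q => (q.1 : ℤ) - q.2) hdd
  have hsq : ∀ α : ℝ, ((‖∑' k : ℕ, a k * (ρ * cexp (α * I)) ^ k‖ ^ 2 : ℝ) : ℂ) =
      ∑' q : ℕ × ℕ, b q.1 * (starRingEnd ℂ) (b q.2) * ex ((q.1 : ℤ) - q.2) α := by
    intro α
    rw [hser α]
    have h1 : ((‖∑' k : ℕ, b k * ex k α‖ ^ 2 : ℝ) : ℂ) =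
        (∑' k : ℕ, b k * ex k α) * ∑' k : ℕ, (starRingEnd ℂ) (b k * ex k α) := by
      rw [← Complex.conj_tsum]
      rw [Complex.mul_conj']
      push_cast
      rfl
    rw [h1]
    have hs2 : Summable (fun k : ℕ => ‖(starRingEnd ℂ) (b k * ex k α)‖) := by
      simpa only [RCLike.norm_conj] using hsum α
    rw [tsum_mul_tsum_of_summable_norm (hsum α) hs2]
    congr 1
    ext q
    rw [map_mul, ex_conj, sub_eq_add_neg, ← ex_add]
    ring
  have hint : ∫ α in (0 : ℝ)..(2 * Real.pi),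
      ∑' q : ℕ × ℕ, b q.1 * (starRingEnd ℂ) (b q.2) * ex ((q.1 : ℤ) - q.2) α =
      ((∫ α in (0 : ℝ)..(2 * Real.pi), ‖∑' k : ℕ, a k * (ρ * cexp (α * I)) ^ k‖ ^ 2 : ℝ) : ℂ) := by
    rw [← intervalIntegral.integral_ofReal]
    congr 1
    ext α
    exact (hsq α).symm
  rw [hint] at h
  -- the diagonal
  have hinj : Function.Injective (fun k : ℕ => (k, k)) := fun k l hkl => (Prod.mk.inj hkl).1
  have h2 := (hinj.hasSum_iff (f := fun q : ℕ × ℕ => b q.1 * (starRingEnd ℂ) (b q.2) *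
      (if (q.1 : ℤ) - q.2 = 0 then (2 * Real.pi : ℂ) else 0)) (fun q hq => ?_)).mpr h
  · have h3 : HasSum (fun k : ℕ => ((2 * Real.pi * (‖a k‖ ^ 2 * (ρ ^ 2) ^ k) : ℝ) : ℂ))
        ((∫ α in (0 : ℝ)..(2 * Real.pi), ‖∑' k : ℕ, a k * (ρ * cexp (α * I)) ^ k‖ ^ 2 : ℝ) : ℂ) := by
      have e : (fun k : ℕ => ((2 * Real.pi * (‖a k‖ ^ 2 * (ρ ^ 2) ^ k) : ℝ) : ℂ)) =
          (fun q : ℕ × ℕ => b q.1 * (starRingEnd ℂ) (b q.2) *
            (if (q.1 : ℤ) - q.2 = 0 then (2 * Real.pi : ℂ) else 0)) ∘ (fun k : ℕ => (k, k)) := by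
        ext k
        simp only [Function.comp, sub_self, if_true]
        rw [Complex.mul_conj', hbn]
        push_cast
        ring
      rw [e]
      exact h2
    have h4 := Complex.hasSum_ofReal.mp h3
    have h5 := h4.mul_left (2 * Real.pi)⁻¹
    have e : ∀ k : ℕ, (2 * Real.pi)⁻¹ * (2 * Real.pi * (‖a k‖ ^ 2 * (ρ ^ 2) ^ k)) =
        ‖a k‖ ^ 2 * (ρ ^ 2) ^ k := by
      intro k
      have := Real.pi_pos
      field_simp
    simpa only [e] using h5
  · have hne : (q.1 : ℤ) - q.2 ≠ 0 := by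
      intro h0
      apply hq
      refine ⟨q.1, ?_⟩
      have : q.1 = q.2 := by omega
      ext <;> simp [this]
    simp [hne]

end Pool.TK.PARS
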