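import Pool.Agent.Work.MP_29fd3c_tk.ROT
import Pool.Agent.Work.MP_29fd3c_tk.PARS

/-!
# Block EXPA (MP_29fd3c_ag): Gaussian averages of entire functions
-/

set_option autoImplicit false

namespace Pool.TK.EXPA

open Complex MeasureTheory Filter Topology Pool.TK.PARS
open scoped Nat ENNReal

variable {g : ℕ} {G : (Fin g → ℂ) → ℂ}

/-- Taylor coefficients along the line through `v` -/
noncomputable def tc (G : (Fin g → ℂ) → ℂ) (v : Fin g → ℂ) (k : ℕ) : ℂ :=
  ((k ! : ℕ) : ℂ)⁻¹ * iteratedDeriv k (fun ζ : ℂ => G (ζ • v)) 0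

theorem line_diff (hG : Differentiable ℂ G) (v : Fin g → ℂ) :
    Differentiable ℂ (fun ζ : ℂ => G (ζ • v)) :=
  hG.comp (differentiable_id.smul_const v)

theorem hasSum_line (hG : Differentiable ℂ G) (v : Fin g → ℂ) (ζ : ℂ) :
    HasSum (fun k => tc G v k * ζ ^ k) (G (ζ • v)) := by
  have h := Complex.hasSum_taylorSeries_of_entire (line_diff hG v) 0 ζ
  have e : ∀ n : ℕ, (n ! : ℂ)⁻¹ • (ζ - 0) ^ n • iteratedDeriv n (fun ζ : ℂ => G (ζ • v)) 0 =
      tc G v n * ζ ^ n := by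
    intro n
    rw [tc, sub_zero, smul_eq_mul, smul_eq_mul]
    ring
  simpa only [e] using h

theorem summ_line (hG : Differentiable ℂ G) (v : Fin g → ℂ) (ρ : ℝ) (hρ : 0 ≤ ρ) :
    Summable (fun k => ‖tc G v k‖ * ρ ^ k) := by
  have h := (hasSum_line hG v (ρ : ℂ)).summable.norm
  refine h.congr fun k => ?_
  rw [norm_mul, norm_pow, Complex.norm_real, Real.norm_eq_abs, abs_of_nonneg hρ]

theorem tc_int (hG : Differentiable ℂ G) (v : Fin g → ℂ) (k : ℕ) :
    tc G v k = (2 * Real.pi : ℂ)⁻¹ *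
      ∫ α in (0 : ℝ)..(2 * Real.pi), G (cexp (α * I) • v) * ex (-k) α := by
  have hs : Summable (fun k => ‖tc G v k‖) := by
    simpa using summ_line hG v 1 zero_le_one
  have h := coeff (tc G v) hs k
  have e : ∀ α : ℝ, G (cexp (α * I) • v) = ∑' l : ℕ, tc G v l * ex l α := by
    intro α
    rw [← (hasSum_line hG v (cexp (α * I))).tsum_eq]
    congr 1
    ext l
    rw [← Complex.exp_nat_mul, ex]
    congr 2
    push_cast
    ring
  simp only [e]
  rw [h]
  have : (Real.pi : ℂ) ≠ 0 := by exact_mod_cast Real.pi_ne_zero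
  field_simp

theorem tc_cont (hG : Differentiable ℂ G) (k : ℕ) : Continuous (fun v => tc G v k) := by
  have e : (fun v => tc G v k) = fun v => (2 * Real.pi : ℂ)⁻¹ *
      ∫ α in (0 : ℝ)..(2 * Real.pi), G (cexp (α * I) • v) * ex (-k) α := by
    ext v
    exact tc_int hG v k
  rw [e]
  apply Continuous.const_mul
  apply intervalIntegral.continuous_parametric_intervalIntegral_of_continuous'
  have h1 : Continuous (fun q : (Fin g → ℂ) × ℝ => G (cexp (q.2 * I) • q.1)) := by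
    apply hG.continuous.comp
    fun_prop
  exact h1.mul ((ex_cont _).comp continuous_snd)

theorem sq_cont : Continuous (sq : (Fin g → ℂ) → ℝ) := by
  unfold sq
  fun_prop

theorem sq_rot (c : ℂ) (hc : ‖c‖ = 1) (v : Fin g → ℂ) : sq (c • v) = sq v := by
  unfold sq
  refine Finset.sum_congr rfl fun i _ => ?_
  rw [Pi.smul_apply, smul_eq_mul, norm_mul, hc, one_mul]

/-- the Gaussian weight -/
noncomputable def W (v : Fin g → ℂ) : ℝ := Real.exp (-(Real.pi * sq v))

theorem W_cont : Continuous (W : (Fin g → ℂ) → ℝ) := by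
  unfold W
  exact Real.continuous_exp.comp ((sq_cont.const_mul _).neg)

theorem W_pos (v : Fin g → ℂ) : 0 < W v := Real.exp_pos _

theorem W_rot (c : ℂ) (hc : ‖c‖ = 1) (v : Fin g → ℂ) : W (c • v) = W v := by
  unfold W
  rw [sq_rot c hc]

/-- the coefficients -/
noncomputable def B (G : (Fin g → ℂ) → ℂ) (k : ℕ) : ℝ≥0∞ :=
  ∫⁻ v : Fin g → ℂ, ENNReal.ofReal (‖tc G v k‖ ^ 2 * W v)

/-- the integral over a circle -/
theorem circ (hP : Stmt_PARS) (hG : Differentiable ℂ G) (ρ : ℝ) (hρ : 0 ≤ ρ) (v : Fin g → ℂ) :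
    ∫⁻ α in Set.Ioc (0 : ℝ) (2 * Real.pi),
      ENNReal.ofReal (‖G ((ρ : ℂ) • cexp (α * I) • v)‖ ^ 2 * W v) =
    ENNReal.ofReal (2 * Real.pi) *
      ∑' k : ℕ, ENNReal.ofReal ((ρ ^ 2) ^ k) * ENNReal.ofReal (‖tc G v k‖ ^ 2 * W v) := by
  have h2 : (0 : ℝ) ≤ 2 * Real.pi := by have := Real.pi_pos; linarith
  have hpos : (0 : ℝ) < 2 * Real.pi := by have := Real.pi_pos; linarith
  have hcont : Continuous (fun α : ℝ => ‖G ((ρ : ℂ) • cexp (α * I) • v)‖ ^ 2 * W v) := by
    apply Continuous.mul _ continuous_const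
    apply Continuous.pow
    apply Continuous.norm
    apply hG.continuous.comp
    fun_prop
  rw [← ofReal_integral_eq_lintegral_ofReal
    ((intervalIntegrable_iff_integrableOn_Ioc_of_le h2).mp (hcont.intervalIntegrable _ _))
    (Filter.Eventually.of_forall fun α => mul_nonneg (sq_nonneg _) (W_pos v).le),
    ← intervalIntegral.integral_of_le h2]
  have h := hP (tc G v) ρ hρ (summ_line hG v ρ hρ)
  have e : ∀ α : ℝ, ∑' k : ℕ, tc G v k * (ρ * cexp (α * I)) ^ k =
      G ((ρ : ℂ) • cexp (α * I) • v) := by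
    intro α
    rw [(hasSum_line hG v _).tsum_eq, ← smul_eq_mul, smul_assoc]
  simp only [e] at h
  have h3 := (h.mul_right (W v)).tsum_eq
  have e2 : ∫ α in (0 : ℝ)..(2 * Real.pi), ‖G ((ρ : ℂ) • cexp (α * I) • v)‖ ^ 2 * W v =
      2 * Real.pi * ∑' k : ℕ, ‖tc G v k‖ ^ 2 * (ρ ^ 2) ^ k * W v := by
    rw [h3, intervalIntegral.integral_mul_const, ← mul_assoc, ← mul_assoc,
      mul_inv_cancel₀ hpos.ne', one_mul]
  rw [e2, ENNReal.ofReal_mul h2, ENNReal.ofReal_tsum_of_nonneg]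
  · congr 2
    ext k
    rw [← ENNReal.ofReal_mul (by positivity)]
    congr 1
    ring
  · intro k
    have := (W_pos v).le
    positivity
  · exact (h.mul_right (W v)).summable

theorem key (hP : Stmt_PARS) (hG : Differentiable ℂ G) (ρ : ℝ) (hρ : 0 ≤ ρ) :
    ∫⁻ v : Fin g → ℂ, ENNReal.ofReal (‖G ((ρ : ℂ) • v)‖ ^ 2 * W v) =
      ∑' k : ℕ, ENNReal.ofReal ((ρ ^ 2) ^ k) * B G k := by
  have hpos : (0 : ℝ) < 2 * Real.pi := by have := Real.pi_pos; linarith
  have hF : Continuous (fun v : Fin g → ℂ => ‖G ((ρ : ℂ) • v)‖ ^ 2 * W v) := by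
    apply Continuous.mul _ W_cont
    apply Continuous.pow
    apply Continuous.norm
    apply hG.continuous.comp
    fun_prop
  have hFm : Measurable (fun v : Fin g → ℂ => ENNReal.ofReal (‖G ((ρ : ℂ) • v)‖ ^ 2 * W v)) :=
    ENNReal.measurable_ofReal.comp hF.measurable
  -- rotation
  have hrot : ∀ α : ℝ, ∫⁻ v : Fin g → ℂ,
      ENNReal.ofReal (‖G ((ρ : ℂ) • cexp (α * I) • v)‖ ^ 2 * W v) =
      ∫⁻ v : Fin g → ℂ, ENNReal.ofReal (‖G ((ρ : ℂ) • v)‖ ^ 2 * W v) := by
    intro α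
    have hc : ‖cexp (α * I)‖ = 1 := Complex.norm_exp_ofReal_mul_I α
    rw [← (ROT.mp g (cexp (α * I)) hc).lintegral_comp hFm]
    refine lintegral_congr fun v => ?_
    rw [W_rot _ hc]
  have hjoint : Continuous (fun q : ℝ × (Fin g → ℂ) =>
      ‖G ((ρ : ℂ) • cexp (q.1 * I) • q.2)‖ ^ 2 * W q.2) := by
    apply Continuous.mul _ (W_cont.comp continuous_snd)
    apply Continuous.pow
    apply Continuous.norm
    apply hG.continuous.comp
    fun_prop
  have hswap := lintegral_lintegral_swap (μ := (volume : Measure ℝ).restrict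
    (Set.Ioc (0 : ℝ) (2 * Real.pi))) (ν := (volume : Measure (Fin g → ℂ)))
    (f := fun α v => ENNReal.ofReal (‖G ((ρ : ℂ) • cexp (α * I) • v)‖ ^ 2 * W v))
    (ENNReal.measurable_ofReal.comp hjoint.measurable).aemeasurable
  simp only [hrot] at hswap
  rw [lintegral_const, Measure.restrict_apply_univ, Real.volume_Ioc, sub_zero] at hswap
  simp only [circ hP hG ρ hρ] at hswap
  rw [lintegral_const_mul'' _ ?_, lintegral_tsum ?_] at hswap
  · rw [mul_comm] at hswap
    have h0 : ENNReal.ofReal (2 * Real.pi) ≠ 0 := by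
      rw [Ne, ENNReal.ofReal_eq_zero, not_le]
      exact hpos
    have h1 : ENNReal.ofReal (2 * Real.pi) ≠ ∞ := ENNReal.ofReal_ne_top
    rw [(ENNReal.mul_right_inj h0 h1).mp hswap]
    congr 1
    ext k
    unfold B
    rw [lintegral_const_mul'' _ ?_]
    exact (ENNReal.measurable_ofReal.comp ((((tc_cont hG k).norm.pow 2).mul
      W_cont).measurable)).aemeasurable
  · intro k
    apply AEMeasurable.const_mul
    exact (ENNReal.measurable_ofReal.comp ((((tc_cont hG k).norm.pow 2).mul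
      W_cont).measurable)).aemeasurable
  · apply AEMeasurable.tsum
    intro k
    apply AEMeasurable.const_mul
    exact (ENNReal.measurable_ofReal.comp ((((tc_cont hG k).norm.pow 2).mul
      W_cont).measurable)).aemeasurable

theorem expa (_hR : Stmt_ROT) (hP : Stmt_PARS) : Stmt_EXPA := by
  intro g G hG m hm hint
  refine ⟨fun k => (B G k).toReal, fun k => ENNReal.toReal_nonneg, ?_, ?_⟩
  · intro k hk
    have e : ∀ v : Fin g → ℂ, tc G v k = 0 := by
      intro v
      rw [tc, hm v k hk, mul_zero]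
    simp [B, e]
  · intro r h0 h1
    have hsr : (Real.sqrt r) ^ 2 = r := Real.sq_sqrt h0.le
    have hk := key hP hG (Real.sqrt r) (Real.sqrt_nonneg r)
    rw [hsr] at hk
    have hI := ofReal_integral_eq_lintegral_ofReal (hint r h0 h1)
      (Filter.Eventually.of_forall fun v => mul_nonneg (sq_nonneg _) (Real.exp_pos _).le)
    have hI' : ENNReal.ofReal (∫ v : Fin g → ℂ,
        ‖G ((Real.sqrt r : ℂ) • v)‖ ^ 2 * Real.exp (-(Real.pi * sq v))) =
        ∑' k : ℕ, ENNReal.ofReal (r ^ k) * B G k := by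
      rw [hI]
      exact hk
    have hfin : ∑' k : ℕ, ENNReal.ofReal (r ^ k) * B G k ≠ ∞ := by
      rw [← hI']
      exact ENNReal.ofReal_ne_top
    have hs := ENNReal.hasSum_toReal hfin
    have hI0 : 0 ≤ ∫ v : Fin g → ℂ,
        ‖G ((Real.sqrt r : ℂ) • v)‖ ^ 2 * Real.exp (-(Real.pi * sq v)) :=
      integral_nonneg fun v => mul_nonneg (sq_nonneg _) (Real.exp_pos _).le
    have e1 : ∑' k : ℕ, (ENNReal.ofReal (r ^ k) * B G k).toReal = ∫ v : Fin g → ℂ,
        ‖G ((Real.sqrt r : ℂ) • v)‖ ^ 2 * Real.exp (-(Real.pi * sq v)) := by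
      rw [← ENNReal.tsum_toReal_eq (fun k => ENNReal.ne_top_of_tsum_ne_top hfin k), ← hI',
        ENNReal.toReal_ofReal hI0]
    rw [e1] at hs
    have e2 : ∀ k : ℕ, (ENNReal.ofReal (r ^ k) * B G k).toReal = (B G k).toReal * r ^ k := by
      intro k
      rw [ENNReal.toReal_mul, ENNReal.toReal_ofReal (by positivity), mul_comm]
    simpa only [e2] using hs

end Pool.TK.EXPA
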