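import Pool.Agent.Work.MP_29fd3c_tk.Interface

/-! # Block GAU (MP_29fd3c_ag): Fourier transform of Gaussians on `ℂ ^ g`

Written by helper4. -/

set_option autoImplicit false

namespace Pool.TK.GAU

open Matrix Complex MeasureTheory Pool.TH

theorem gau : Stmt_GAU := by
  intro g b s l hb
  have hre : 0 < ((b : ℂ)).re := by simpa using hb
  set c : ℂ := 2 * Real.pi * I * s with hc
  have hint : ∀ i, Integrable (fun w : ℂ =>
      cexp (-(b : ℂ) * ‖w‖ ^ 2 + c * ((inner ℝ (l i) w : ℝ) : ℂ))) := fun i =>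
    GaussianFourier.integrable_cexp_neg_mul_sq_norm_add hre _ _
  have hval : ∀ i, ∫ w : ℂ, cexp (-(b : ℂ) * ‖w‖ ^ 2 + c * ((inner ℝ (l i) w : ℝ) : ℂ)) =
      (((Real.pi / b) * Real.exp (-(Real.pi ^ 2 * s ^ 2 * ‖l i‖ ^ 2 / b)) : ℝ) : ℂ) := by
    intro i
    have h1 := GaussianFourier.integral_cexp_neg_mul_sq_norm_add hre c (l i)
    rw [h1, Complex.finrank_real_complex]
    have h2 : ((2 : ℕ) : ℂ) / 2 = 1 := by norm_num
    rw [h2, Complex.cpow_one]
    push_cast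
    congr 1
    congr 1
    rw [hc]
    have hb0 : (b : ℂ) ≠ 0 := by exact_mod_cast hb.ne'
    field_simp
    ring_nf
    rw [Complex.I_sq]
    ring
  have hfac : ∀ v : Fin g → ℂ, cexp (2 * Real.pi * I * ((s * rip l v : ℝ) : ℂ)) *
        ((Real.exp (-(b * sq v)) : ℝ) : ℂ) =
      ∏ i, cexp (-(b : ℂ) * ‖v i‖ ^ 2 + c * ((inner ℝ (l i) (v i) : ℝ) : ℂ)) := by
    intro v
    rw [← Complex.exp_sum, Complex.ofReal_exp, ← Complex.exp_add]
    congr 1
    rw [Finset.sum_add_distrib, ← Finset.mul_sum, ← Finset.mul_sum, hc]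
    have h1 : rip l v = ∑ i, (inner ℝ (l i) (v i) : ℝ) := by
      unfold rip
      refine Finset.sum_congr rfl fun i _ => ?_
      rw [Complex.inner, mul_comm]
    rw [h1, sq]
    push_cast
    ring
  have hnorm : ∀ v : Fin g → ℂ, Real.exp (-(b * sq v)) =
      ∏ i, ‖cexp (-(b : ℂ) * ‖v i‖ ^ 2 + c * ((inner ℝ (l i) (v i) : ℝ) : ℂ))‖ := by
    intro v
    have h1 : ‖cexp (2 * Real.pi * I * ((s * rip l v : ℝ) : ℂ))‖ = 1 := by
      have : 2 * (Real.pi : ℂ) * I * ((s * rip l v : ℝ) : ℂ) =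
          ((2 * Real.pi * (s * rip l v) : ℝ) : ℂ) * I := by
        push_cast; ring
      rw [this, Complex.norm_exp_ofReal_mul_I]
    rw [← norm_prod, ← hfac, norm_mul, h1, one_mul, Complex.norm_real, Real.norm_eq_abs,
      abs_of_pos (Real.exp_pos _)]
  constructor
  · have h1 := Integrable.fintype_prod (f := fun (i : Fin g) (w : ℂ) =>
      ‖cexp (-(b : ℂ) * ‖w‖ ^ 2 + c * ((inner ℝ (l i) w : ℝ) : ℂ))‖)
      (μ := fun _ => volume) (fun i => (hint i).norm)
    have h2 : (fun v : Fin g → ℂ => Real.exp (-(b * sq v))) =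
      fun v => ∏ i, ‖cexp (-(b : ℂ) * ‖v i‖ ^ 2 + c * ((inner ℝ (l i) (v i) : ℝ) : ℂ))‖ :=
      funext hnorm
    rw [h2]
    exact h1
  · simp only [hfac]
    rw [integral_fintype_prod_volume_eq_prod (fun (i : Fin g) (w : ℂ) =>
      cexp (-(b : ℂ) * ‖w‖ ^ 2 + c * ((inner ℝ (l i) w : ℝ) : ℂ)))]
    simp only [hval]
    rw [← Complex.ofReal_prod]
    congr 1
    rw [Finset.prod_mul_distrib, ← Real.exp_sum, Finset.prod_const, Finset.card_univ,
      Fintype.card_fin]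
    congr 2
    rw [sq, Finset.sum_neg_distrib, Finset.mul_sum, Finset.sum_div]

end Pool.TK.GAU
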