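import Pool.Agent.Work.MP_29fd3c_tk.Interface

/-!
# MP_29fd3c_ag, block HOL: the entire function `GG`
-/

set_option autoImplicit false

namespace Pool.TK.HOL

open Matrix Complex MeasureTheory Pool.TH

variable {g : ℕ}

/-- the linear part of `pt` -/
noncomputable def ML (B : Matrix (Fin g) (Fin g) ℝ) : (Fin g → ℂ) →L[ℂ] (Fin g → ℂ) :=
  LinearMap.toContinuousLinearMap (Matrix.mulVecLin (B.transpose.map (fun x : ℝ => (x : ℂ))))

theorem ML_apply (B : Matrix (Fin g) (Fin g) ℝ) (v : Fin g → ℂ) :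
    ML B v = (B.transpose.map (fun x : ℝ => (x : ℂ))) *ᵥ v := rfl

theorem pt_eq (B : Matrix (Fin g) (Fin g) ℝ) (z v : Fin g → ℂ) : pt B z v = z + ML B v := rfl

theorem theta_analytic (hD : Stmt_DOMA) {τ : Matrix (Fin g) (Fin g) ℂ} (h1 : τ.transpose = τ)
    (h2 : (Y τ).PosDef) (z : Fin g → ℂ) : AnalyticAt ℂ (theta τ) z :=
  (hasFPS (hD g τ h1 h2 z)).analyticAt

/-- the exponent in `GG` -/
noncomputable def EX (τ : Matrix (Fin g) (Fin g) ℂ) (B : Matrix (Fin g) (Fin g) ℝ)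
    (z v : Fin g → ℂ) : ℂ :=
  (Real.pi / 2 : ℝ) * ∑ i, v i ^ 2 +
    2 * Real.pi * I * ∑ i, (((Y τ)⁻¹ *ᵥ vim z) i : ℂ) * (ML B v) i

theorem GG_eq (τ : Matrix (Fin g) (Fin g) ℂ) (B : Matrix (Fin g) (Fin g) ℝ) (z v : Fin g → ℂ) :
    GG τ B z v = theta τ (z + ML B v) * cexp (EX τ B z v) := rfl

theorem EX_diff (τ : Matrix (Fin g) (Fin g) ℂ) (B : Matrix (Fin g) (Fin g) ℝ)
    (z : Fin g → ℂ) : Differentiable ℂ (EX τ B z) := by
  unfold EX
  refine ((Differentiable.fun_sum fun i _ => ?_).const_mul _).add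
    ((Differentiable.fun_sum fun i _ => ?_).const_mul _)
  · exact (differentiable_apply i).pow 2
  · exact ((differentiable_apply i).comp (ML B).differentiable).const_mul _

/-- an analytic function times a function with vanishing derivatives -/
theorem iter_mul_zero {f e : ℂ → ℂ} {m : ℕ} (hf : ContDiffAt ℂ m f 0) (he : ContDiffAt ℂ m e 0)
    (h : ∀ k < m, iteratedDeriv k f 0 = 0) : ∀ k < m, iteratedDeriv k (f * e) 0 = 0 := by
  intro k hk
  rw [iteratedDeriv_mul (hf.of_le (by exact_mod_cast hk.le)) (he.of_le (by exact_mod_cast hk.le))]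
  refine Finset.sum_eq_zero fun i hi => ?_
  rw [Finset.mem_range] at hi
  rw [h i (by omega)]
  ring

/-- derivatives along a line -/
theorem iter_line {f : (Fin g → ℂ) → ℂ} (z w : Fin g → ℂ) {m : ℕ} (hf : ContDiff ℂ m f)
    (h : ∀ k < m, iteratedFDeriv ℂ k f z = 0) :
    ∀ k < m, iteratedDeriv k (fun ζ : ℂ => f (z + ζ • w)) 0 = 0 := by
  intro k hk
  set T : ℂ →L[ℂ] (Fin g → ℂ) := ContinuousLinearMap.smulRight (1 : ℂ →L[ℂ] ℂ) w with hT
  have hTa : ∀ ζ : ℂ, T ζ = ζ • w := by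
    intro ζ
    rw [hT, ContinuousLinearMap.smulRight_apply]
    rfl
  have e1 : (fun ζ : ℂ => f (z + ζ • w)) = (fun y => f (z + y)) ∘ T := by
    funext ζ
    rw [Function.comp_apply, hTa]
  have hf2 : ContDiff ℂ m (fun y => f (z + y)) := hf.comp (contDiff_const.add contDiff_id)
  rw [iteratedDeriv_eq_iteratedFDeriv, e1,
    T.iteratedFDeriv_comp_right hf2 0 (by exact_mod_cast hk.le), map_zero,
    iteratedFDeriv_comp_add_left, add_zero, h k hk]
  rfl

theorem sq_re_im (v : Fin g → ℂ) : sq v = vre v ⬝ᵥ vre v + vim v ⬝ᵥ vim v := by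
  unfold sq vre vim dotProduct
  rw [← Finset.sum_add_distrib]
  refine Finset.sum_congr rfl fun i _ => ?_
  rw [Complex.sq_norm, Complex.normSq_apply]

theorem ML_im (B : Matrix (Fin g) (Fin g) ℝ) (v : Fin g → ℂ) (i : Fin g) :
    ((ML B v) i).im = (B.transpose *ᵥ vim v) i := by
  change (∑ j, ((B.transpose i j : ℝ) : ℂ) * v j).im = ∑ j, B.transpose i j * (v j).im
  rw [Complex.im_sum]
  refine Finset.sum_congr rfl fun j _ => ?_
  rw [Complex.im_ofReal_mul]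

theorem EX_re (τ : Matrix (Fin g) (Fin g) ℂ) (B : Matrix (Fin g) (Fin g) ℝ) (z v : Fin g → ℂ) :
    (EX τ B z v).re = Real.pi / 2 * (vre v ⬝ᵥ vre v - vim v ⬝ᵥ vim v)
      - 2 * Real.pi * (((Y τ)⁻¹ *ᵥ vim z) ⬝ᵥ (B.transpose *ᵥ vim v)) := by
  unfold EX
  have e1 : (((Real.pi / 2 : ℝ) : ℂ) * ∑ i, v i ^ 2).re
      = Real.pi / 2 * (vre v ⬝ᵥ vre v - vim v ⬝ᵥ vim v) := by
    rw [Complex.re_ofReal_mul, Complex.re_sum]
    congr 1
    unfold vre vim dotProduct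
    rw [← Finset.sum_sub_distrib]
    refine Finset.sum_congr rfl fun i _ => ?_
    rw [pow_two, Complex.mul_re]
  have e2 : (2 * Real.pi * I * ∑ i, (((Y τ)⁻¹ *ᵥ vim z) i : ℂ) * (ML B v) i).re
      = - (2 * Real.pi * (((Y τ)⁻¹ *ᵥ vim z) ⬝ᵥ (B.transpose *ᵥ vim v))) := by
    have e3 : (∑ i, (((Y τ)⁻¹ *ᵥ vim z) i : ℂ) * (ML B v) i).im
        = ((Y τ)⁻¹ *ᵥ vim z) ⬝ᵥ (B.transpose *ᵥ vim v) := by
      rw [Complex.im_sum]
      unfold dotProduct
      refine Finset.sum_congr rfl fun i _ => ?_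
      rw [Complex.im_ofReal_mul, ML_im]
    have e4 : ∀ S : ℂ, (2 * Real.pi * I * S).re = -(2 * Real.pi * S.im) := by
      intro S
      have : (2 * Real.pi * I * S : ℂ) = ((2 * Real.pi : ℝ) : ℂ) * (I * S) := by
        push_cast; ring
      rw [this, Complex.re_ofReal_mul, Complex.I_mul_re]
      ring
    rw [e4, e3]
  rw [Complex.add_re, e1, e2]
  ring

theorem vim_pt (B : Matrix (Fin g) (Fin g) ℝ) (z v : Fin g → ℂ) :
    vim (pt B z v) = vim z + B.transpose *ᵥ vim v := by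
  funext i
  rw [pt_eq, Pi.add_apply, ← ML_im]
  rfl

theorem BYB {τ : Matrix (Fin g) (Fin g) ℂ} {B : Matrix (Fin g) (Fin g) ℝ} (hB : B.det ≠ 0)
    (hY : Y τ = B.transpose * B) : B * (Y τ)⁻¹ * B.transpose = 1 := by
  have hu : IsUnit B.det := isUnit_iff_ne_zero.2 hB
  have hu' : IsUnit B.transpose.det := by rw [Matrix.det_transpose]; exact hu
  rw [hY, Matrix.mul_inv_rev, ← Matrix.mul_assoc, Matrix.mul_nonsing_inv _ hu, Matrix.one_mul,
    Matrix.nonsing_inv_mul _ hu']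

theorem Yinv_symm {τ : Matrix (Fin g) (Fin g) ℂ} {B : Matrix (Fin g) (Fin g) ℝ}
    (hY : Y τ = B.transpose * B) : ((Y τ)⁻¹).transpose = (Y τ)⁻¹ := by
  rw [Matrix.transpose_nonsing_inv, hY, Matrix.transpose_mul, Matrix.transpose_transpose]

theorem qf_pt {τ : Matrix (Fin g) (Fin g) ℂ} {B : Matrix (Fin g) (Fin g) ℝ} (hB : B.det ≠ 0)
    (hY : Y τ = B.transpose * B) (a w : Fin g → ℝ) :
    qf (Y τ)⁻¹ (a + B.transpose *ᵥ w) = qf (Y τ)⁻¹ a
      + 2 * (((Y τ)⁻¹ *ᵥ a) ⬝ᵥ (B.transpose *ᵥ w)) + w ⬝ᵥ w := by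
  have h1 : ∀ u : Fin g → ℝ, a ⬝ᵥ ((Y τ)⁻¹ *ᵥ u) = ((Y τ)⁻¹ *ᵥ a) ⬝ᵥ u := by
    intro u
    rw [Matrix.dotProduct_mulVec, ← Matrix.mulVec_transpose, Yinv_symm hY]
  have h2 : (B.transpose *ᵥ w) ⬝ᵥ ((Y τ)⁻¹ *ᵥ (B.transpose *ᵥ w)) = w ⬝ᵥ w := by
    rw [Matrix.mulVec_transpose, ← Matrix.dotProduct_mulVec, ← Matrix.mulVec_transpose,
      Matrix.mulVec_mulVec, Matrix.mulVec_mulVec, BYB hB hY, Matrix.one_mulVec]
  unfold qf
  rw [Matrix.mulVec_add, dotProduct_add, add_dotProduct, add_dotProduct,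
    h1 (B.transpose *ᵥ w), h2,
    dotProduct_comm (B.transpose *ᵥ w) ((Y τ)⁻¹ *ᵥ a)]
  ring

theorem hol (hD : Stmt_DOMA) : Stmt_HOL := by
  intro g τ h1 h2 B hB hY z
  have hth : ContDiff ℂ ⊤ (theta τ) :=
    contDiff_iff_contDiffAt.2 fun z => (theta_analytic hD h1 h2 z).contDiffAt
  have hdiff : Differentiable ℂ (GG τ B z) := by
    have e : GG τ B z = fun v => theta τ (z + ML B v) * cexp (EX τ B z v) := by
      funext v; exact GG_eq τ B z v
    rw [e]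
    refine Differentiable.mul ?_ ?_
    · exact (hth.differentiable (by norm_num)).comp
        ((differentiable_const z).add (ML B).differentiable)
    · exact (EX_diff τ B z).cexp
  refine ⟨hdiff, ?_, ?_⟩
  · intro m hm v k hk
    have e : (fun ζ : ℂ => GG τ B z (ζ • v))
        = (fun ζ : ℂ => theta τ (z + ζ • ML B v)) * (fun ζ : ℂ => cexp (EX τ B z (ζ • v))) := by
      funext ζ
      rw [Pi.mul_apply, GG_eq, map_smul]
    rw [e]
    have hthm : ContDiff ℂ m (theta τ) := hth.of_le le_top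
    have hline : Differentiable ℂ (fun ζ : ℂ => ζ • v) := differentiable_id.smul_const v
    have hf : ContDiff ℂ m (fun ζ : ℂ => theta τ (z + ζ • ML B v)) :=
      hthm.comp (contDiff_const.add (contDiff_id.smul contDiff_const))
    have he : ContDiff ℂ m (fun ζ : ℂ => cexp (EX τ B z (ζ • v))) :=
      (((EX_diff τ B z).comp hline).cexp).contDiff
    exact iter_mul_zero hf.contDiffAt he.contDiffAt (iter_line z (ML B v) hthm hm) k hk
  · intro v
    rw [GG_eq, norm_mul, Complex.norm_exp, mul_pow, EX_re]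
    unfold nrm2
    rw [vim_pt, qf_pt hB hY, sq_re_im, ← pt_eq]
    set a := vre v ⬝ᵥ vre v
    set b := vim v ⬝ᵥ vim v
    set c := ((Y τ)⁻¹ *ᵥ vim z) ⬝ᵥ (B.transpose *ᵥ vim v)
    set q := qf (Y τ)⁻¹ (vim z)
    set S := Real.sqrt ((2 : ℝ) • Y τ).det
    set t := ‖theta τ (pt B z v)‖ ^ 2
    rw [← Real.exp_nat_mul]
    have e : Real.exp (-(2 * Real.pi * q))
        * Real.exp (((2 : ℕ) : ℝ) * (Real.pi / 2 * (a - b) - 2 * Real.pi * c))
        * Real.exp (-(Real.pi * (a + b)))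
        = Real.exp (-(2 * Real.pi * (q + 2 * c + b))) := by
      rw [← Real.exp_add, ← Real.exp_add]
      congr 1
      push_cast
      ring
    rw [← e]
    ring

end Pool.TK.HOL
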