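import Pool.Agent.Work.MP_29fd3c_tk.Interface
import Pool.Agent.Work.MP_29fd3c_tk.POIX

/-! Block HSUM: the form `hh` is positive and the lattice sums converge. -/

set_option autoImplicit false

namespace Pool.TK.HSUM

open Matrix Complex MeasureTheory Pool.TH Pool.TK

theorem summable_gauss {g : ℕ} {e : ℝ} (he : 0 < e) :
    Summable (fun z : Fin g → ℤ => Real.exp (-(e * (zc z ⬝ᵥ zc z)))) := by
  have h := POIX.summable_pi (n := g) (fun m : ℤ => Real.exp (-e * (m : ℝ) ^ 2 + 0 * |(m : ℝ)|))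
    (fun m => (Real.exp_pos _).le) (POIX.summable_one e 0 he)
  refine h.congr fun z => ?_
  rw [← Real.exp_sum]
  congr 1
  unfold dotProduct zc
  rw [Finset.mul_sum, ← Finset.sum_neg_distrib]
  apply Finset.sum_congr rfl
  intro i _
  ring

theorem mulVec_bound {g : ℕ} (M : Matrix (Fin g) (Fin g) ℝ) (v : Fin g → ℝ) :
    (M *ᵥ v) ⬝ᵥ (M *ᵥ v) ≤ (∑ i, ∑ j, M i j ^ 2) * (v ⬝ᵥ v) := by
  unfold dotProduct mulVec dotProduct
  rw [Finset.sum_mul]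
  apply Finset.sum_le_sum
  intro i _
  have h := Finset.sum_mul_sq_le_sq_mul_sq Finset.univ (fun j => M i j) v
  calc (∑ j, M i j * v j) * (∑ j, M i j * v j) = (∑ j, M i j * v j) ^ 2 := by ring
    _ ≤ _ := h
    _ = _ := by
      congr 1
      exact Finset.sum_congr rfl fun j _ => by ring

theorem dot_nonneg {g : ℕ} (v : Fin g → ℝ) : 0 ≤ v ⬝ᵥ v :=
  Finset.sum_nonneg fun i _ => mul_self_nonneg _

theorem dot_le {g : ℕ} (b u : Fin g → ℝ) :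
    b ⬝ᵥ b ≤ 2 * ((b - u) ⬝ᵥ (b - u)) + 2 * (u ⬝ᵥ u) := by
  unfold dotProduct
  rw [Finset.mul_sum, Finset.mul_sum, ← Finset.sum_add_distrib]
  apply Finset.sum_le_sum
  intro i _
  simp only [Pi.sub_apply]
  nlinarith [sq_nonneg (b i - 2 * u i)]

theorem lower {g : ℕ} (τ : Matrix (Fin g) (Fin g) ℂ) (hY : (Y τ).PosDef) :
    ∃ c : ℝ, 0 < c ∧ ∀ q : Ix g, c * (zc q.1 ⬝ᵥ zc q.1) + c * (zc q.2 ⬝ᵥ zc q.2) ≤ hh τ q := by
  obtain ⟨c1, hc1, h1⟩ := POIX.exists_lower (Y τ) hY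
  obtain ⟨c2, hc2, h2⟩ := POIX.exists_lower (Y τ)⁻¹ hY.inv
  set K : ℝ := ∑ i, ∑ j, X τ i j ^ 2 with hK
  have hK0 : 0 ≤ K := Finset.sum_nonneg fun i _ => Finset.sum_nonneg fun j _ => sq_nonneg _
  set d : ℝ := min c2 (c1 / (2 * (K + 1))) with hd
  have hd0 : 0 < d := lt_min hc2 (by positivity)
  have hd2 : d ≤ c2 := min_le_left _ _
  have hdK : d * K ≤ c1 / 2 := by
    have h3 : d ≤ c1 / (2 * (K + 1)) := min_le_right _ _
    rw [le_div_iff₀ (by positivity)] at h3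
    nlinarith
  refine ⟨min (c1 / 2) (d / 2), lt_min (by positivity) (by positivity), fun q => ?_⟩
  set a := zc q.1
  set b := zc q.2
  have e1 := h1 a
  have e2 := h2 (b - X τ *ᵥ a)
  have e3 := mulVec_bound (X τ) a
  have e4 := dot_le b (X τ *ᵥ a)
  have e5 := dot_nonneg a
  have e6 := dot_nonneg b
  have e7 := dot_nonneg (b - X τ *ᵥ a)
  have e8 : hh τ q = qf (Y τ) a + qf (Y τ)⁻¹ (b - X τ *ᵥ a) := rfl
  rw [e8]
  have f1 : min (c1 / 2) (d / 2) * (a ⬝ᵥ a) ≤ c1 / 2 * (a ⬝ᵥ a) :=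
    mul_le_mul_of_nonneg_right (min_le_left _ _) e5
  have f2 : min (c1 / 2) (d / 2) * (b ⬝ᵥ b) ≤ d / 2 * (b ⬝ᵥ b) :=
    mul_le_mul_of_nonneg_right (min_le_right _ _) e6
  have f3 : d * ((b - X τ *ᵥ a) ⬝ᵥ (b - X τ *ᵥ a)) ≤ c2 * ((b - X τ *ᵥ a) ⬝ᵥ (b - X τ *ᵥ a)) :=
    mul_le_mul_of_nonneg_right hd2 e7
  have f4 : d * K * (a ⬝ᵥ a) ≤ c1 / 2 * (a ⬝ᵥ a) := mul_le_mul_of_nonneg_right hdK e5
  have f5 : d * (b ⬝ᵥ b) ≤ d * (2 * ((b - X τ *ᵥ a) ⬝ᵥ (b - X τ *ᵥ a)) + 2 * (K * (a ⬝ᵥ a))) := by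
    apply mul_le_mul_of_nonneg_left _ hd0.le
    linarith
  linarith

theorem hsum : Stmt_HSUM := by
  intro g τ _ hY
  obtain ⟨c, hc, hlow⟩ := lower τ hY
  refine ⟨fun q => ?_, ?_, fun s hs => ?_⟩
  · refine le_trans ?_ (hlow q)
    have := dot_nonneg (zc q.1)
    have := dot_nonneg (zc q.2)
    positivity
  · have h0 : zc (0 : Fin g → ℤ) = 0 := by
      ext i
      simp [zc]
    unfold hh qf
    simp [h0]
  · have h1 := summable_gauss (g := g) (mul_pos hs hc)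
    have h2 := h1.mul_of_nonneg h1 (fun z => (Real.exp_pos _).le) (fun z => (Real.exp_pos _).le)
    refine Summable.of_nonneg_of_le (fun q => (Real.exp_pos _).le) (fun q => ?_) h2
    rw [← Real.exp_add]
    apply Real.exp_le_exp.mpr
    have := mul_le_mul_of_nonneg_left (hlow q) hs.le
    linarith

end Pool.TK.HSUM
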