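import Pool.Agent.Work.MP_29fd3c_tk.Defs

/-!
# Block statements (MP_29fd3c_ag, theta divisors without short periods)

Proofs: see `BLUEPRINT.md`.
-/

set_option autoImplicit false

namespace Pool.TK

open Matrix Complex MeasureTheory Pool.TH

/-! ### Part A: Poisson summation and the norm of the theta function -/

/-- POIX: Poisson summation for Gaussians with a shift and a frequency -/
def Stmt_POIX : Prop :=
  ∀ (n : ℕ) (P : Matrix (Fin n) (Fin n) ℝ), P.PosDef → ∀ (u η : Fin n → ℝ),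
    Summable (fun z : Fin n → ℤ => Real.exp (-Real.pi * qf P (u + zc z))) ∧
    HasSum (fun w : Fin n → ℤ =>
        (((Real.sqrt P.det)⁻¹ * Real.exp (-Real.pi * qf P⁻¹ (zc w - η)) : ℝ) : ℂ) *
          cexp (2 * Real.pi * I * ((zc w ⬝ᵥ u : ℝ) : ℂ)))
      (∑' z : Fin n → ℤ, ((Real.exp (-Real.pi * qf P (u + zc z)) : ℝ) : ℂ) *
          cexp (2 * Real.pi * I * ((η ⬝ᵥ (u + zc z) : ℝ) : ℂ)))

/-- DOMA: the theta series converges very well everywhere -/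
def Stmt_DOMA : Prop :=
  ∀ (g : ℕ) (τ : Matrix (Fin g) (Fin g) ℂ), τ.transpose = τ → (Y τ).PosDef →
    ∀ z : Fin g → ℂ, Dom τ z

/-- HSUM: the form `hh` is positive and the lattice sums converge -/
def Stmt_HSUM : Prop :=
  ∀ (g : ℕ) (τ : Matrix (Fin g) (Fin g) ℂ), τ.transpose = τ → (Y τ).PosDef →
    (∀ q : Ix g, 0 ≤ hh τ q) ∧ hh τ (0 : Ix g) = 0 ∧
    ∀ s : ℝ, 0 < s → Summable (fun q : Ix g => Real.exp (-(s * hh τ q)))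

/-- NORM: the Fourier expansion of the norm of the theta function (from POIX, DOMA, HSUM) -/
def Stmt_NORM : Prop :=
  ∀ (g : ℕ) (τ : Matrix (Fin g) (Fin g) ℂ), τ.transpose = τ → (Y τ).PosDef →
    ∀ z : Fin g → ℂ,
      HasSum (fun q : Ix g => sgn q * chr τ z q * ((Real.exp (-(Real.pi / 2 * hh τ q)) : ℝ) : ℂ))
        ((nrm2 τ z : ℝ) : ℂ)

/-! ### Part B: Gaussian integrals over `ℂ ^ g` and entire functions -/

/-- GAU: Fourier transform of Gaussians on `ℂ ^ g` -/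
def Stmt_GAU : Prop :=
  ∀ (g : ℕ) (b s : ℝ) (l : Fin g → ℂ), 0 < b →
    Integrable (fun v : Fin g → ℂ => Real.exp (-(b * sq v))) ∧
    ∫ v : Fin g → ℂ, cexp (2 * Real.pi * I * ((s * rip l v : ℝ) : ℂ)) *
        ((Real.exp (-(b * sq v)) : ℝ) : ℂ) =
      (((Real.pi / b) ^ g * Real.exp (-(Real.pi ^ 2 * s ^ 2 * sq l / b)) : ℝ) : ℂ)

/-- ROT: rotation invariance of the Lebesgue measure of `ℂ ^ g` -/
def Stmt_ROT : Prop :=
  ∀ (g : ℕ) (c : ℂ), ‖c‖ = 1 → ∀ F : (Fin g → ℂ) → ℝ,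
    ∫ v : Fin g → ℂ, F (c • v) = ∫ v : Fin g → ℂ, F v

/-- PARS: Parseval's identity for power series on a circle -/
def Stmt_PARS : Prop :=
  ∀ (a : ℕ → ℂ) (ρ : ℝ), 0 ≤ ρ → Summable (fun k => ‖a k‖ * ρ ^ k) →
    HasSum (fun k => ‖a k‖ ^ 2 * (ρ ^ 2) ^ k)
      ((2 * Real.pi)⁻¹ * ∫ α in (0 : ℝ)..(2 * Real.pi),
        ‖∑' k : ℕ, a k * (ρ * cexp (α * I)) ^ k‖ ^ 2)

/-- EXPA: the Gaussian averages of `|G (√r v)|²` are power series in `r` with nonnegative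
coefficients (from ROT, PARS) -/
def Stmt_EXPA : Prop :=
  ∀ (g : ℕ) (G : (Fin g → ℂ) → ℂ), Differentiable ℂ G → ∀ m : ℕ,
    (∀ v : Fin g → ℂ, ∀ k < m, iteratedDeriv k (fun ζ : ℂ => G (ζ • v)) 0 = 0) →
    (∀ r : ℝ, 0 < r → r < 1 → Integrable (fun v : Fin g → ℂ =>
      ‖G ((Real.sqrt r : ℂ) • v)‖ ^ 2 * Real.exp (-(Real.pi * sq v)))) →
    ∃ p : ℕ → ℝ, (∀ k, 0 ≤ p k) ∧ (∀ k < m, p k = 0) ∧ ∀ r : ℝ, 0 < r → r < 1 →
      HasSum (fun k => p k * r ^ k) (∫ v : Fin g → ℂ,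
        ‖G ((Real.sqrt r : ℂ) • v)‖ ^ 2 * Real.exp (-(Real.pi * sq v)))

/-- HOL: the function `GG` is entire, vanishes to the order of the theta function, and its square
is the norm of the theta function (from DOMA) -/
def Stmt_HOL : Prop :=
  ∀ (g : ℕ) (τ : Matrix (Fin g) (Fin g) ℂ), τ.transpose = τ → (Y τ).PosDef →
    ∀ (B : Matrix (Fin g) (Fin g) ℝ), B.det ≠ 0 → Y τ = B.transpose * B → ∀ z : Fin g → ℂ,
      Differentiable ℂ (GG τ B z) ∧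
      (∀ m : ℕ, (∀ k < m, iteratedFDeriv ℂ k (theta τ) z = 0) →
        ∀ v : Fin g → ℂ, ∀ k < m, iteratedDeriv k (fun ζ : ℂ => GG τ B z (ζ • v)) 0 = 0) ∧
      (∀ v : Fin g → ℂ, Real.sqrt ((2 : ℝ) • Y τ).det *
        Real.exp (-(2 * Real.pi * qf (Y τ)⁻¹ (vim z))) * ‖GG τ B z v‖ ^ 2 *
          Real.exp (-(Real.pi * sq v)) = nrm2 τ (pt B z v))

/-- ELL: the characters along `pt` -/
def Stmt_ELL : Prop :=
  ∀ (g : ℕ) (τ : Matrix (Fin g) (Fin g) ℂ), τ.transpose = τ → (Y τ).PosDef →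
    ∀ (B : Matrix (Fin g) (Fin g) ℝ), B.det ≠ 0 → Y τ = B.transpose * B →
      (∀ (z v : Fin g → ℂ) (q : Ix g), chr τ (pt B z v) q =
        chr τ z q * cexp (2 * Real.pi * I * ((rip (ell τ B q) v : ℝ) : ℂ))) ∧
      ∀ q : Ix g, sq (ell τ B q) = hh τ q

/-- SER: the generating function (from NORM, HSUM, GAU, EXPA, HOL, ELL) -/
def Stmt_SER : Prop :=
  ∀ (g : ℕ) (τ : Matrix (Fin g) (Fin g) ℂ), τ.transpose = τ → (Y τ).PosDef →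
    ∀ (z : Fin g → ℂ) (m : ℕ), (∀ k < m, iteratedFDeriv ℂ k (theta τ) z = 0) →
      ∃ (p : ℕ → ℝ) (ε : Ix g → ℂ), (∀ k, 0 ≤ p k) ∧ (∀ k < m, p k = 0) ∧
        (∀ q, ‖ε q‖ = 1) ∧ ε 0 = 1 ∧
        ∀ r : ℝ, 0 < r → r < 1 → HasSum (fun k => ((p k * r ^ k : ℝ) : ℂ))
          ((((1 - r) ^ g)⁻¹ : ℝ) * ∑' q : Ix g, ε q *
            ((Real.exp (-(Real.pi / 2 * ((1 + r) / (1 - r)) * hh τ q)) : ℝ) : ℂ))

/-! ### Part C: the moments -/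

/-- MOMP: a power series with nonnegative coefficients and its first three moments -/
def Stmt_MOMP : Prop :=
  ∀ (p : ℕ → ℝ) (P : ℝ → ℝ), (∀ k, 0 ≤ p k) →
    (∀ r : ℝ, 0 < r → r < 1 → HasSum (fun k => p k * r ^ k) (P r)) →
    ∀ j : ℕ, ∀ r : ℝ, 0 < r → r < 1 →
      Summable (fun k : ℕ => (k : ℝ) ^ j * p k * r ^ k) ∧
      HasDerivAt (fun x => ∑' k : ℕ, (k : ℝ) ^ j * p k * x ^ k)
        ((∑' k : ℕ, (k : ℝ) ^ (j + 1) * p k * r ^ k) / r) r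

/-- EDER: derivatives of exponential sums -/
def Stmt_EDER : Prop :=
  ∀ (ι : Type) (h : ι → ℝ) (ε : ι → ℂ), (∀ i, 0 ≤ h i) → (∀ i, ‖ε i‖ ≤ 1) →
    (∀ s : ℝ, 0 < s → Summable (fun i => Real.exp (-(s * h i)))) →
    ∀ j : ℕ, ∀ u : ℝ, -1 / 2 < u →
      Summable (fun i => (h i) ^ j * Real.exp (-(Real.pi / 2 * (1 + 2 * u) * h i))) ∧
      HasDerivAt (fun x : ℝ => ∑' i, ((-(Real.pi * h i)) ^ j : ℝ) * ε i *
          ((Real.exp (-(Real.pi / 2 * (1 + 2 * x) * h i)) : ℝ) : ℂ))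
        (∑' i, ((-(Real.pi * h i)) ^ (j + 1) : ℝ) * ε i *
          ((Real.exp (-(Real.pi / 2 * (1 + 2 * u) * h i)) : ℝ) : ℂ)) u

/-- NUM: the numerical part (from MOMP, EDER) -/
def Stmt_NUM : Prop :=
  ∀ (g : ℕ), 64 ≤ g → ∀ (ι : Type) [DecidableEq ι] (i₀ : ι) (h : ι → ℝ) (ε : ι → ℂ),
    (∀ i, 0 ≤ h i) → h i₀ = 0 → (∀ i, ‖ε i‖ ≤ 1) → ε i₀ = 1 →
    (∀ s : ℝ, 0 < s → Summable (fun i => Real.exp (-(s * h i)))) →
    ∀ t : ℝ, 2 ≤ t → t ≤ 11 / 5 →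
    ∑' i, (if i = i₀ then 0 else (1 + Real.pi * h i / Real.sqrt g) ^ 3 *
      Real.exp (-(Real.pi / 2 * t * h i))) < 1 →
    ∀ (p : ℕ → ℝ) (m : ℕ), (∀ k, 0 ≤ p k) → (∀ k < m, p k = 0) →
    (∀ r : ℝ, 0 < r → r < 1 → HasSum (fun k => ((p k * r ^ k : ℝ) : ℂ))
      ((((1 - r) ^ g)⁻¹ : ℝ) * ∑' i, ε i *
        ((Real.exp (-(Real.pi / 2 * ((1 + r) / (1 - r)) * h i)) : ℝ) : ℂ))) →
    (m : ℝ) ≤ g * (t - 1) / 2 - Real.sqrt g / 2 + 1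

end Pool.TK
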