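import Pool.Agent.Work.MP_29fd3c_tk.Defs

/-!
# Block statements, part 2: most abelian varieties have no short periods

Horocycle average (Buser and Sarnak): `τ = X + i y 1`, `X` a random real symmetric matrix with entries
in `[0, 1)`, `y → 0`.
-/

set_option autoImplicit false

namespace Pool.TK

open Matrix Complex MeasureTheory ENNReal

/-- the unit cube -/
def cube (g : ℕ) : Set (Fin g → Fin g → ℝ) := {x | ∀ i j, 0 ≤ x i j ∧ x i j < 1}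

/-- the symmetric matrix with upper triangular entries `x` -/
def symx {g : ℕ} (x : Fin g → Fin g → ℝ) : Matrix (Fin g) (Fin g) ℝ :=
  fun i j => x (min i j) (max i j)

/-- the period matrix `X + i y 1` -/
noncomputable def tau {g : ℕ} (x : Fin g → Fin g → ℝ) (y : ℝ) : Matrix (Fin g) (Fin g) ℂ :=
  fun i j => (x (min i j) (max i j) : ℂ) + if i = j then (y : ℂ) * I else 0

/-- the value of the Hermitian form of `tau x y` at `q.2 - τ q.1` -/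
noncomputable def hq {g : ℕ} (x : Fin g → Fin g → ℝ) (y : ℝ) (q : Ix g) : ℝ :=
  y * (zc q.1 ⬝ᵥ zc q.1) +
    y⁻¹ * ((zc q.2 - symx x *ᵥ zc q.1) ⬝ᵥ (zc q.2 - symx x *ᵥ zc q.1))

/-- the one dimensional theta series -/
noncomputable def th (s : ℝ) : ℝ := ∑' n : ℤ, Real.exp (-(Real.pi * s * (n : ℝ) ^ 2))

/-- TAU: `tau x y` is a period matrix, and its Hermitian form (60 lines) -/
def Stmt_TAU : Prop :=
  ∀ (g : ℕ) (x : Fin g → Fin g → ℝ) (y : ℝ), 0 < y →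
    (tau x y).transpose = tau x y ∧ (Y (tau x y)).PosDef ∧ ∀ q : Ix g, hh (tau x y) q = hq x y q

/-- EQD: if `a ≠ 0` then `X a` is uniformly distributed modulo `1` when the entries of `X` are
(`AddMonoidHom.measurePreserving` for the homomorphism `X ↦ X a` of tori, 150 lines) -/
def Stmt_EQD : Prop :=
  ∀ (g : ℕ) (a : Fin g → ℤ), a ≠ 0 → ∀ ψ : (Fin g → ℝ) → ℝ≥0∞, Measurable ψ →
    (∀ (v : Fin g → ℝ) (n : Fin g → ℤ), ψ (v + zc n) = ψ v) →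
    ∫⁻ x in cube g, ψ (symx x *ᵥ zc a) = ∫⁻ v in {v : Fin g → ℝ | ∀ i, 0 ≤ v i ∧ v i < 1}, ψ v

/-- UNF: unfolding (`IsAddFundamentalDomain`, or see `POI.hasSum_unfold` in
`Work/MP_b10815_co_flt/POI.lean`; 100 lines) -/
def Stmt_UNF : Prop :=
  ∀ (g : ℕ) (φ : (Fin g → ℝ) → ℝ≥0∞), Measurable φ →
    ∫⁻ v in {v : Fin g → ℝ | ∀ i, 0 ≤ v i ∧ v i < 1}, ∑' b : Fin g → ℤ, φ (zc b - v) =
      ∫⁻ v : Fin g → ℝ, φ v

/-- THG: Gaussian integrals and sums in dimension `g` (products; 80 lines) -/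
def Stmt_THG : Prop :=
  ∀ (g : ℕ) (s : ℝ), 0 < s →
    (∫⁻ v : Fin g → ℝ, ENNReal.ofReal (Real.exp (-(Real.pi * s * (v ⬝ᵥ v)))) =
      ENNReal.ofReal (((Real.sqrt s)⁻¹) ^ g)) ∧
    (∑' a : Fin g → ℤ, ENNReal.ofReal (Real.exp (-(Real.pi * s * (zc a ⬝ᵥ zc a)))) =
      ENNReal.ofReal (th s ^ g))

/-- THL: Jacobi's identity and the limit at infinity (`Real.tsum_exp_neg_mul_int_sq`; 80 lines) -/
def Stmt_THL : Prop :=
  (∀ s : ℝ, 0 < s → 1 ≤ th s) ∧ (∀ s : ℝ, 0 < s → th s = (Real.sqrt s)⁻¹ * th s⁻¹) ∧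
    Filter.Tendsto th Filter.atTop (nhds 1)

/-- AVG: the average of the sum over the nonzero periods (from EQD, UNF, THG; 150 lines) -/
def Stmt_AVG : Prop :=
  ∀ (g : ℕ) (t y : ℝ), 0 < t → 0 < y →
    ∫⁻ x in cube g, ∑' q : Ix g, (if q = 0 then 0 else
        ENNReal.ofReal (Real.exp (-(Real.pi / 2 * t * hq x y q)))) ≤
      ENNReal.ofReal ((Real.sqrt (t / (2 * y)))⁻¹ ^ g * th (t * y / 2) ^ g +
        (th (t / (2 * y)) ^ g - 1))

/-- LIM: the limit of the average (from THL; 60 lines) -/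
def Stmt_LIM : Prop :=
  ∀ (g : ℕ) (t : ℝ), 0 < t →
    Filter.Tendsto (fun y : ℝ => (Real.sqrt (t / (2 * y)))⁻¹ ^ g * th (t * y / 2) ^ g +
        (th (t / (2 * y)) ^ g - 1)) (nhdsWithin 0 (Set.Ioi 0)) (nhds ((2 / t) ^ g))

/-- PTW: pointwise comparison and the constant (100 lines) -/
def Stmt_PTW : Prop :=
  ∀ (g : ℕ), 64 ≤ g → ∀ t : ℝ, 2 ≤ t →
    ∃ C t' : ℝ, 0 < C ∧ 0 < t' ∧
      (∀ h : ℝ, 0 ≤ h → (1 + Real.pi * h / Real.sqrt g) ^ 3 * Real.exp (-(Real.pi / 2 * t * h)) ≤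
        C * Real.exp (-(Real.pi / 2 * t' * h))) ∧
      C * (2 / t') ^ g ≤ 2 * Real.sqrt g ^ 3 * (2 / t) ^ g

/-- VOL: the volume of the exceptional set (from AVG, LIM, PTW, TAU, HSUM; Markov's inequality;
150 lines) -/
def Stmt_VOL : Prop :=
  ∀ (g : ℕ), 64 ≤ g → ∀ t : ℝ, 2 ≤ t → ∀ η : ℝ, 0 < η → ∃ y₀ : ℝ, 0 < y₀ ∧
    ∀ y : ℝ, 0 < y → y < y₀ →
      volume {x : Fin g → Fin g → ℝ | x ∈ cube g ∧
        1 ≤ ∑' q : Ix g, (if q = 0 then 0 else (1 + Real.pi * hq x y q / Real.sqrt g) ^ 3 *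
          Real.exp (-(Real.pi / 2 * t * hq x y q)))} ≤
        ENNReal.ofReal (2 * Real.sqrt g ^ 3 * (2 / t) ^ g + η)

end Pool.TK
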