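import Pool.Agent.Work.MP_29fd3c_tk.Interface2

/-!
# LIM: the limit of the average
-/

set_option autoImplicit false

namespace Pool.TK.LIM

open Matrix Complex MeasureTheory ENNReal Filter

theorem key (hL : Stmt_THL) (t y : ℝ) (ht : 0 < t) (hy : 0 < y) :
    (Real.sqrt (t / (2 * y)))⁻¹ * th (t * y / 2) = 2 / t * th (2 / (t * y)) := by
  have hs : 0 < t * y / 2 := by positivity
  rw [hL.2.1 (t * y / 2) hs]
  have h1 : (t * y / 2)⁻¹ = 2 / (t * y) := by
    rw [inv_div]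
  rw [h1, ← mul_assoc]
  congr 1
  rw [← mul_inv, ← Real.sqrt_mul (by positivity)]
  have h2 : t / (2 * y) * (t * y / 2) = (t / 2) ^ 2 := by
    field_simp
  rw [h2, Real.sqrt_sq (by positivity), inv_div]

theorem lim (hL : Stmt_THL) : Stmt_LIM := by
  intro g t ht
  have h1 : Tendsto (fun y : ℝ => 2 / (t * y)) (nhdsWithin 0 (Set.Ioi 0)) atTop := by
    have h := (tendsto_inv_nhdsGT_zero (𝕜 := ℝ)).const_mul_atTop (show (0 : ℝ) < 2 / t by positivity)
    refine h.congr ?_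
    intro y
    field_simp
  have h2 : Tendsto (fun y : ℝ => t / (2 * y)) (nhdsWithin 0 (Set.Ioi 0)) atTop := by
    have h := (tendsto_inv_nhdsGT_zero (𝕜 := ℝ)).const_mul_atTop (show (0 : ℝ) < t / 2 by positivity)
    refine h.congr ?_
    intro y
    field_simp
  have h3 : Tendsto (fun y : ℝ => th (2 / (t * y))) (nhdsWithin 0 (Set.Ioi 0)) (nhds 1) :=
    hL.2.2.comp h1
  have h4 : Tendsto (fun y : ℝ => th (t / (2 * y))) (nhdsWithin 0 (Set.Ioi 0)) (nhds 1) :=
    hL.2.2.comp h2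
  have h5 : Tendsto (fun y : ℝ => (2 / t * th (2 / (t * y))) ^ g + (th (t / (2 * y)) ^ g - 1))
      (nhdsWithin 0 (Set.Ioi 0)) (nhds ((2 / t * 1) ^ g + (1 ^ g - 1))) :=
    ((h3.const_mul (2 / t)).pow g).add ((h4.pow g).sub_const 1)
  have h6 : ((2 / t * 1) ^ g + ((1 : ℝ) ^ g - 1)) = (2 / t) ^ g := by
    rw [mul_one, one_pow]
    ring
  rw [h6] at h5
  refine h5.congr' ?_
  filter_upwards [self_mem_nhdsWithin] with y hy
  rw [← key hL t y ht hy, mul_pow]

end Pool.TK.LIM
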