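import Pool.Agent.Work.MP_29fd3c_tk.Interface

/-!
# Block MOMP (MP_29fd3c_ag): moments of power series with nonnegative coefficients
-/

set_option autoImplicit false

namespace Pool.TK.MOMP

open Filter Topology

theorem summ (p : ℕ → ℝ) (P : ℝ → ℝ) (hp : ∀ k, 0 ≤ p k)
    (hP : ∀ r : ℝ, 0 < r → r < 1 → HasSum (fun k => p k * r ^ k) (P r)) (j : ℕ) (r : ℝ)
    (h0 : 0 < r) (h1 : r < 1) : Summable (fun k : ℕ => (k : ℝ) ^ j * p k * r ^ k) := by
  obtain ⟨r', hr, hr'⟩ := exists_between h1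
  have hr0 : 0 < r' := h0.trans hr
  have hq : |r / r'| < 1 := by
    rw [abs_of_pos (div_pos h0 hr0), div_lt_one hr0]
    exact hr
  have ht := tendsto_pow_const_mul_const_pow_of_abs_lt_one j hq
  obtain ⟨C, hC⟩ := ht.bddAbove_range
  have hb : ∀ k : ℕ, (k : ℝ) ^ j * (r / r') ^ k ≤ C := fun k => hC ⟨k, rfl⟩
  refine Summable.of_nonneg_of_le (fun k => ?_) (fun k => ?_) ((hP r' hr0 hr').summable.mul_left C)
  · exact mul_nonneg (mul_nonneg (by positivity) (hp k)) (by positivity)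
  · have e : (k : ℝ) ^ j * p k * r ^ k = ((k : ℝ) ^ j * (r / r') ^ k) * (p k * r' ^ k) := by
      rw [div_pow]
      field_simp
    rw [e]
    exact mul_le_mul_of_nonneg_right (hb k) (mul_nonneg (hp k) (by positivity))

theorem momp : Stmt_MOMP := by
  intro p P hp hP j r h0 h1
  refine ⟨summ p P hp hP j r h0 h1, ?_⟩
  obtain ⟨r', hr, hr'⟩ := exists_between h1
  have hr0 : 0 < r' := h0.trans hr
  have hu : Summable (fun k : ℕ => (k : ℝ) ^ (j + 1) * p k * r' ^ k / r') :=
    (summ p P hp hP (j + 1) r' hr0 hr').div_const r'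
  have hderiv : ∀ (k : ℕ) (y : ℝ), y ∈ Set.Ioo 0 r' →
      HasDerivAt (fun x : ℝ => (k : ℝ) ^ j * p k * x ^ k)
        ((k : ℝ) ^ (j + 1) * p k * y ^ k / y) y := by
    intro k y hy
    have h2 := (hasDerivAt_pow k y).const_mul ((k : ℝ) ^ j * p k)
    have hy0 : y ≠ 0 := hy.1.ne'
    have e : (k : ℝ) ^ (j + 1) * p k * y ^ k / y = (k : ℝ) ^ j * p k * (k * y ^ (k - 1)) := by
      rcases Nat.eq_zero_or_pos k with rfl | hk
      · simp
      · have e2 : y ^ k = y ^ (k - 1) * y := by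
          rw [← pow_succ]
          congr 1
          omega
        rw [e2, pow_succ]
        field_simp
    rw [e]
    exact h2
  have h3 := hasDerivAt_tsum_of_isPreconnected (y₀ := r) hu isOpen_Ioo isPreconnected_Ioo hderiv
    (fun k y hy => ?_) (⟨h0, hr⟩ : r ∈ Set.Ioo 0 r') (summ p P hp hP j r h0 h1)
    (⟨h0, hr⟩ : r ∈ Set.Ioo 0 r')
  · rw [tsum_div_const] at h3
    exact h3
  · have hk0 : 0 ≤ (k : ℝ) ^ (j + 1) * p k := mul_nonneg (by positivity) (hp k)
    have hy1 := hy.1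
    have hy2 := hy.2
    rw [Real.norm_eq_abs, abs_of_nonneg (div_nonneg (mul_nonneg hk0 (by positivity)) hy1.le)]
    rcases Nat.eq_zero_or_pos k with rfl | hk
    · simp
    · have e : ∀ z : ℝ, z ≠ 0 → (k : ℝ) ^ (j + 1) * p k * z ^ k / z =
          (k : ℝ) ^ (j + 1) * p k * z ^ (k - 1) := by
        intro z hz
        have e2 : z ^ k = z ^ (k - 1) * z := by
          rw [← pow_succ]
          congr 1
          omega
        rw [e2]
        field_simp
      rw [e y hy1.ne', e r' hr0.ne']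
      exact mul_le_mul_of_nonneg_left (pow_le_pow_left₀ hy1.le hy2.le _) hk0

end Pool.TK.MOMP
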