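import Pool.Agent.Work.MP_29fd3c_tk.Interface

/-!
# The Fourier expansion of the norm of the theta function (MP_29fd3c_ag)
-/

set_option autoImplicit false

namespace Pool.TK.NORM

open Matrix Complex MeasureTheory Pool.TH Pool.TK

variable {g : ℕ}

/-- the bilinear form of a matrix -/
def bf (P : Matrix (Fin g) (Fin g) ℝ) (v w : Fin g → ℝ) : ℝ := v ⬝ᵥ (P *ᵥ w)

lemma qf_eq (P : Matrix (Fin g) (Fin g) ℝ) (v : Fin g → ℝ) : qf P v = bf P v v := rfl

lemma bf_add_left (P : Matrix (Fin g) (Fin g) ℝ) (u v w : Fin g → ℝ) :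
    bf P (u + v) w = bf P u w + bf P v w := by
  unfold bf
  rw [add_dotProduct]

lemma bf_add_right (P : Matrix (Fin g) (Fin g) ℝ) (u v w : Fin g → ℝ) :
    bf P u (v + w) = bf P u v + bf P u w := by
  unfold bf
  rw [mulVec_add, dotProduct_add]

lemma bf_smul_left (P : Matrix (Fin g) (Fin g) ℝ) (c : ℝ) (u v : Fin g → ℝ) :
    bf P (c • u) v = c * bf P u v := by
  unfold bf
  rw [smul_dotProduct, smul_eq_mul]

lemma bf_smul_right (P : Matrix (Fin g) (Fin g) ℝ) (c : ℝ) (u v : Fin g → ℝ) :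
    bf P u (c • v) = c * bf P u v := by
  unfold bf
  rw [mulVec_smul, dotProduct_smul, smul_eq_mul]

lemma bf_comm {P : Matrix (Fin g) (Fin g) ℝ} (hP : P.transpose = P) (u v : Fin g → ℝ) :
    bf P u v = bf P v u := by
  unfold bf
  rw [dotProduct_mulVec, ← mulVec_transpose, hP, dotProduct_comm]

lemma form_eq (τ : Matrix (Fin g) (Fin g) ℂ) (n : Fin g → ℤ) :
    dotProduct (fun i => (n i : ℂ)) (τ.mulVec (fun i => (n i : ℂ)))
      = ((qf (X τ) (zc n) : ℝ) : ℂ) + ((qf (Y τ) (zc n) : ℝ) : ℂ) * I := by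
  simp only [dotProduct, mulVec, qf, X, Y, zc, Matrix.map_apply]
  push_cast
  rw [Finset.sum_mul, ← Finset.sum_add_distrib]
  refine Finset.sum_congr rfl fun i _ => ?_
  rw [Finset.mul_sum, Finset.mul_sum, Finset.mul_sum, Finset.sum_mul, ← Finset.sum_add_distrib]
  refine Finset.sum_congr rfl fun j _ => ?_
  conv_lhs => rw [← Complex.re_add_im (τ i j)]
  ring

lemma lin_eq (z : Fin g → ℂ) (n : Fin g → ℤ) :
    dotProduct (fun i => (n i : ℂ)) z
      = ((zc n ⬝ᵥ vre z : ℝ) : ℂ) + ((zc n ⬝ᵥ vim z : ℝ) : ℂ) * I := by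
  simp only [dotProduct, zc, vre, vim]
  push_cast
  rw [Finset.sum_mul, ← Finset.sum_add_distrib]
  refine Finset.sum_congr rfl fun i _ => ?_
  conv_lhs => rw [← Complex.re_add_im (z i)]
  ring

lemma term_eq (τ : Matrix (Fin g) (Fin g) ℂ) (z : Fin g → ℂ) (n : Fin g → ℤ) :
    term τ z n = cexp (((-(Real.pi * qf (Y τ) (zc n)) - 2 * Real.pi * (zc n ⬝ᵥ vim z) : ℝ) : ℂ) +
      ((Real.pi * qf (X τ) (zc n) + 2 * Real.pi * (zc n ⬝ᵥ vre z) : ℝ) : ℂ) * I) := by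
  unfold term
  rw [form_eq, lin_eq]
  congr 1
  push_cast
  linear_combination (-(Real.pi * ((qf (Y τ) (zc n) : ℝ) : ℂ))
    - 2 * Real.pi * ((zc n ⬝ᵥ vim z : ℝ) : ℂ)) * (-1) * (Complex.I_sq)

lemma star_term_eq (τ : Matrix (Fin g) (Fin g) ℂ) (z : Fin g → ℂ) (n : Fin g → ℤ) :
    (starRingEnd ℂ) (term τ z n) =
      cexp (((-(Real.pi * qf (Y τ) (zc n)) - 2 * Real.pi * (zc n ⬝ᵥ vim z) : ℝ) : ℂ) +
      (((-(Real.pi * qf (X τ) (zc n) + 2 * Real.pi * (zc n ⬝ᵥ vre z))) : ℝ) : ℂ) * I) := by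
  rw [term_eq, ← Complex.exp_conj]
  congr 1
  simp only [map_add, map_mul, Complex.conj_ofReal, Complex.conj_I]
  push_cast
  ring

lemma zc_add (a n : Fin g → ℤ) : zc (n + a) = zc n + zc a := by
  funext i
  simp [zc]

lemma hasSum_congr_fun {ι : Type} {f f' : ι → ℂ} {a : ℂ} (h : HasSum f a)
    (hf : ∀ i, f' i = f i) : HasSum f' a := by
  have : f' = f := funext hf
  rw [this]
  exact h

/-- the summands, for fixed `a` -/
lemma key (τ : Matrix (Fin g) (Fin g) ℂ) (hτ : τ.transpose = τ) (z : Fin g → ℂ)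
    (y : Fin g → ℝ) (hy : Y τ *ᵥ y = vim z) (a n : Fin g → ℤ) :
    ((Real.exp (-(2 * Real.pi * bf (Y τ) y y)) : ℝ) : ℂ) *
        (term τ z (n + a) * (starRingEnd ℂ) (term τ z n)) =
      cexp (((-(Real.pi / 2 * qf (Y τ) (zc a)) : ℝ) : ℂ) +
          ((2 * Real.pi * (zc a ⬝ᵥ vre z - (X τ *ᵥ zc a) ⬝ᵥ y) : ℝ) : ℂ) * I) *
        (((Real.exp (-Real.pi * (2 * qf (Y τ) (y + (1 / 2 : ℝ) • zc a + zc n))) : ℝ) : ℂ) *
          cexp (2 * Real.pi * I *
            (((X τ *ᵥ zc a) ⬝ᵥ (y + (1 / 2 : ℝ) • zc a + zc n) : ℝ) : ℂ))) := by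
  have hX : (X τ).transpose = X τ := by
    unfold X
    rw [← Matrix.transpose_map, hτ]
  have hY : (Y τ).transpose = Y τ := by
    unfold Y
    rw [← Matrix.transpose_map, hτ]
  rw [term_eq, star_term_eq, Complex.ofReal_exp, Complex.ofReal_exp, ← Complex.exp_add,
    ← Complex.exp_add, ← Complex.exp_add, ← Complex.exp_add]
  congr 1
  rw [← hy]
  have e1 : ∀ v : Fin g → ℝ, v ⬝ᵥ (Y τ *ᵥ y) = bf (Y τ) v y := fun v => rfl
  have e2 : ∀ v : Fin g → ℝ, (X τ *ᵥ zc a) ⬝ᵥ v = bf (X τ) v (zc a) := fun v => dotProduct_comm _ _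
  rw [e1, e1, e2, e2, zc_add]
  simp only [qf_eq, bf_add_left, bf_add_right, bf_smul_left, bf_smul_right, add_dotProduct]
  rw [bf_comm hX (zc n) (zc a), bf_comm hY (zc n) (zc a), bf_comm hY y (zc a),
    bf_comm hY y (zc n)]
  push_cast
  ring

theorem norm (hPOI : Stmt_POIX) (hDOMA : Stmt_DOMA) (hHSUM : Stmt_HSUM) : Stmt_NORM := by
  intro g τ hτ hpos z
  have hX : (X τ).transpose = X τ := by
    unfold X
    rw [← Matrix.transpose_map, hτ]
  have hY : (Y τ).transpose = Y τ := by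
    unfold Y
    rw [← Matrix.transpose_map, hτ]
  obtain ⟨y, hydef⟩ : ∃ y : Fin g → ℝ, y = (Y τ)⁻¹ *ᵥ vim z := ⟨_, rfl⟩
  have hdet : IsUnit (Y τ).det := hpos.det_pos.ne'.isUnit
  have hy : Y τ *ᵥ y = vim z := by
    rw [hydef, mulVec_mulVec, Matrix.mul_nonsing_inv _ hdet, one_mulVec]
  -- the matrix `2 Y`
  have hP : ((2 : ℝ) • Y τ).PosDef := hpos.smul (by norm_num)
  have hPdet : 0 < ((2 : ℝ) • Y τ).det := hP.det_pos
  have hPinv : ((2 : ℝ) • Y τ)⁻¹ = (1 / 2 : ℝ) • (Y τ)⁻¹ := by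
    refine Matrix.inv_eq_right_inv ?_
    rw [Matrix.smul_mul, Matrix.mul_smul, Matrix.mul_nonsing_inv _ hdet, smul_smul]
    norm_num
  have hs : (((Real.sqrt ((2 : ℝ) • Y τ).det : ℝ) : ℂ)) ≠ 0 := by
    rw [Complex.ofReal_ne_zero]
    exact (Real.sqrt_pos.2 hPdet).ne'
  obtain ⟨s, hsdef⟩ : ∃ s : ℂ, s = ((Real.sqrt ((2 : ℝ) • Y τ).det : ℝ) : ℂ) := ⟨_, rfl⟩
  obtain ⟨c0, hc0⟩ : ∃ c0 : ℂ, c0 = ((Real.exp (-(2 * Real.pi * bf (Y τ) y y)) : ℝ) : ℂ) :=
    ⟨_, rfl⟩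
  -- the double series of the theta function
  have hsum : Summable fun n : Fin g → ℤ => ‖term τ z n‖ := by
    have := hDOMA g τ hτ hpos z 0
    simpa using this
  have hsum' : Summable fun n : Fin g → ℤ => ‖(starRingEnd ℂ) (term τ z n)‖ := by
    simpa using hsum
  have hdouble : HasSum (fun p : Ix g => term τ z p.1 * (starRingEnd ℂ) (term τ z p.2))
      (theta τ z * (starRingEnd ℂ) (theta τ z)) := by
    have h1 : theta τ z * (starRingEnd ℂ) (theta τ z)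
        = ∑' p : Ix g, term τ z p.1 * (starRingEnd ℂ) (term τ z p.2) := by
      rw [← tsum_mul_tsum_of_summable_norm hsum hsum']
      unfold theta
      rw [Complex.conj_tsum]
    rw [h1]
    exact (summable_mul_of_summable_norm hsum hsum').hasSum
  let e : Ix g ≃ Ix g :=
    { toFun := fun p => (p.2 + p.1, p.2)
      invFun := fun p => (p.1 - p.2, p.2)
      left_inv := fun p => by simp
      right_inv := fun p => by simp }
  have hdouble2 : HasSum (fun p : Ix g => term τ z (p.2 + p.1) * (starRingEnd ℂ) (term τ z p.2))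
      (theta τ z * (starRingEnd ℂ) (theta τ z)) :=
    (e.hasSum_iff).2 hdouble
  obtain ⟨T, hT⟩ : ∃ T : (Fin g → ℤ) → ℂ, T = fun a =>
    ∑' n : Fin g → ℤ, term τ z (n + a) * (starRingEnd ℂ) (term τ z n) := ⟨_, rfl⟩
  have hTfib : ∀ a, HasSum (fun n : Fin g → ℤ => term τ z (n + a) * (starRingEnd ℂ) (term τ z n))
      (T a) := by
    intro a
    rw [hT]
    exact (hdouble2.summable.prod_factor a).hasSum
  have hTsum : HasSum T (theta τ z * (starRingEnd ℂ) (theta τ z)) :=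
    hdouble2.prod_fiberwise hTfib
  -- the other series
  have hFsum : Summable (fun q : Ix g =>
      sgn q * chr τ z q * ((Real.exp (-(Real.pi / 2 * hh τ q)) : ℝ) : ℂ)) := by
    refine Summable.of_norm ?_
    refine ((hHSUM g τ hτ hpos).2.2 (Real.pi / 2) (by positivity)).congr ?_
    intro q
    have n1 : ‖sgn q‖ = 1 := by
      unfold sgn
      rw [show (Real.pi * I * ((zc q.1 ⬝ᵥ zc q.2 : ℝ) : ℂ))
        = ((Real.pi * (zc q.1 ⬝ᵥ zc q.2) : ℝ) : ℂ) * I by push_cast; ring]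
      exact Complex.norm_exp_ofReal_mul_I _
    have n2 : ‖chr τ z q‖ = 1 := by
      unfold chr
      rw [show (2 * Real.pi * I *
        ((zc q.1 ⬝ᵥ vre z + (zc q.2 - X τ *ᵥ zc q.1) ⬝ᵥ ((Y τ)⁻¹ *ᵥ vim z) : ℝ) : ℂ))
        = ((2 * Real.pi * (zc q.1 ⬝ᵥ vre z + (zc q.2 - X τ *ᵥ zc q.1) ⬝ᵥ ((Y τ)⁻¹ *ᵥ vim z)) : ℝ) : ℂ)
          * I by push_cast; ring]
      exact Complex.norm_exp_ofReal_mul_I _
    rw [norm_mul, norm_mul, n1, n2, one_mul, one_mul, Complex.norm_real, Real.norm_eq_abs,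
      abs_of_pos (Real.exp_pos _)]
  have hfib : ∀ a : Fin g → ℤ, HasSum (fun b : Fin g → ℤ =>
      sgn (a, b) * chr τ z (a, b) * ((Real.exp (-(Real.pi / 2 * hh τ (a, b))) : ℝ) : ℂ))
      (s * c0 * T a) := by
    intro a
    obtain ⟨κ, hκ⟩ : ∃ κ : ℂ, κ = cexp (((-(Real.pi / 2 * qf (Y τ) (zc a)) : ℝ) : ℂ) +
          ((2 * Real.pi * (zc a ⬝ᵥ vre z - (X τ *ᵥ zc a) ⬝ᵥ y) : ℝ) : ℂ) * I) := ⟨_, rfl⟩
    have h1 := (hPOI g ((2 : ℝ) • Y τ) hP (y + (1 / 2 : ℝ) • zc a) (X τ *ᵥ zc a)).2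
    have h2 := h1.mul_left (s * κ)
    have h3 : s * c0 * T a = s * κ * ∑' n : Fin g → ℤ,
        ((Real.exp (-Real.pi * qf ((2 : ℝ) • Y τ) (y + (1 / 2 : ℝ) • zc a + zc n)) : ℝ) : ℂ) *
          cexp (2 * Real.pi * I *
            (((X τ *ᵥ zc a) ⬝ᵥ (y + (1 / 2 : ℝ) • zc a + zc n) : ℝ) : ℂ)) := by
      rw [mul_assoc, mul_assoc, hT]
      simp only
      rw [← tsum_mul_left (a := c0), ← tsum_mul_left (a := κ)]
      congr 1
      refine tsum_congr fun n => ?_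
      rw [hc0, key τ hτ z y hy a n, hκ]
      have e3 : qf ((2 : ℝ) • Y τ) (y + (1 / 2 : ℝ) • zc a + zc n)
          = 2 * qf (Y τ) (y + (1 / 2 : ℝ) • zc a + zc n) := by
        unfold qf
        rw [smul_mulVec, dotProduct_smul, smul_eq_mul]
      rw [e3]
    rw [h3]
    refine hasSum_congr_fun h2 fun b => ?_
    have e4 : qf ((2 : ℝ) • Y τ)⁻¹ (zc b - X τ *ᵥ zc a)
        = 1 / 2 * qf (Y τ)⁻¹ (zc b - X τ *ᵥ zc a) := by
      rw [hPinv]
      unfold qf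
      rw [smul_mulVec, dotProduct_smul, smul_eq_mul]
    rw [e4]
    unfold sgn chr hh
    rw [← hydef]
    simp only
    rw [Complex.ofReal_mul, Complex.ofReal_inv, ← hsdef, hκ]
    have hs' : s ≠ 0 := by
      rw [hsdef]
      exact hs
    rw [show ∀ A B C : ℂ, s * A * (s⁻¹ * B * C) = (s * s⁻¹) * (A * (B * C)) from
      fun A B C => by ring]
    rw [mul_inv_cancel₀ hs', one_mul, Complex.ofReal_exp, Complex.ofReal_exp, ← Complex.exp_add,
      ← Complex.exp_add, ← Complex.exp_add, ← Complex.exp_add]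
    congr 1
    simp only [sub_dotProduct, dotProduct_add, dotProduct_smul, smul_eq_mul]
    rw [dotProduct_comm (zc b) (zc a)]
    push_cast
    ring
  have hfin := hFsum.hasSum.prod_fiberwise hfib
  have hfin2 : HasSum (fun a => s * c0 * T a)
      (s * c0 * (theta τ z * (starRingEnd ℂ) (theta τ z))) := hTsum.mul_left (s * c0)
  have hval : ((nrm2 τ z : ℝ) : ℂ) = s * c0 * (theta τ z * (starRingEnd ℂ) (theta τ z)) := by
    unfold nrm2
    have e5 : qf (Y τ)⁻¹ (vim z) = bf (Y τ) y y := by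
      unfold qf bf
      rw [← hydef, hy, dotProduct_comm]
    rw [e5, Complex.mul_conj', hsdef, hc0]
    push_cast
    ring
  rw [hval, ← hfin.unique hfin2]
  exact hFsum.hasSum

end Pool.TK.NORM
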