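import Pool.Agent.Work.MP_29fd3c_tk.Interface

/-!
# Block ROT (MP_29fd3c_ag): rotation invariance of the Lebesgue measure
-/

set_option autoImplicit false

namespace Pool.TK.ROT

open Matrix Complex MeasureTheory Pool.TH

theorem mp (g : ℕ) (c : ℂ) (hc : ‖c‖ = 1) :
    MeasurePreserving (fun v : Fin g → ℂ => c • v) := by
  have h1 : MeasurePreserving (fun z : ℂ => c * z) := by
    have h2 := (rotation (⟨c, by rw [Submonoid.unitSphere, mem_sphere_zero_iff_norm.symm] at *; simpa using hc⟩ : Circle)).measurePreserving
    exact h2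
  have h3 := volume_preserving_pi (fun _ : Fin g => h1)
  exact h3

theorem rot : Stmt_ROT := by
  intro g c hc F
  have hc0 : c ≠ 0 := by
    rintro rfl
    simp at hc
  exact (mp g c hc).integral_comp (Homeomorph.smulOfNeZero c hc0).measurableEmbedding F

end Pool.TK.ROT
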