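import Pool.Agent.Work.MP_29fd3c_tk.Interface

/-!
# SER: the generating function
-/

set_option autoImplicit false

namespace Pool.TK.SER

open Matrix Complex MeasureTheory Pool.TH

open scoped MatrixOrder in
theorem exists_B {g : ℕ} {Y : Matrix (Fin g) (Fin g) ℝ} (hY : Y.PosDef) :
    ∃ B : Matrix (Fin g) (Fin g) ℝ, B.det ≠ 0 ∧ Y = B.transpose * B := by
  obtain ⟨B, hB⟩ := CStarAlgebra.nonneg_iff_eq_star_mul_self.mp hY.posSemidef.nonneg
  rw [Matrix.star_eq_conjTranspose, Matrix.conjTranspose_eq_transpose_of_trivial] at hB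
  refine ⟨B, fun h => ?_, hB⟩
  have h1 := hY.det_pos
  rw [hB, Matrix.det_mul, Matrix.det_transpose, h] at h1
  simp at h1

theorem norm_cexp_one (x : ℝ) : ‖cexp (2 * Real.pi * I * (x : ℂ))‖ = 1 := by
  have : 2 * Real.pi * I * (x : ℂ) = ((2 * Real.pi * x : ℝ) : ℂ) * I := by push_cast; ring
  rw [this, Complex.norm_exp_ofReal_mul_I]

theorem norm_chr {g : ℕ} (τ : Matrix (Fin g) (Fin g) ℂ) (z : Fin g → ℂ) (q : Ix g) :
    ‖chr τ z q‖ = 1 := norm_cexp_one _

theorem norm_sgn {g : ℕ} (q : Ix g) : ‖sgn q‖ = 1 := by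
  have : Real.pi * I * ((zc q.1 ⬝ᵥ zc q.2 : ℝ) : ℂ) =
      ((Real.pi * (zc q.1 ⬝ᵥ zc q.2) : ℝ) : ℂ) * I := by push_cast; ring
  rw [sgn, this, Complex.norm_exp_ofReal_mul_I]

theorem zc_zero {n : ℕ} : zc (0 : Fin n → ℤ) = 0 := by
  funext i; simp [zc]

theorem chr_zero {g : ℕ} (τ : Matrix (Fin g) (Fin g) ℂ) (z : Fin g → ℂ) :
    chr τ z (0 : Ix g) = 1 := by
  simp [chr, zc_zero]

theorem sgn_zero {g : ℕ} : sgn (0 : Ix g) = 1 := by
  simp [sgn, zc_zero]

theorem sq_smul {g : ℕ} (s : ℝ) (v : Fin g → ℂ) : sq ((s : ℂ) • v) = s ^ 2 * sq v := by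
  simp only [sq, Pi.smul_apply, smul_eq_mul, norm_mul, mul_pow, Complex.norm_real, Real.norm_eq_abs,
    sq_abs, Finset.mul_sum]

theorem rip_smul {g : ℕ} (s : ℝ) (l v : Fin g → ℂ) : rip l ((s : ℂ) • v) = s * rip l v := by
  simp only [rip, Pi.smul_apply, smul_eq_mul, Finset.mul_sum]
  refine Finset.sum_congr rfl fun i _ => ?_
  rw [← Complex.re_ofReal_mul]
  congr 1
  ring

theorem continuous_sq {g : ℕ} : Continuous (fun v : Fin g → ℂ => sq v) := by
  unfold sq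
  fun_prop

theorem continuous_rip {g : ℕ} (l : Fin g → ℂ) : Continuous (fun v : Fin g → ℂ => rip l v) := by
  unfold rip
  refine continuous_finsetSum _ fun i _ => ?_
  exact Complex.continuous_re.comp (continuous_const.mul (continuous_apply i))

theorem ser (hN : Stmt_NORM) (hH : Stmt_HSUM) (hG : Stmt_GAU) (hE : Stmt_EXPA) (hO : Stmt_HOL)
    (hL : Stmt_ELL) : Stmt_SER := by
  intro g τ hτ hY z m hvan
  obtain ⟨B, hB, hYB⟩ := exists_B hY
  obtain ⟨hdiff, hder, hnorm⟩ := hO g τ hτ hY B hB hYB z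
  obtain ⟨hchr, hell⟩ := hL g τ hτ hY B hB hYB
  obtain ⟨hh0, hhz, hhs⟩ := hH g τ hτ hY
  have hC0 : 0 < Real.sqrt ((2 : ℝ) • Y τ).det *
      Real.exp (-(2 * Real.pi * qf (Y τ)⁻¹ (vim z))) := by
    have h2 : ((2 : ℝ) • Y τ).PosDef := hY.smul (by norm_num)
    exact mul_pos (Real.sqrt_pos.2 h2.det_pos) (Real.exp_pos _)
  generalize Real.sqrt ((2 : ℝ) • Y τ).det *
      Real.exp (-(2 * Real.pi * qf (Y τ)⁻¹ (vim z))) = C at hC0 hnorm
  obtain ⟨ε, hε⟩ : ∃ ε : Ix g → ℂ, ε = fun q => sgn q * chr τ z q := ⟨_, rfl⟩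
  have hε1 : ∀ q, ‖ε q‖ = 1 := fun q => by simp only [hε, norm_mul, norm_sgn, norm_chr, one_mul]
  -- the functions to be integrated
  obtain ⟨F, hF⟩ : ∃ F : ℝ → Ix g → (Fin g → ℂ) → ℂ, F = fun r q v =>
    (ε q * ((Real.exp (-(Real.pi / 2 * hh τ q)) : ℝ) : ℂ)) *
      (cexp (2 * Real.pi * I * ((Real.sqrt r * rip (ell τ B q) v : ℝ) : ℂ)) *
        ((Real.exp (-(Real.pi * (1 - r) * sq v)) : ℝ) : ℂ)) := ⟨_, rfl⟩
  have hFn : ∀ r q v, ‖F r q v‖ = Real.exp (-(Real.pi / 2 * hh τ q)) *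
      Real.exp (-(Real.pi * (1 - r) * sq v)) := by
    intro r q v
    simp only [hF, norm_mul, hε1, one_mul, norm_cexp_one, Complex.norm_real, Real.norm_eq_abs,
      Real.abs_exp]
  have hS := hhs (Real.pi / 2) (by positivity)
  have hpoint : ∀ r : ℝ, 0 < r → r < 1 → ∀ v, HasSum (fun q => F r q v)
      ((C * (‖GG τ B z ((Real.sqrt r : ℂ) • v)‖ ^ 2 * Real.exp (-(Real.pi * sq v))) : ℝ) : ℂ) := by
    intro r h0 h1 v
    have h2 := (hN g τ hτ hY (pt B z ((Real.sqrt r : ℂ) • v))).mul_right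
      ((Real.exp (-(Real.pi * (1 - r) * sq v)) : ℝ) : ℂ)
    rw [← hnorm] at h2
    have e1 : ((C * ‖GG τ B z ((Real.sqrt r : ℂ) • v)‖ ^ 2 *
        Real.exp (-(Real.pi * sq ((Real.sqrt r : ℂ) • v))) : ℝ) : ℂ) *
        ((Real.exp (-(Real.pi * (1 - r) * sq v)) : ℝ) : ℂ) =
        ((C * (‖GG τ B z ((Real.sqrt r : ℂ) • v)‖ ^ 2 * Real.exp (-(Real.pi * sq v))) : ℝ) : ℂ) := by
      rw [← Complex.ofReal_mul]
      congr 1
      rw [sq_smul, Real.sq_sqrt h0.le, mul_assoc, mul_assoc, mul_assoc, ← Real.exp_add]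
      congr 3
      ring
    rw [e1] at h2
    have e3 : (fun q => F r q v) = fun q => sgn q * chr τ (pt B z ((Real.sqrt r : ℂ) • v)) q *
        ((Real.exp (-(Real.pi / 2 * hh τ q)) : ℝ) : ℂ) *
        ((Real.exp (-(Real.pi * (1 - r) * sq v)) : ℝ) : ℂ) := by
      funext q
      rw [hchr, rip_smul, hF, hε]
      simp only
      ring
    rw [e3]
    exact h2
  have hint : ∀ r : ℝ, 0 < r → r < 1 → ∀ q, Integrable (F r q) := by
    intro r h0 h1 q
    have h2 := ((hG g (Real.pi * (1 - r)) 0 0 (mul_pos Real.pi_pos (by linarith))).1).const_mul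
      (Real.exp (-(Real.pi / 2 * hh τ q)))
    refine h2.mono' ?_ ?_
    · refine Continuous.aestronglyMeasurable ?_
      rw [hF]
      have c1 := continuous_sq (g := g)
      have c2 := continuous_rip (ell τ B q)
      fun_prop
    · exact Filter.Eventually.of_forall fun v => (hFn r q v).le
  have hintval : ∀ r : ℝ, 0 < r → r < 1 → ∀ q, ∫ v, F r q v = (((1 - r) ^ g)⁻¹ : ℝ) * (ε q *
        ((Real.exp (-(Real.pi / 2 * ((1 + r) / (1 - r)) * hh τ q)) : ℝ) : ℂ)) := by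
    intro r h0 h1 q
    have hr : (1 - r) ≠ 0 := by linarith
    have h2 := (hG g (Real.pi * (1 - r)) (Real.sqrt r) (ell τ B q)
      (mul_pos Real.pi_pos (by linarith))).2
    rw [hF]
    simp only
    rw [integral_const_mul, h2, hell, Real.sq_sqrt h0.le]
    have e1 : Real.pi / (Real.pi * (1 - r)) = (1 - r)⁻¹ := by field_simp
    rw [e1, inv_pow]
    have e2 : Real.exp (-(Real.pi / 2 * ((1 + r) / (1 - r)) * hh τ q)) =
        Real.exp (-(Real.pi / 2 * hh τ q)) *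
          Real.exp (-(Real.pi ^ 2 * r * hh τ q / (Real.pi * (1 - r)))) := by
      rw [← Real.exp_add]
      congr 1
      field_simp
      ring
    rw [e2]
    push_cast
    ring
  have hnint : ∀ r : ℝ, 0 < r → r < 1 → Summable fun q => ∫ v, ‖F r q v‖ := by
    intro r h0 h1
    simp only [hFn]
    have : ∀ q, ∫ v : Fin g → ℂ, Real.exp (-(Real.pi / 2 * hh τ q)) *
      Real.exp (-(Real.pi * (1 - r) * sq v)) = Real.exp (-(Real.pi / 2 * hh τ q)) *
      ∫ v : Fin g → ℂ, Real.exp (-(Real.pi * (1 - r) * sq v)) := fun q => integral_const_mul _ _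
    simp only [this]
    exact hS.mul_right _
  have hbig : ∀ r : ℝ, 0 < r → r < 1 → HasSum (fun q => ∫ v, F r q v)
      (((C * ∫ v : Fin g → ℂ, ‖GG τ B z ((Real.sqrt r : ℂ) • v)‖ ^ 2 *
        Real.exp (-(Real.pi * sq v)) : ℝ)) : ℂ) := by
    intro r h0 h1
    have h2 := hasSum_integral_of_summable_integral_norm (hint r h0 h1) (hnint r h0 h1)
    have e : ∫ v, ∑' q, F r q v = (((C * ∫ v : Fin g → ℂ,
        ‖GG τ B z ((Real.sqrt r : ℂ) • v)‖ ^ 2 * Real.exp (-(Real.pi * sq v)) : ℝ)) : ℂ) := by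
      rw [← integral_const_mul, ← integral_complex_ofReal]
      exact integral_congr_ae (Filter.Eventually.of_forall fun v => (hpoint r h0 h1 v).tsum_eq)
    rwa [e] at h2
  -- integrability
  have hI : ∀ r : ℝ, 0 < r → r < 1 → Integrable (fun v : Fin g → ℂ =>
      ‖GG τ B z ((Real.sqrt r : ℂ) • v)‖ ^ 2 * Real.exp (-(Real.pi * sq v))) := by
    intro r h0 h1
    have h2 := ((hG g (Real.pi * (1 - r)) 0 0 (mul_pos Real.pi_pos (by linarith))).1).const_mul
      (C⁻¹ * ∑' q, Real.exp (-(Real.pi / 2 * hh τ q)))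
    refine h2.mono' ?_ ?_
    · refine Continuous.aestronglyMeasurable ?_
      have c1 := continuous_sq (g := g)
      have c2 := hdiff.continuous
      have c3 : Continuous fun v : Fin g → ℂ => GG τ B z ((Real.sqrt r : ℂ) • v) :=
        c2.comp (continuous_const_smul _)
      exact (c3.norm.pow 2).mul (Real.continuous_exp.comp (continuous_const.mul c1).neg)
    · refine Filter.Eventually.of_forall fun v => ?_
      have h3 : ‖(((C * (‖GG τ B z ((Real.sqrt r : ℂ) • v)‖ ^ 2 *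
          Real.exp (-(Real.pi * sq v))) : ℝ)) : ℂ)‖ ≤
          (∑' q, Real.exp (-(Real.pi / 2 * hh τ q))) * Real.exp (-(Real.pi * (1 - r) * sq v)) := by
        rw [← (hpoint r h0 h1 v).tsum_eq]
        exact tsum_of_norm_bounded (hS.hasSum.mul_right _) (fun q => (hFn r q v).le)
      rw [Complex.norm_real, norm_mul, Real.norm_of_nonneg hC0.le] at h3
      rw [mul_assoc, ← div_eq_inv_mul, le_div_iff₀ hC0]
      linarith
  obtain ⟨p, hp0, hpm, hps⟩ := hE g (GG τ B z) hdiff m (hder m hvan) hI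
  refine ⟨fun k => C * p k, ε, fun k => mul_nonneg hC0.le (hp0 k), fun k hk => ?_, hε1, ?_, ?_⟩
  · simp only [hpm k hk, mul_zero]
  · simp only [hε, sgn_zero, chr_zero, mul_one]
  · intro r h0 h1
    have h2 := (hps r h0 h1).mul_left C
    have h3 := Complex.hasSum_ofReal.2 h2
    have h4 := (hbig r h0 h1).tsum_eq
    simp only [hintval r h0 h1] at h4
    rw [tsum_mul_left] at h4
    rw [h4]
    have e : (fun k => ((C * p k * r ^ k : ℝ) : ℂ)) = fun k => ((C * (p k * r ^ k) : ℝ) : ℂ) := by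
      funext k
      rw [mul_assoc]
    rw [e]
    exact h3

end Pool.TK.SER
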