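import Pool.Agent.Work.MP_29fd3c_tk.NUM
import Pool.Agent.Work.MP_29fd3c_tk.SER
import Pool.Agent.Work.MP_29fd3c_tk.NORM
import Pool.Agent.Work.MP_29fd3c_tk.EXPA
import Pool.Agent.Work.MP_29fd3c_tk.ROT
import Pool.Agent.Work.MP_29fd3c_tk.PARS
import Pool.Agent.Work.MP_29fd3c_tk.HOL
import Pool.Agent.Work.MP_29fd3c_tk.HSUM
import Pool.Agent.Work.MP_29fd3c_tk.DOMA
import Pool.Agent.Work.MP_29fd3c_tk.POIX
import Pool.Agent.Work.MP_29fd3c_tk.GAU
import Pool.Agent.Work.MP_29fd3c_tk.ELL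
import Pool.Agent.Work.MP_29fd3c_tk.MOMP
import Pool.Agent.Work.MP_29fd3c_tk.EDER

/-!
# Theta divisors of abelian varieties without short periods: the main theorem
-/

set_option autoImplicit false

namespace Pool.TK.Main

open Matrix Complex Pool.TH

theorem stmt_ser : Stmt_SER :=
  SER.ser (NORM.norm POIX.poix DOMA.doma HSUM.hsum) HSUM.hsum GAU.gau (EXPA.expa ROT.rot PARS.pars)
    (HOL.hol DOMA.doma) ELL.ell

theorem stmt_num : Stmt_NUM := NUM.num MOMP.momp EDER.eder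

/-- the period `p.1 + τ p.2` -/
noncomputable def per {g : ℕ} (τ : Matrix (Fin g) (Fin g) ℂ) (p : (Fin g → ℤ) × (Fin g → ℤ)) :
    Fin g → ℂ :=
  (fun i => (p.1 i : ℂ)) + τ.mulVec (fun i => (p.2 i : ℂ))

/-- the Hermitian form at a period -/
noncomputable def HP {g : ℕ} (τ : Matrix (Fin g) (Fin g) ℂ) (p : (Fin g → ℤ) × (Fin g → ℤ)) : ℝ :=
  (dotProduct (star (per τ p)) ((((τ.map Complex.im)⁻¹).map (fun x : ℝ => (x : ℂ))).mulVec
    (per τ p))).re

theorem re_herm {g : ℕ} (M : Matrix (Fin g) (Fin g) ℝ) (v : Fin g → ℂ) :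
    (dotProduct (star v) ((M.map (fun x : ℝ => (x : ℂ))).mulVec v)).re =
      qf M (vre v) + qf M (vim v) := by
  simp only [qf, dotProduct, mulVec, Pi.star_apply, Complex.star_def, Matrix.map_apply, vre, vim,
    Complex.re_sum, Complex.mul_re, Complex.im_sum, Complex.conj_re, Complex.conj_im,
    Complex.mul_im, Complex.ofReal_re, Complex.ofReal_im, zero_mul, sub_zero, add_zero]
  rw [← Finset.sum_add_distrib]
  refine Finset.sum_congr rfl fun i _ => ?_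
  ring

theorem vre_per {g : ℕ} (τ : Matrix (Fin g) (Fin g) ℂ) (p : (Fin g → ℤ) × (Fin g → ℤ)) :
    vre (per τ p) = zc p.1 + X τ *ᵥ zc p.2 := by
  funext i
  simp [vre, per, zc, X, mulVec, dotProduct, Complex.re_sum]

theorem vim_per {g : ℕ} (τ : Matrix (Fin g) (Fin g) ℂ) (p : (Fin g → ℤ) × (Fin g → ℤ)) :
    vim (per τ p) = Y τ *ᵥ zc p.2 := by
  funext i
  simp [vim, per, zc, Y, mulVec, dotProduct, Complex.im_sum]

theorem qf_neg {n : ℕ} (M : Matrix (Fin n) (Fin n) ℝ) (v : Fin n → ℝ) : qf M (-v) = qf M v := by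
  simp [qf, mulVec_neg]

theorem HP_eq {g : ℕ} (τ : Matrix (Fin g) (Fin g) ℂ) (hY : (Y τ).PosDef)
    (p : (Fin g → ℤ) × (Fin g → ℤ)) : HP τ p = hh τ (p.2, -p.1) := by
  have hdet : IsUnit (Y τ).det := isUnit_iff_ne_zero.2 hY.det_pos.ne'
  have e1 : qf (Y τ)⁻¹ (Y τ *ᵥ zc p.2) = qf (Y τ) (zc p.2) := by
    unfold qf
    rw [mulVec_mulVec, Matrix.nonsing_inv_mul _ hdet, one_mulVec]
    exact dotProduct_comm _ _
  have e2 : zc (-p.1) - X τ *ᵥ zc p.2 = -(zc p.1 + X τ *ᵥ zc p.2) := by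
    have : zc (-p.1) = -zc p.1 := by funext i; simp [zc]
    rw [this]; abel
  rw [HP, re_herm, vre_per, vim_per]
  change qf (Y τ)⁻¹ _ + qf (Y τ)⁻¹ _ = _
  rw [e1, hh]
  simp only
  rw [e2, qf_neg, add_comm]

/-- the reindexing of the period lattice -/
def eqv (g : ℕ) : (Fin g → ℤ) × (Fin g → ℤ) ≃ Ix g where
  toFun p := (p.2, -p.1)
  invFun q := (-q.2, q.1)
  left_inv p := by simp
  right_inv q := by simp

theorem main (g : ℕ) (hg : 64 ≤ g) (τ : Matrix (Fin g) (Fin g) ℂ) (hτ : τ.transpose = τ)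
    (hY : (τ.map Complex.im).PosDef) (t : ℝ) (ht2 : 2 ≤ t) (ht : t ≤ 11 / 5)
    (hS : ∑' p : (Fin g → ℤ) × (Fin g → ℤ), (if p = 0 then 0 else
      (1 + Real.pi * HP τ p / Real.sqrt g) ^ 3 * Real.exp (-(Real.pi / 2 * t * HP τ p))) < 1)
    (z : Fin g → ℂ) :
    ∃ m : ℕ, (m : ℝ) ≤ g * (t - 1) / 2 - Real.sqrt g / 2 + 1 ∧
      iteratedFDeriv ℂ m (theta τ) z ≠ 0 := by
  classical
  by_contra hcon
  push Not at hcon
  have hY' : (Y τ).PosDef := hY
  obtain ⟨h1, h2, h3⟩ := HSUM.hsum g τ hτ hY'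
  have hS' : ∑' q : Ix g, (if q = 0 then 0 else (1 + Real.pi * hh τ q / Real.sqrt g) ^ 3 *
      Real.exp (-(Real.pi / 2 * t * hh τ q))) < 1 := by
    rw [← (eqv g).tsum_eq]
    refine lt_of_eq_of_lt (tsum_congr fun p => ?_) hS
    have e0 : (eqv g p = 0) ↔ (p = 0) := by
      constructor
      · intro h
        have := congrArg (eqv g).symm h
        rw [Equiv.symm_apply_apply] at this
        rw [this]
        simp [eqv]
      · rintro rfl
        simp [eqv]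
    by_cases hp : p = 0
    · rw [if_pos (e0.2 hp), if_pos hp]
    · rw [if_neg (fun h => hp (e0.1 h)), if_neg hp, HP_eq τ hY']
      rfl
  obtain ⟨b, hb⟩ : ∃ b, b = (g : ℝ) * (t - 1) / 2 - Real.sqrt g / 2 + 1 := ⟨_, rfl⟩
  rw [← hb] at hcon
  have hb0 : 0 ≤ b := by
    have hg' : (64 : ℝ) ≤ g := by exact_mod_cast hg
    have h4 : Real.sqrt g ≤ g := by
      rw [Real.sqrt_le_left (by linarith)]
      nlinarith
    rw [hb]
    nlinarith
  have hvan : ∀ k < ⌊b⌋₊ + 1, iteratedFDeriv ℂ k (theta τ) z = 0 := by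
    intro k hk
    refine hcon k ?_
    have h5 : k ≤ ⌊b⌋₊ := Nat.lt_succ_iff.1 hk
    exact (Nat.cast_le.2 h5).trans (Nat.floor_le hb0)
  obtain ⟨p, ε, hp, hpm, hε, hε0, hser⟩ := stmt_ser g τ hτ hY' z _ hvan
  have h6 := stmt_num g hg (Ix g) 0 (hh τ) ε h1 h2 (fun q => (hε q).le) hε0 h3 t ht2 ht hS' p _
    hp hpm hser
  rw [← hb] at h6
  have h7 := Nat.lt_floor_add_one b
  push_cast at h6
  linarith

end Pool.TK.Main
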