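import Pool.Agent.Work.MP_29fd3c_tk.Interface2

/-! # Block PTW: pointwise comparison and the constant -/

set_option autoImplicit false

namespace Pool.TK.PTW

theorem ptw : Stmt_PTW := by
  intro g hg t ht
  have hg' : (64 : ℝ) ≤ g := by exact_mod_cast hg
  have hg0 : (0 : ℝ) < g := by linarith
  set s : ℝ := Real.sqrt g with hs
  have hs8 : 8 ≤ s := by
    rw [hs]
    apply Real.le_sqrt_of_sq_le
    linarith
  have hs0 : 0 < s := by linarith
  have hss : s ^ 2 = g := Real.sq_sqrt hg0.le
  have h6 : 6 / (g : ℝ) ≤ 6 / 64 := by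
    apply div_le_div_of_nonneg_left (by norm_num) (by norm_num) hg'
  set t' : ℝ := t - 6 / g with ht'
  have ht'2 : 2 - 6 / 64 ≤ t' := by rw [ht']; linarith
  have ht'0 : 0 < t' := by linarith
  set C : ℝ := (s / Real.exp 1) ^ 3 * Real.exp (3 / s) with hC
  have hC0 : 0 < C := by positivity
  refine ⟨C, t', hC0, ht'0, ?_, ?_⟩
  · intro h hh
    have hpi := Real.pi_pos
    set x : ℝ := Real.pi * h / s with hx
    have hx0 : 0 ≤ x := by positivity
    have h1 : 1 + x ≤ s / Real.exp 1 * Real.exp ((1 + x) / s) := by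
      have h2 : (1 + x) / s * Real.exp 1 ≤ Real.exp ((1 + x) / s) := by
        have h3 := Real.add_one_le_exp ((1 + x) / s - 1)
        have h4 : Real.exp ((1 + x) / s) = Real.exp ((1 + x) / s - 1) * Real.exp 1 := by
          rw [← Real.exp_add]; ring_nf
        rw [h4]
        exact mul_le_mul_of_nonneg_right (by linarith) (Real.exp_pos 1).le
      have h5 : 1 + x = s / Real.exp 1 * ((1 + x) / s * Real.exp 1) := by
        field_simp
      calc 1 + x = s / Real.exp 1 * ((1 + x) / s * Real.exp 1) := h5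
        _ ≤ _ := mul_le_mul_of_nonneg_left h2 (by positivity)
    have h6' : (1 + x) ^ 3 ≤ (s / Real.exp 1 * Real.exp ((1 + x) / s)) ^ 3 :=
      pow_le_pow_left₀ (by linarith) h1 3
    have h7 : (s / Real.exp 1 * Real.exp ((1 + x) / s)) ^ 3 * Real.exp (-(Real.pi / 2 * t * h)) =
        C * Real.exp (-(Real.pi / 2 * t' * h)) := by
      rw [mul_pow, ← Real.exp_nat_mul, hC, mul_assoc ((s / Real.exp 1) ^ 3),
        mul_assoc ((s / Real.exp 1) ^ 3), ← Real.exp_add, ← Real.exp_add]
      congr 2
      rw [hx, ht', ← hss]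
      push_cast
      field_simp
      ring
    rw [← h7]
    exact mul_le_mul_of_nonneg_right h6' (Real.exp_pos _).le
  · have ht0 : 0 < t := by linarith
    have h1 : (2 / t') ^ g = (2 / t) ^ g * (t / t') ^ g := by
      rw [← mul_pow]
      congr 1
      field_simp
    have h2 : (t / t') ^ g ≤ Real.exp (6 / t') := by
      have h3 : t / t' ≤ Real.exp (6 / g / t') := by
        have h4 : t / t' = 6 / g / t' + 1 := by
          rw [div_add_one ht'0.ne']
          congr 1
          rw [ht']; ring
        rw [h4]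
        exact Real.add_one_le_exp _
      calc (t / t') ^ g ≤ Real.exp (6 / g / t') ^ g := pow_le_pow_left₀ (by positivity) h3 g
        _ = Real.exp (6 / t') := by
          rw [← Real.exp_nat_mul]
          congr 1
          field_simp
    have h3 : 6 / t' ≤ 6 / (2 - 6 / 64) :=
      div_le_div_of_nonneg_left (by norm_num) (by norm_num) ht'2
    have h4 : 3 / s ≤ 3 / 8 := div_le_div_of_nonneg_left (by norm_num) (by norm_num) hs8
    have h5 : C = s ^ 3 * Real.exp (-3 + 3 / s) := by
      rw [hC, div_pow, ← Real.exp_nat_mul, Real.exp_add, Real.exp_neg]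
      push_cast
      rw [mul_one, div_mul_eq_mul_div, div_eq_mul_inv]
      ring
    have h6 : Real.exp (-3 + 3 / s) * Real.exp (6 / t') ≤ 2 := by
      rw [← Real.exp_add, ← Real.le_log_iff_exp_le (by norm_num)]
      have := Real.log_two_gt_d9
      norm_num at h3
      linarith
    have h7 : 0 < (2 / t) ^ g := by positivity
    rw [h1, h5]
    calc s ^ 3 * Real.exp (-3 + 3 / s) * ((2 / t) ^ g * (t / t') ^ g)
        ≤ s ^ 3 * Real.exp (-3 + 3 / s) * ((2 / t) ^ g * Real.exp (6 / t')) := by
          apply mul_le_mul_of_nonneg_left _ (by positivity)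
          exact mul_le_mul_of_nonneg_left h2 h7.le
      _ = s ^ 3 * (2 / t) ^ g * (Real.exp (-3 + 3 / s) * Real.exp (6 / t')) := by ring
      _ ≤ s ^ 3 * (2 / t) ^ g * 2 := mul_le_mul_of_nonneg_left h6 (by positivity)
      _ = 2 * s ^ 3 * (2 / t) ^ g := by ring

end Pool.TK.PTW
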