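import Pool.Agent.Work.MP_29fd3c_tk.Interface2

/-!
# Block TAU (MP_29fd3c_ag): `tau x y` is a period matrix, and its Hermitian form
-/

set_option autoImplicit false

namespace Pool.TK.TAU

open Matrix Complex MeasureTheory

theorem tau_transpose {g : ℕ} (x : Fin g → Fin g → ℝ) (y : ℝ) :
    (tau x y).transpose = tau x y := by
  ext i j
  simp only [Matrix.transpose_apply, tau, min_comm j i, max_comm j i, eq_comm (a := j) (b := i)]

theorem Y_tau {g : ℕ} (x : Fin g → Fin g → ℝ) (y : ℝ) :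
    Y (tau x y) = y • (1 : Matrix (Fin g) (Fin g) ℝ) := by
  ext i j
  by_cases h : i = j
  · subst h
    simp [Y, tau]
  · simp [Y, tau, h]

theorem X_tau {g : ℕ} (x : Fin g → Fin g → ℝ) (y : ℝ) :
    X (tau x y) = symx x := by
  ext i j
  by_cases h : i = j
  · subst h
    simp [X, tau, symx]
  · simp [X, tau, symx, h]

theorem posDef_smul_one {g : ℕ} {y : ℝ} (hy : 0 < y) :
    (y • (1 : Matrix (Fin g) (Fin g) ℝ)).PosDef :=
  Matrix.PosDef.one.smul hy

theorem inv_smul_one {g : ℕ} {y : ℝ} (hy : 0 < y) :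
    (y • (1 : Matrix (Fin g) (Fin g) ℝ))⁻¹ = y⁻¹ • (1 : Matrix (Fin g) (Fin g) ℝ) := by
  apply Matrix.inv_eq_right_inv
  rw [Matrix.smul_mul, Matrix.mul_smul, Matrix.one_mul, smul_smul, mul_inv_cancel₀ hy.ne',
    one_smul]

theorem qf_smul_one {g : ℕ} (c : ℝ) (v : Fin g → ℝ) :
    qf (c • (1 : Matrix (Fin g) (Fin g) ℝ)) v = c * (v ⬝ᵥ v) := by
  unfold qf
  rw [Matrix.smul_mulVec, Matrix.one_mulVec, dotProduct_smul, smul_eq_mul]

/-- Block TAU -/
theorem tau : Stmt_TAU := by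
  intro g x y hy
  refine ⟨tau_transpose x y, ?_, ?_⟩
  · rw [Y_tau]
    exact posDef_smul_one hy
  · intro q
    unfold hh hq
    rw [Y_tau, X_tau, inv_smul_one hy, qf_smul_one, qf_smul_one]

end Pool.TK.TAU
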