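import Pool.Agent.Work.MP_29fd3c_tk.Interface2

/-!
# Block THL: Jacobi's identity for the theta series and its limit at infinity
-/

set_option autoImplicit false

namespace Pool.TK.THL

open MeasureTheory ENNReal

/-- summability of the theta series -/
theorem summable_th (s : ℝ) (hs : 0 < s) :
    Summable (fun n : ℤ => Real.exp (-(Real.pi * s * (n : ℝ) ^ 2))) := by
  have hc : 0 < Real.pi * s := mul_pos Real.pi_pos hs
  have hr : Real.exp (-(Real.pi * s)) < 1 := by
    rw [Real.exp_lt_one_iff]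
    linarith
  have hg : Summable (fun n : ℕ => Real.exp (-(Real.pi * s)) ^ n) :=
    summable_geometric_of_lt_one (Real.exp_pos _).le hr
  have key : Summable (fun n : ℕ => Real.exp (-(Real.pi * s * (n : ℝ) ^ 2))) := by
    refine Summable.of_nonneg_of_le (fun n => (Real.exp_pos _).le) (fun n => ?_) hg
    rw [← Real.exp_nat_mul]
    apply Real.exp_le_exp.mpr
    have h1 : (n : ℝ) ≤ (n : ℝ) ^ 2 := by
      have h2 : n ≤ n ^ 2 := Nat.le_self_pow (by norm_num) n
      exact_mod_cast h2
    have h3 := mul_le_mul_of_nonneg_left h1 hc.le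
    linarith
  refine Summable.of_nat_of_neg ?_ ?_
  · simpa using key
  · simpa using key

/-- the zeroth term -/
theorem one_le (s : ℝ) (hs : 0 < s) : 1 ≤ th s := by
  have h := (summable_th s hs).le_tsum (0 : ℤ) (fun n _ => (Real.exp_pos _).le)
  simpa [th] using h

/-- Jacobi's identity -/
theorem jacobi (s : ℝ) (hs : 0 < s) : th s = (Real.sqrt s)⁻¹ * th s⁻¹ := by
  have h := Real.tsum_exp_neg_mul_int_sq hs
  have e1 : (fun n : ℤ => Real.exp (-Real.pi * s * (n : ℝ) ^ 2)) =
      fun n : ℤ => Real.exp (-(Real.pi * s * (n : ℝ) ^ 2)) := by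
    funext n
    congr 1
    ring
  have e2 : (fun n : ℤ => Real.exp (-Real.pi / s * (n : ℝ) ^ 2)) =
      fun n : ℤ => Real.exp (-(Real.pi * s⁻¹ * (n : ℝ) ^ 2)) := by
    funext n
    congr 1
    field_simp
  rw [e1, e2, ← Real.sqrt_eq_rpow, one_div] at h
  exact h

/-- upper bound for large `s` -/
theorem upper (s : ℝ) (hs : 1 ≤ s) : th s ≤ 1 + Real.exp (-(Real.pi * (s - 1))) * th 1 := by
  have hs0 : 0 < s := lt_of_lt_of_le one_pos hs
  have hle : ∀ n : ℤ, Real.exp (-(Real.pi * s * (n : ℝ) ^ 2)) ≤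
      (if n = 0 then 1 else 0) +
        Real.exp (-(Real.pi * (s - 1))) * Real.exp (-(Real.pi * 1 * (n : ℝ) ^ 2)) := by
    intro n
    by_cases hn : n = 0
    · subst hn
      simp
      positivity
    · rw [if_neg hn, zero_add, ← Real.exp_add]
      apply Real.exp_le_exp.mpr
      have h1 : (1 : ℝ) ≤ (n : ℝ) ^ 2 := by
        have h2 : (1 : ℤ) ≤ n ^ 2 := by
          have := sq_pos_of_ne_zero hn
          omega
        exact_mod_cast h2
      have h3 : 0 ≤ Real.pi * (s - 1) * ((n : ℝ) ^ 2 - 1) :=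
        mul_nonneg (mul_nonneg Real.pi_pos.le (by linarith)) (by linarith)
      nlinarith
  have hd : HasSum (fun n : ℤ => if n = 0 then (1 : ℝ) else 0) 1 := hasSum_ite_eq 0 1
  have hm : Summable (fun n : ℤ =>
      Real.exp (-(Real.pi * (s - 1))) * Real.exp (-(Real.pi * 1 * (n : ℝ) ^ 2))) :=
    (summable_th 1 one_pos).mul_left _
  have h := (summable_th s hs0).tsum_le_tsum hle (hd.summable.add hm)
  rw [Summable.tsum_add hd.summable hm, hd.tsum_eq, tsum_mul_left] at h
  exact h

/-- block THL -/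
theorem thl : Stmt_THL := by
  refine ⟨one_le, jacobi, ?_⟩
  have h1 : Filter.Tendsto (fun s : ℝ => 1 + Real.exp (-(Real.pi * (s - 1))) * th 1)
      Filter.atTop (nhds 1) := by
    have h2 : Filter.Tendsto (fun s : ℝ => Real.exp (-(Real.pi * (s - 1)))) Filter.atTop (nhds 0) := by
      apply Real.tendsto_exp_neg_atTop_nhds_zero.comp
      apply Filter.Tendsto.const_mul_atTop Real.pi_pos
      exact Filter.tendsto_atTop_add_const_right Filter.atTop (-1) Filter.tendsto_id
    have h3 := (h2.mul_const (th 1)).const_add 1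
    simpa using h3
  refine tendsto_of_tendsto_of_tendsto_of_le_of_le' tendsto_const_nhds h1 ?_ ?_
  · filter_upwards [Filter.eventually_gt_atTop (0 : ℝ)] with s hs using one_le s hs
  · filter_upwards [Filter.eventually_ge_atTop (1 : ℝ)] with s hs using upper s hs

end Pool.TK.THL
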