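import Pool.Agent.Work.MP_29fd3c_tk.Interface2
import Pool.Agent.Work.MP_29fd3c_tk.THL

/-!
# Block THG: Gaussian integrals and sums in dimension `g`
-/

set_option autoImplicit false

namespace Pool.TK.THG

open MeasureTheory ENNReal Matrix

theorem exp_dot {g : ℕ} (s : ℝ) (v : Fin g → ℝ) :
    Real.exp (-(Real.pi * s * (v ⬝ᵥ v))) = ∏ i, Real.exp (-(Real.pi * s) * v i ^ 2) := by
  rw [← Real.exp_sum]
  congr 1
  rw [dotProduct, Finset.mul_sum, ← Finset.sum_neg_distrib]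
  refine Finset.sum_congr rfl (fun i _ => ?_)
  ring

/-- the Gaussian integral -/
theorem gauss (g : ℕ) (s : ℝ) (hs : 0 < s) :
    ∫⁻ v : Fin g → ℝ, ENNReal.ofReal (Real.exp (-(Real.pi * s * (v ⬝ᵥ v)))) =
      ENNReal.ofReal (((Real.sqrt s)⁻¹) ^ g) := by
  have hc : 0 < Real.pi * s := mul_pos Real.pi_pos hs
  have h1 : Integrable (fun x : ℝ => Real.exp (-(Real.pi * s) * x ^ 2)) :=
    integrable_exp_neg_mul_sq hc
  have h2 : Integrable (fun v : Fin g → ℝ => ∏ i, Real.exp (-(Real.pi * s) * v i ^ 2)) :=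
    Integrable.fintype_prod (f := fun _ : Fin g => fun x : ℝ => Real.exp (-(Real.pi * s) * x ^ 2))
      (fun _ => h1)
  have h3 : ∫ v : Fin g → ℝ, ∏ i, Real.exp (-(Real.pi * s) * v i ^ 2) =
      (Real.sqrt s)⁻¹ ^ g := by
    rw [integral_fintype_prod_volume_eq_pow (fun x : ℝ => Real.exp (-(Real.pi * s) * x ^ 2)),
      integral_gaussian, Fintype.card_fin]
    congr 1
    rw [div_mul_cancel_left₀ Real.pi_ne_zero, Real.sqrt_inv]
  calc ∫⁻ v : Fin g → ℝ, ENNReal.ofReal (Real.exp (-(Real.pi * s * (v ⬝ᵥ v))))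
      = ∫⁻ v : Fin g → ℝ, ENNReal.ofReal (∏ i, Real.exp (-(Real.pi * s) * v i ^ 2)) := by
        refine lintegral_congr (fun v => ?_)
        rw [exp_dot]
    _ = ENNReal.ofReal (∫ v : Fin g → ℝ, ∏ i, Real.exp (-(Real.pi * s) * v i ^ 2)) := by
        rw [ofReal_integral_eq_lintegral_ofReal h2]
        exact Filter.Eventually.of_forall
          (fun v => Finset.prod_nonneg (fun i _ => (Real.exp_pos _).le))
    _ = _ := by rw [h3]

/-- the one dimensional sum -/
theorem sum_one (s : ℝ) (hs : 0 < s) :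
    ∑' n : ℤ, ENNReal.ofReal (Real.exp (-(Real.pi * s * (n : ℝ) ^ 2))) = ENNReal.ofReal (th s) := by
  rw [th, ENNReal.ofReal_tsum_of_nonneg (fun n => (Real.exp_pos _).le) (THL.summable_th s hs)]

/-- the sum over the lattice -/
theorem sum (g : ℕ) (s : ℝ) (hs : 0 < s) :
    ∑' a : Fin g → ℤ, ENNReal.ofReal (Real.exp (-(Real.pi * s * (zc a ⬝ᵥ zc a)))) =
      ENNReal.ofReal (th s ^ g) := by
  have h0 : 0 ≤ th s := le_trans zero_le_one (THL.one_le s hs)
  induction g with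
  | zero =>
    rw [tsum_fintype]
    simp [dotProduct]
  | succ g ih =>
    rw [← (Fin.consEquiv (fun _ : Fin (g + 1) => ℤ)).tsum_eq, ENNReal.tsum_prod']
    have e : ∀ (n : ℤ) (a : Fin g → ℤ),
        ENNReal.ofReal (Real.exp (-(Real.pi * s *
          (zc ((Fin.consEquiv (fun _ : Fin (g + 1) => ℤ)) (n, a)) ⬝ᵥ
            zc ((Fin.consEquiv (fun _ : Fin (g + 1) => ℤ)) (n, a)))))) =
        ENNReal.ofReal (Real.exp (-(Real.pi * s * (n : ℝ) ^ 2))) *
          ENNReal.ofReal (Real.exp (-(Real.pi * s * (zc a ⬝ᵥ zc a)))) := by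
      intro n a
      rw [← ENNReal.ofReal_mul (Real.exp_pos _).le, ← Real.exp_add]
      congr 2
      simp only [dotProduct, zc, Fin.consEquiv_apply, Fin.sum_univ_succ, Fin.cons_zero,
        Fin.cons_succ]
      ring
    calc ∑' (n : ℤ) (a : Fin g → ℤ), ENNReal.ofReal (Real.exp (-(Real.pi * s *
          (zc ((Fin.consEquiv (fun _ : Fin (g + 1) => ℤ)) (n, a)) ⬝ᵥ
            zc ((Fin.consEquiv (fun _ : Fin (g + 1) => ℤ)) (n, a))))))
        = ∑' (n : ℤ), ENNReal.ofReal (Real.exp (-(Real.pi * s * (n : ℝ) ^ 2))) *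
            ENNReal.ofReal (th s ^ g) := by
          refine tsum_congr (fun n => ?_)
          rw [← ih, ← ENNReal.tsum_mul_left]
          exact tsum_congr (fun a => e n a)
      _ = ENNReal.ofReal (th s ^ (g + 1)) := by
          rw [ENNReal.tsum_mul_right, sum_one s hs, ← ENNReal.ofReal_mul h0, pow_succ, mul_comm]

/-- block THG -/
theorem thg : Stmt_THG := fun g s hs => ⟨gauss g s hs, sum g s hs⟩

end Pool.TK.THG
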