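import Pool.Agent.Work.MP_29fd3c_tk.Interface2

/-! # Block UNF: unfolding -/

set_option autoImplicit false

namespace Pool.TK.UNF

open MeasureTheory ENNReal

theorem unf : Stmt_UNF := by
  intro g φ hφ
  set D : Set (Fin g → ℝ) := {v : Fin g → ℝ | ∀ i, 0 ≤ v i ∧ v i < 1} with hD
  have hDm : MeasurableSet D := by
    have : D = ⋂ i, ({v : Fin g → ℝ | 0 ≤ v i} ∩ {v : Fin g → ℝ | v i < 1}) := by
      ext v; simp [hD]
    rw [this]
    exact MeasurableSet.iInter (fun i =>
      (measurableSet_le measurable_const (measurable_pi_apply i)).inter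
        (measurableSet_lt (measurable_pi_apply i) measurable_const))
  have hmeas : ∀ b : Fin g → ℤ, Measurable (fun v : Fin g → ℝ => φ (zc b - v)) :=
    fun b => hφ.comp (measurable_const.sub measurable_id)
  rw [lintegral_tsum (fun b => (hmeas b).aemeasurable)]
  have h1 : ∀ b : Fin g → ℤ, ∫⁻ v in D, φ (zc b - v) =
      ∫⁻ w in (fun w : Fin g → ℝ => zc b - w) ⁻¹' D, φ w := by
    intro b
    have hmp : MeasurePreserving (fun w : Fin g → ℝ => zc b - w) volume volume :=
      Measure.measurePreserving_sub_left volume (zc b)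
    rw [← hmp.setLIntegral_comp_preimage hDm (hmeas b)]
    simp only [_root_.sub_sub_cancel]
  rw [tsum_congr h1]
  have hmS : ∀ b : Fin g → ℤ, MeasurableSet ((fun w : Fin g → ℝ => zc b - w) ⁻¹' D) :=
    fun b => (measurable_const.sub measurable_id) hDm
  rw [← lintegral_iUnion (μ := volume) hmS]
  · have huniv : (⋃ b : Fin g → ℤ, (fun w : Fin g → ℝ => zc b - w) ⁻¹' D) = Set.univ := by
      rw [Set.eq_univ_iff_forall]
      intro w
      rw [Set.mem_iUnion]
      refine ⟨fun i => ⌈w i⌉, fun i => ⟨?_, ?_⟩⟩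
      · have := Int.le_ceil (w i)
        simp only [zc, Pi.sub_apply]
        linarith
      · have := Int.ceil_lt_add_one (w i)
        simp only [zc, Pi.sub_apply]
        linarith
    rw [huniv, Measure.restrict_univ]
  · intro b b' hne
    rw [Function.onFun, Set.disjoint_left]
    intro w hw hw'
    apply hne
    funext i
    obtain ⟨h2, h3⟩ := hw i
    obtain ⟨h4, h5⟩ := hw' i
    simp only [zc, Pi.sub_apply] at h2 h3 h4 h5
    have h6 : (b i : ℝ) < b' i + 1 := by linarith
    have h7 : (b' i : ℝ) < b i + 1 := by linarith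
    have h8 : b i < b' i + 1 := by exact_mod_cast h6
    have h9 : b' i < b i + 1 := by exact_mod_cast h7
    omega

end Pool.TK.UNF
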