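import Pool.Agent.Work.MP_29fd3c_tk.Interface
import Pool.Agent.Work.MP_29fd3c_tk.Interface2

/-!
# VOL: the volume of the exceptional set
-/

set_option autoImplicit false

namespace Pool.TK.VOL

open Matrix Complex MeasureTheory ENNReal

/-- the ENNReal valued sum over the nonzero periods -/
noncomputable def SS {g : ℕ} (t y : ℝ) (x : Fin g → Fin g → ℝ) : ℝ≥0∞ :=
  ∑' q : Ix g, (if q = 0 then 0 else ENNReal.ofReal (Real.exp (-(Real.pi / 2 * t * hq x y q))))

theorem measurable_hq {g : ℕ} (y : ℝ) (q : Ix g) :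
    Measurable (fun x : Fin g → Fin g → ℝ => hq x y q) := by
  have : Continuous (fun x : Fin g → Fin g → ℝ => hq x y q) := by
    unfold hq symx
    simp only [dotProduct, mulVec, Pi.sub_apply]
    fun_prop
  exact this.measurable

theorem measurable_SS {g : ℕ} (t y : ℝ) : Measurable (SS (g := g) t y) := by
  unfold SS
  refine Measurable.tsum fun q => ?_
  by_cases hq0 : q = 0
  · simp [hq0]
  · simp only [hq0, if_false]
    have := measurable_hq y q
    fun_prop

theorem vol (hA : Stmt_AVG) (hL : Stmt_LIM) (hP : Stmt_PTW) (hT : Stmt_TAU) (hH : Stmt_HSUM) :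
    Stmt_VOL := by
  intro g hg t ht η hη
  obtain ⟨C, t', hC, ht', hpt, hconst⟩ := hP g hg t ht
  have hlim := (hL g t' ht').const_mul C
  have hlt : C * (2 / t') ^ g < 2 * Real.sqrt g ^ 3 * (2 / t) ^ g + η := by linarith
  have hev := hlim.eventually (gt_mem_nhds hlt)
  obtain ⟨y₀, hy₀, hsub⟩ := (mem_nhdsGT_iff_exists_Ioo_subset).1 hev
  refine ⟨y₀, hy₀, fun y hy hyy => ?_⟩
  have hb : C * ((Real.sqrt (t' / (2 * y)))⁻¹ ^ g * th (t' * y / 2) ^ g +
        (th (t' / (2 * y)) ^ g - 1)) < 2 * Real.sqrt g ^ 3 * (2 / t) ^ g + η := hsub ⟨hy, hyy⟩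
  have hincl : {x : Fin g → Fin g → ℝ | x ∈ cube g ∧
        1 ≤ ∑' q : Ix g, (if q = 0 then 0 else (1 + Real.pi * hq x y q / Real.sqrt g) ^ 3 *
          Real.exp (-(Real.pi / 2 * t * hq x y q)))} ⊆
      {x | 1 ≤ ENNReal.ofReal C * SS t' y x} ∩ cube g := by
    rintro x ⟨hx, h1⟩
    refine ⟨?_, hx⟩
    obtain ⟨hs1, hs2, hs3⟩ := hT g x y hy
    obtain ⟨hh0, -, hhs⟩ := hH g (tau x y) hs1 hs2
    simp only [hs3] at hh0 hhs
    have hsu : Summable (fun q : Ix g => if q = 0 then (0 : ℝ) else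
        C * Real.exp (-(Real.pi / 2 * t' * hq x y q))) := by
      have h2 := ((hhs (Real.pi / 2 * t') (by positivity)).mul_left C)
      refine Summable.of_nonneg_of_le (fun q => ?_) (fun q => ?_) h2
      · split_ifs
        · exact le_rfl
        · positivity
      · split_ifs
        · positivity
        · exact le_rfl
    have hle : ∀ q : Ix g, (if q = 0 then (0 : ℝ) else (1 + Real.pi * hq x y q / Real.sqrt g) ^ 3 *
        Real.exp (-(Real.pi / 2 * t * hq x y q))) ≤ if q = 0 then (0 : ℝ) else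
        C * Real.exp (-(Real.pi / 2 * t' * hq x y q)) := by
      intro q
      split_ifs
      · exact le_rfl
      · exact hpt _ (hh0 q)
    have hnn : ∀ q : Ix g, 0 ≤ (if q = 0 then (0 : ℝ) else
        (1 + Real.pi * hq x y q / Real.sqrt g) ^ 3 *
        Real.exp (-(Real.pi / 2 * t * hq x y q))) := by
      intro q
      split_ifs
      · exact le_rfl
      · have := hh0 q
        positivity
    have hsn := Summable.of_nonneg_of_le hnn hle hsu
    have h3 : 1 ≤ ∑' q : Ix g, (if q = 0 then (0 : ℝ) else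
        C * Real.exp (-(Real.pi / 2 * t' * hq x y q))) :=
      h1.trans (hsn.tsum_le_tsum hle hsu)
    have h4 : (1 : ℝ≥0∞) ≤ ENNReal.ofReal (∑' q : Ix g, (if q = 0 then (0 : ℝ) else
        C * Real.exp (-(Real.pi / 2 * t' * hq x y q)))) := by
      rw [← ENNReal.ofReal_one]
      exact ENNReal.ofReal_le_ofReal h3
    rw [ENNReal.ofReal_tsum_of_nonneg (fun q => (hnn q).trans (hle q)) hsu] at h4
    refine h4.trans (le_of_eq ?_)
    rw [SS, ← ENNReal.tsum_mul_left]
    refine tsum_congr fun q => ?_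
    by_cases hq0 : q = 0
    · simp [hq0]
    · simp only [hq0, if_false]
      rw [ENNReal.ofReal_mul hC.le]
  have hmeas : Measurable (fun x : Fin g → Fin g → ℝ => ENNReal.ofReal C * SS t' y x) :=
    (measurable_SS t' y).const_mul _
  calc volume _ ≤ volume ({x | 1 ≤ ENNReal.ofReal C * SS t' y x} ∩ cube g) := measure_mono hincl
    _ = (volume.restrict (cube g)) {x | 1 ≤ ENNReal.ofReal C * SS t' y x} :=
        (Measure.restrict_apply (measurableSet_le measurable_const hmeas)).symm
    _ ≤ ∫⁻ x in cube g, ENNReal.ofReal C * SS t' y x := by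
        have := mul_meas_ge_le_lintegral (μ := volume.restrict (cube g)) hmeas 1
        rwa [one_mul] at this
    _ = ENNReal.ofReal C * ∫⁻ x in cube g, SS t' y x := lintegral_const_mul _ (measurable_SS t' y)
    _ ≤ ENNReal.ofReal C * ENNReal.ofReal ((Real.sqrt (t' / (2 * y)))⁻¹ ^ g * th (t' * y / 2) ^ g +
        (th (t' / (2 * y)) ^ g - 1)) := by
        gcongr
        exact hA g t' y ht' hy
    _ = ENNReal.ofReal (C * ((Real.sqrt (t' / (2 * y)))⁻¹ ^ g * th (t' * y / 2) ^ g +
        (th (t' / (2 * y)) ^ g - 1))) := (ENNReal.ofReal_mul hC.le).symm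
    _ ≤ ENNReal.ofReal (2 * Real.sqrt g ^ 3 * (2 / t) ^ g + η) := ENNReal.ofReal_le_ofReal hb.le

end Pool.TK.VOL
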