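import Pool.Agent.Work.MP_29fd3c_tk.Main
import Pool.Agent.Work.MP_29fd3c_tk.VOL
import Pool.Agent.Work.MP_29fd3c_tk.AVG
import Pool.Agent.Work.MP_29fd3c_tk.LIM
import Pool.Agent.Work.MP_29fd3c_tk.PTW
import Pool.Agent.Work.MP_29fd3c_tk.TAU
import Pool.Agent.Work.MP_29fd3c_tk.EQD
import Pool.Agent.Work.MP_29fd3c_tk.UNF
import Pool.Agent.Work.MP_29fd3c_tk.THG
import Pool.Agent.Work.MP_29fd3c_tk.THL

/-!
# Most abelian varieties have no short periods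
-/

set_option autoImplicit false

namespace Pool.TK.Main

open Matrix Complex Pool.TH MeasureTheory

theorem stmt_vol : Stmt_VOL :=
  VOL.vol (AVG.avg EQD.eqd UNF.unf THG.thg) (LIM.lim THL.thl) PTW.ptw TAU.tau HSUM.hsum

theorem reindex {g : ℕ} (τ : Matrix (Fin g) (Fin g) ℂ) (hY : (Y τ).PosDef) (f : ℝ → ℝ) :
    ∑' p : (Fin g → ℤ) × (Fin g → ℤ), (if p = 0 then 0 else f (HP τ p)) =
      ∑' q : Ix g, (if q = 0 then 0 else f (hh τ q)) := by
  refine Eq.trans ?_ ((eqv g).tsum_eq (fun q : Ix g => if q = 0 then 0 else f (hh τ q)))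
  refine tsum_congr fun p => ?_
  have e0 : (eqv g p = 0) ↔ (p = 0) := by
    constructor
    · intro h
      have := congrArg (eqv g).symm h
      rw [Equiv.symm_apply_apply] at this
      rw [this]
      simp [eqv]
    · rintro rfl
      simp [eqv]
  by_cases hp : p = 0
  · rw [if_pos (e0.2 hp), if_pos hp]
  · rw [if_neg (fun h => hp (e0.1 h)), if_neg hp, HP_eq τ hY]
    rfl

theorem main2 (g : ℕ) (hg : 64 ≤ g) (t : ℝ) (ht : 2 ≤ t) (η : ℝ) (hη : 0 < η) :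
    ∃ y₀ : ℝ, 0 < y₀ ∧ ∀ y : ℝ, 0 < y → y < y₀ →
      volume {x : Fin g → Fin g → ℝ | (∀ i j, 0 ≤ x i j ∧ x i j < 1) ∧
        1 ≤ ∑' p : (Fin g → ℤ) × (Fin g → ℤ), (if p = 0 then 0 else
          (1 + Real.pi * HP (tau x y) p / Real.sqrt g) ^ 3 *
            Real.exp (-(Real.pi / 2 * t * HP (tau x y) p)))} ≤
        ENNReal.ofReal (2 * Real.sqrt g ^ 3 * (2 / t) ^ g + η) := by
  obtain ⟨y₀, hy₀, h⟩ := stmt_vol g hg t ht η hη
  refine ⟨y₀, hy₀, fun y hy hyy => ?_⟩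
  refine le_trans (measure_mono ?_) (h y hy hyy)
  rintro x ⟨hx, h1⟩
  refine ⟨hx, ?_⟩
  obtain ⟨-, hs2, hs3⟩ := TAU.tau g x y hy
  rw [reindex (tau x y) hs2 (fun h => (1 + Real.pi * h / Real.sqrt g) ^ 3 *
            Real.exp (-(Real.pi / 2 * t * h)))] at h1
  simp only [hs3] at h1
  exact h1

end Pool.TK.Main
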