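import Pool.Agent.Work.MP_29fd3c_tk.NUMB

/-!
# NUM, part C: bounds for the exponential sums
-/

set_option autoImplicit false

namespace Pool.TK.NUM

open Complex

section

variable {ι : Type} [DecidableEq ι] {h : ι → ℝ} {ε : ι → ℂ}

/-- the moments of the lattice sum without the term `i₀` -/
noncomputable def dd (h : ι → ℝ) (i₀ : ι) (G t : ℝ) (j : ℕ) : ℝ :=
  ∑' i, if i = i₀ then 0 else (Real.pi * h i / G) ^ j * Real.exp (-(Real.pi / 2 * t * h i))

theorem dd_summable (hE : Stmt_EDER) (hh : ∀ i, 0 ≤ h i)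
    (hs : ∀ s : ℝ, 0 < s → Summable (fun i => Real.exp (-(s * h i)))) (i₀ : ι) {G t : ℝ}
    (ht : 0 < t) (j : ℕ) :
    Summable (fun i => if i = i₀ then 0 else
      (Real.pi * h i / G) ^ j * Real.exp (-(Real.pi / 2 * t * h i))) := by
  have h1 := (hE ι h (fun _ => 1) hh (fun _ => by simp) hs j ((t - 1) / 2) (by linarith)).1
  have h2 : Summable (fun i => (Real.pi * h i / G) ^ j * Real.exp (-(Real.pi / 2 * t * h i))) := by
    have h3 := h1.mul_left ((Real.pi / G) ^ j)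
    refine h3.congr fun i => ?_
    rw [← mul_assoc, ← mul_pow]
    have e1 : Real.pi / G * h i = Real.pi * h i / G := by ring
    have e2 : Real.pi / 2 * (1 + 2 * ((t - 1) / 2)) * h i = Real.pi / 2 * t * h i := by ring
    rw [e1, e2]
  have h4 := h2.indicator {i | i ≠ i₀}
  refine h4.congr fun i => ?_
  simp only [Set.indicator_apply, Set.mem_ofPred_eq]
  by_cases hi : i = i₀ <;> simp [hi]

theorem dd_total (hE : Stmt_EDER) (hh : ∀ i, 0 ≤ h i)
    (hs : ∀ s : ℝ, 0 < s → Summable (fun i => Real.exp (-(s * h i)))) (i₀ : ι) {G t : ℝ}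
    (ht : 0 < t) :
    dd h i₀ G t 0 + 3 * dd h i₀ G t 1 + 3 * dd h i₀ G t 2 + dd h i₀ G t 3 =
      ∑' i, (if i = i₀ then 0 else (1 + Real.pi * h i / G) ^ 3 *
        Real.exp (-(Real.pi / 2 * t * h i))) := by
  have hS := fun j => (dd_summable hE hh hs i₀ (G := G) ht j).hasSum
  have h1 := (((hS 0).add ((hS 1).mul_left 3)).add ((hS 2).mul_left 3)).add (hS 3)
  refine h1.tsum_eq.symm.trans (tsum_congr fun i => ?_)
  by_cases hi : i = i₀
  · simp [hi]
  · simp only [hi, if_false]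
    ring

theorem ee_bound {i₀ : ι} (hE : Stmt_EDER) (hh : ∀ i, 0 ≤ h i) (h0 : h i₀ = 0)
    (hε : ∀ i, ‖ε i‖ ≤ 1) (hε0 : ε i₀ = 1)
    (hs : ∀ s : ℝ, 0 < s → Summable (fun i => Real.exp (-(s * h i))))
    {t G u : ℝ} (ht : 0 < t) (hG : 0 < G) (hu : u = (t - 1) / 2) (j : ℕ) :
    |(ee h ε j u).re - (if j = 0 then 1 else 0)| ≤ G ^ j * dd h i₀ G t j := by
  have ht' : 1 + 2 * u = t := by rw [hu]; ring
  obtain ⟨f, hf⟩ : ∃ f : ι → ℂ, f = fun i => ((-(Real.pi * h i)) ^ j : ℝ) * ε i *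
      ((Real.exp (-(Real.pi / 2 * (1 + 2 * u) * h i)) : ℝ) : ℂ) := ⟨_, rfl⟩
  have hfn : ∀ i, ‖f i‖ ≤ (Real.pi * h i) ^ j * Real.exp (-(Real.pi / 2 * t * h i)) := by
    intro i
    have hx : 0 ≤ Real.pi * h i := mul_nonneg Real.pi_pos.le (hh i)
    rw [hf]
    simp only
    rw [norm_mul, norm_mul, Complex.norm_real, Complex.norm_real, Real.norm_eq_abs,
      Real.norm_eq_abs, abs_pow, abs_neg, abs_of_nonneg hx, abs_of_pos (Real.exp_pos _), ht']
    have h2 : (Real.pi * h i) ^ j * ‖ε i‖ ≤ (Real.pi * h i) ^ j := by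
      have := mul_le_mul_of_nonneg_left (hε i) (pow_nonneg hx j)
      linarith
    exact mul_le_mul_of_nonneg_right h2 (Real.exp_pos _).le
  have hsum0 : Summable (fun i => (Real.pi * h i) ^ j * Real.exp (-(Real.pi / 2 * t * h i))) := by
    have h1 := ((hE ι h (fun _ => 1) hh (fun _ => by simp) hs j u (by linarith)).1).mul_left
      (Real.pi ^ j)
    refine h1.congr fun i => ?_
    rw [← mul_assoc, ← mul_pow, ht']
  have hsf : Summable f := Summable.of_norm_bounded hsum0 hfn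
  have hf0 : f i₀ = if j = 0 then 1 else 0 := by
    rw [hf]
    simp only [h0, hε0]
    by_cases hj : j = 0
    · simp [hj]
    · simp [hj]
  have e1 : ee h ε j u = f i₀ + ∑' i, ite (i = i₀) 0 (f i) := by
    rw [ee, ← hsf.tsum_eq_add_tsum_ite i₀, hf]
  have hds := dd_summable hE hh hs i₀ (G := G) ht j
  have h3 : ‖∑' i, ite (i = i₀) 0 (f i)‖ ≤ G ^ j * dd h i₀ G t j := by
    refine tsum_of_norm_bounded (hds.hasSum.mul_left (G ^ j)) (fun i => ?_)
    by_cases hi : i = i₀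
    · simp [hi]
    · simp only [hi, if_false]
      refine (hfn i).trans (le_of_eq ?_)
      rw [div_pow]
      field_simp
  have h5 : (ee h ε j u).re - (if j = 0 then 1 else 0) = (∑' i, ite (i = i₀) 0 (f i)).re := by
    rw [e1, Complex.add_re, hf0]
    split_ifs <;> simp
  rw [h5]
  exact (Complex.abs_re_le_norm _).trans h3

end

end Pool.TK.NUM
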