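import Pool.Agent.Work.MP_29fd3c_tk.NUMA
import Pool.Agent.Work.MP_29fd3c_tk.NUMC

/-!
# NUM: the numerical part
-/

set_option autoImplicit false

namespace Pool.TK.NUM

open Complex

theorem re_hasSum {f : ℕ → ℝ} {c : ℝ} {s : ℂ} (h : HasSum (fun k => ((f k : ℝ) : ℂ)) ((c : ℂ) * s)) :
    HasSum f (c * s.re) := by
  have h1 := Complex.reCLM.hasSum h
  simpa using h1

theorem FF_zero {g : ℕ} {p : ℕ → ℝ} {ι : Type} {h : ι → ℝ} {ε : ι → ℂ}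
    (hser : ∀ r : ℝ, 0 < r → r < 1 → HasSum (fun k => ((p k * r ^ k : ℝ) : ℂ))
      ((((1 - r) ^ g)⁻¹ : ℝ) * ∑' i, ε i *
        ((Real.exp (-(Real.pi / 2 * ((1 + r) / (1 - r)) * h i)) : ℝ) : ℂ)))
    (u : ℝ) (hu : 0 < u) : FF g p 0 u = (ee h ε 0 u).re := by
  obtain ⟨h0, h1⟩ := r_bounds hu
  have hu1 : (1 + u) ≠ 0 := by positivity
  have h2 := (re_hasSum (hser _ h0 h1)).tsum_eq
  have e1 : 1 - u / (1 + u) = (1 + u)⁻¹ := by field_simp; ring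
  have e2 : (1 + u / (1 + u)) / (1 - u / (1 + u)) = 1 + 2 * u := by
    rw [e1]; field_simp; ring
  rw [e2, e1] at h2
  rw [FF, ee]
  have e3 : ∑' k : ℕ, (k : ℝ) ^ 0 * p k * (u / (1 + u)) ^ k = ∑' k : ℕ, p k * (u / (1 + u)) ^ k := by
    refine tsum_congr fun k => ?_
    rw [pow_zero, one_mul]
  have e4 : ∑' i, ((-(Real.pi * h i)) ^ 0 : ℝ) * ε i *
      ((Real.exp (-(Real.pi / 2 * (1 + 2 * u) * h i)) : ℝ) : ℂ) = ∑' i, ε i *
      ((Real.exp (-(Real.pi / 2 * (1 + 2 * u) * h i)) : ℝ) : ℂ) := by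
    refine tsum_congr fun i => ?_
    rw [pow_zero, Complex.ofReal_one, one_mul]
  rw [e3, e4, h2, inv_pow, inv_inv, ← mul_assoc, inv_mul_cancel₀ (pow_ne_zero g hu1), one_mul]

theorem pos_comb (hM : Stmt_MOMP) {p : ℕ → ℝ} (hp : ∀ k, 0 ≤ p k)
    (hs : ∀ r : ℝ, 0 < r → r < 1 → Summable (fun k => p k * r ^ k)) {m : ℕ} (hpm : ∀ k < m, p k = 0)
    (g : ℕ) {u : ℝ} (hu : 0 < u) (c : ℝ) :
    0 ≤ FF g p 3 u - (2 * c + m) * FF g p 2 u + (c ^ 2 + 2 * c * m) * FF g p 1 u -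
      m * c ^ 2 * FF g p 0 u := by
  obtain ⟨h0, h1⟩ := r_bounds hu
  set r := u / (1 + u)
  have hsj := fun j : ℕ => (hM p (fun r => ∑' k, p k * r ^ k) hp
    (fun r a b => (hs r a b).hasSum) j r h0 h1).1
  have hA := (((hsj 3).hasSum.sub ((hsj 2).hasSum.mul_left (2 * c + m))).add
    ((hsj 1).hasSum.mul_left (c ^ 2 + 2 * c * m))).sub ((hsj 0).hasSum.mul_left (m * c ^ 2))
  have hB : 0 ≤ (∑' k : ℕ, (k : ℝ) ^ 3 * p k * r ^ k) -
      (2 * c + m) * (∑' k : ℕ, (k : ℝ) ^ 2 * p k * r ^ k) +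
      (c ^ 2 + 2 * c * m) * (∑' k : ℕ, (k : ℝ) ^ 1 * p k * r ^ k) -
      m * c ^ 2 * (∑' k : ℕ, (k : ℝ) ^ 0 * p k * r ^ k) := by
    refine hA.nonneg (fun k => ?_)
    have e : (k : ℝ) ^ 3 * p k * r ^ k - (2 * c + m) * ((k : ℝ) ^ 2 * p k * r ^ k) +
        (c ^ 2 + 2 * c * m) * ((k : ℝ) ^ 1 * p k * r ^ k) -
        m * c ^ 2 * ((k : ℝ) ^ 0 * p k * r ^ k) =
        ((k : ℝ) - m) * p k * ((k - c) ^ 2 * r ^ k) := by ring
    rw [e]
    rcases lt_or_ge k m with hk | hk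
    · rw [hpm k hk]; simp
    · have hk' : (m : ℝ) ≤ k := by exact_mod_cast hk
      exact mul_nonneg (mul_nonneg (by linarith) (hp k)) (mul_nonneg (sq_nonneg _)
        (pow_nonneg h0.le k))
  have hC : 0 ≤ ((1 + u) ^ g)⁻¹ := by positivity
  have hD := mul_nonneg hC hB
  simp only [FF]
  calc (0 : ℝ) ≤ _ := hD
    _ = _ := by ring

theorem num (hM : Stmt_MOMP) (hE : Stmt_EDER) : Stmt_NUM := by
  intro g hg ι _ i₀ h ε hh h0 hε hε0 hs t ht2 ht3 hS p m hp hpm hser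
  have hsum : ∀ r : ℝ, 0 < r → r < 1 → Summable (fun k => p k * r ^ k) :=
    fun r a b => (re_hasSum (hser r a b)).summable
  obtain ⟨G, hGd⟩ : ∃ G, G = Real.sqrt g := ⟨_, rfl⟩
  rw [← hGd] at hS ⊢
  have hg' : (64 : ℝ) ≤ g := by exact_mod_cast hg
  have hGsq : G ^ 2 = g := by rw [hGd]; exact Real.sq_sqrt (by linarith)
  have hG : 8 ≤ G := by
    rw [hGd]
    refine Real.le_sqrt_of_sq_le ?_
    linarith
  have hG0 : 0 < G := by linarith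
  have ht0 : 0 < t := by linarith
  obtain ⟨u, hu⟩ : ∃ u, u = (t - 1) / 2 := ⟨_, rfl⟩
  have hu1 : 1 / 2 ≤ u := by rw [hu]; linarith
  have hu2 : u ≤ 3 / 5 := by rw [hu]; linarith
  have hu0 : 0 < u := by linarith
  obtain ⟨f1, f2, f3⟩ := moments hM hE hp hsum g hh hε hs (FF_zero hser) u hu0
  have f0 := FF_zero hser u hu0
  have hb := fun j => ee_bound hE hh h0 hε hε0 hs ht0 hG0 hu j
  rw [← dd_total hE hh hs i₀ ht0] at hS
  have b0 : |(ee h ε 0 u).re - 1| ≤ dd h i₀ G t 0 := by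
    have := hb 0
    simpa using this
  have b1 : |(ee h ε 1 u).re| ≤ G * dd h i₀ G t 1 := by
    have := hb 1
    simpa using this
  have b2 : |(ee h ε 2 u).re| ≤ G ^ 2 * dd h i₀ G t 2 := by
    have := hb 2
    simpa using this
  have b3 : |(ee h ε 3 u).re| ≤ G ^ 3 * dd h i₀ G t 3 := by
    have := hb 3
    simpa using this
  have hw0 : 0 ≤ Real.sqrt (u * (1 + u)) := Real.sqrt_nonneg _
  have hwsq : Real.sqrt (u * (1 + u)) ^ 2 = u * (1 + u) := Real.sq_sqrt (by positivity)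
  have hpc := pos_comb hM hp hsum hpm g hu0 (G ^ 2 * u + G * Real.sqrt (u * (1 + u)))
  rw [f0, f1, f2, f3, ← hGsq] at hpc
  rw [combo G u _ m _ _ _ _ hwsq] at hpc
  have hW : 0 < u * (1 + u) := by positivity
  have hfin := real_ineq G u _ m _ _ _ _ _ _ _ _ hG hu1 hu2 hw0 hwsq b0 b1 b2 b3 hS
    (nonneg_of_mul_nonneg_right hpc hW)
  rw [hu, hGsq] at hfin
  linarith

end Pool.TK.NUM
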