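import Pool.Agent.Work.MP_29fd3c_tk.Interface

/-!
# NUM, the real inequality
-/

set_option autoImplicit false

namespace Pool.TK.NUM

theorem combo (G u w m e0 e1 e2 e3 : ℝ) (hw : w ^ 2 = u * (1 + u)) :
    (e3 * (u * (1 + u)) ^ 3 + e2 * (3 * (u * (1 + u)) ^ 2 * (1 + 2 * u) +
        3 * (G ^ 2 * u) * (u * (1 + u)) ^ 2) +
      e1 * (u * (1 + u) * ((1 + 2 * u) ^ 2 + 2 * (u * (1 + u))) +
        3 * (G ^ 2 * u) * (u * (1 + u) * (1 + 2 * u)) +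
        3 * ((G ^ 2 * u) ^ 2 + G ^ 2 * (u * (1 + u))) * (u * (1 + u))) +
      e0 * ((G ^ 2 * u) ^ 3 + 3 * (G ^ 2 * u) * (G ^ 2 * (u * (1 + u))) +
        G ^ 2 * (u * (1 + u)) * (1 + 2 * u))) -
    (2 * (G ^ 2 * u + G * w) + m) * (e2 * (u * (1 + u)) ^ 2 +
      e1 * (u * (1 + u) * (1 + 2 * u) + 2 * (G ^ 2 * u) * (u * (1 + u))) +
      e0 * ((G ^ 2 * u) ^ 2 + G ^ 2 * (u * (1 + u)))) +
    ((G ^ 2 * u + G * w) ^ 2 + 2 * (G ^ 2 * u + G * w) * m) *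
      (e1 * (u * (1 + u)) + e0 * (G ^ 2 * u)) -
    m * (G ^ 2 * u + G * w) ^ 2 * e0 =
    u * (1 + u) * ((e0 * G ^ 2 * (1 + 2 * u - 2 * (G * w)) +
      e1 * (4 * G ^ 2 * (u * (1 + u)) + (1 + 2 * u) ^ 2 + 2 * (u * (1 + u)) -
        2 * (G * w) * (1 + 2 * u)) +
      e2 * (u * (1 + u)) * (3 * (1 + 2 * u) - 2 * (G * w)) + e3 * (u * (1 + u)) ^ 2) -
      (m - G ^ 2 * u) * (2 * G ^ 2 * e0 + (1 + 2 * u - 2 * (G * w)) * e1 +
        u * (1 + u) * e2)) := by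
  linear_combination (G ^ 2 * (e1 * (u * (1 + u)) + e0 * (G ^ 2 * u)) - m * G ^ 2 * e0) * hw

end Pool.TK.NUM

namespace Pool.TK.NUM

theorem mul_le_of_abs {x y a b : ℝ} (hx : |x| ≤ a) (hy : |y| ≤ b) : x * y ≤ a * b := by
  have h := abs_mul x y
  have h1 : |x| * |y| ≤ a * b := mul_le_mul hx hy (abs_nonneg _) ((abs_nonneg _).trans hx)
  exact (le_abs_self _).trans (h.le.trans h1)

theorem real_ineq (G u w m e0 e1 e2 e3 d0 d1 d2 d3 : ℝ) (hG : 8 ≤ G) (hu : 1 / 2 ≤ u)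
    (hu' : u ≤ 3 / 5) (hw0 : 0 ≤ w) (hw : w ^ 2 = u * (1 + u)) (h0 : |e0 - 1| ≤ d0)
    (h1 : |e1| ≤ G * d1) (h2 : |e2| ≤ G ^ 2 * d2) (h3 : |e3| ≤ G ^ 3 * d3)
    (hd : d0 + 3 * d1 + 3 * d2 + d3 < 1)
    (hpos : 0 ≤ (e0 * G ^ 2 * (1 + 2 * u - 2 * (G * w)) +
      e1 * (4 * G ^ 2 * (u * (1 + u)) + (1 + 2 * u) ^ 2 + 2 * (u * (1 + u)) -
        2 * (G * w) * (1 + 2 * u)) +
      e2 * (u * (1 + u)) * (3 * (1 + 2 * u) - 2 * (G * w)) + e3 * (u * (1 + u)) ^ 2) -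
      (m - G ^ 2 * u) * (2 * G ^ 2 * e0 + (1 + 2 * u - 2 * (G * w)) * e1 +
        u * (1 + u) * e2)) :
    m ≤ G ^ 2 * u - G / 2 + 1 := by
  have hG0 : 0 < G := by linarith
  have hw1 : 866 / 1000 + 1137 / 1000 * (u - 1 / 2) ≤ w := by
    by_contra hc
    push Not at hc
    have hc' : w ^ 2 < (866 / 1000 + 1137 / 1000 * (u - 1 / 2)) ^ 2 := by
      apply pow_lt_pow_left₀ hc hw0 (by norm_num)
    rw [hw] at hc'
    nlinarith only [hc', hu, hu']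
  have hw2 : w ≤ 1 := by
    by_contra hc
    push Not at hc
    have hc' : 1 ^ 2 < w ^ 2 := pow_lt_pow_left₀ hc (by norm_num) (by norm_num)
    rw [hw] at hc'
    nlinarith only [hc', hu, hu']
  have hd0 : 0 ≤ d0 := (abs_nonneg _).trans h0
  have hd1 : 0 ≤ d1 := by
    have h4 : 0 ≤ G * d1 := (abs_nonneg _).trans h1
    exact nonneg_of_mul_nonneg_right h4 hG0
  have hd2 : 0 ≤ d2 := by
    have h4 : 0 ≤ G ^ 2 * d2 := (abs_nonneg _).trans h2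
    exact nonneg_of_mul_nonneg_right h4 (by positivity)
  have hd3 : 0 ≤ d3 := by
    have h4 : 0 ≤ G ^ 3 * d3 := (abs_nonneg _).trans h3
    exact nonneg_of_mul_nonneg_right h4 (by positivity)
  have hW1 : u * (1 + u) ≤ 96 / 100 := by nlinarith only [hu, hu']
  have hW0 : 3 / 4 ≤ u * (1 + u) := by nlinarith only [hu, hu']
  have hWv : u * (1 + u) = 3 / 4 + 2 * (u - 1 / 2) + (u - 1 / 2) ^ 2 := by ring
  obtain ⟨v, hv⟩ : ∃ v, v = u - 1 / 2 := ⟨_, rfl⟩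
  have hu2 : u = v + 1 / 2 := by linarith
  have hv0 : 0 ≤ v := by linarith
  have hv1 : v ≤ 1 / 10 := by linarith
  rw [← hv] at hw1 hWv
  obtain ⟨W, hW⟩ : ∃ W, W = u * (1 + u) := ⟨_, rfl⟩
  rw [← hW] at hpos hW1 hW0 hWv hw
  clear hW
  subst hu2
  have hvv : 0 ≤ v * (1 / 10 - v) := mul_nonneg hv0 (by linarith)
  -- products with `G`
  have hGw1 : G * (866 / 1000 + 1137 / 1000 * v) ≤ G * w := mul_le_mul_of_nonneg_left hw1 hG0.le
  have hGw2 : G * w ≤ G * 1 := mul_le_mul_of_nonneg_left hw2 hG0.le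
  have hGv1 : 0 ≤ G * v := mul_nonneg hG0.le hv0
  have hGv2 : G * v ≤ G * (1 / 10) := mul_le_mul_of_nonneg_left hv1 hG0.le
  have hGvv : 0 ≤ G * (v * (1 / 10 - v)) := mul_nonneg hG0.le hvv
  obtain ⟨c, hc⟩ : ∃ c, c = 2 * (G * w) - G - 2 * v := ⟨_, rfl⟩
  -- b3
  have hWsq : W ^ 2 ≤ 5625 / 10000 + 3592 / 1000 * v := by
    have a1 : 0 ≤ v * v * (1 / 10 - v) := mul_nonneg (mul_nonneg hv0 hv0) (by linarith)
    have a2 : 0 ≤ v * v * v * (1 / 10 - v) :=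
      mul_nonneg (mul_nonneg (mul_nonneg hv0 hv0) hv0) (by linarith)
    rw [hWv]
    nlinarith only [hvv, a1, a2, hv0, hv1]
  have hb3 : G * W ^ 2 ≤ c := by
    have a1 := mul_le_mul_of_nonneg_left hWsq hG0.le
    rw [hc]
    nlinarith only [a1, hGw1, hGv2, hv0, hv1, hGv1, hG]
  have hcpos : 0 < c := by
    have : 0 < G * W ^ 2 := by
      have : 0 < W := by linarith
      positivity
    linarith
  -- b1
  have hb1 : |4 * G ^ 2 * W + (1 + 2 * (v + 1 / 2)) ^ 2 + 2 * W -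
      2 * (G * w) * (1 + 2 * (v + 1 / 2)) +
      (G / 2 - 1) * (1 + 2 * (v + 1 / 2) - 2 * (G * w))| ≤ 3 * G * c := by
    have e : 4 * G ^ 2 * W + (1 + 2 * (v + 1 / 2)) ^ 2 + 2 * W -
      2 * (G * w) * (1 + 2 * (v + 1 / 2)) +
      (G / 2 - 1) * (1 + 2 * (v + 1 / 2) - 2 * (G * w)) =
      G ^ 2 * (4 * W - w) - G * ((4 * v + 2) * w - 1 - v) + (2 + 6 * v + 4 * v ^ 2 + 2 * W) := by
      ring
    have e3 : 3 * G * c = G ^ 2 * (6 * w - 3) - 6 * (G * v) := by rw [hc]; ring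
    have g1 : G ^ 2 * (4 * W - w) ≤ G ^ 2 * (6 * w - 3 - 179 / 10000) := by
      apply mul_le_mul_of_nonneg_left _ (sq_nonneg G)
      rw [hWv]
      nlinarith only [hw1, hvv]
    have g2 : G * (73 / 100 + 47 / 10 * v) ≤ G * ((4 * v + 2) * w - 1 - v) := by
      apply mul_le_mul_of_nonneg_left _ hG0.le
      have := mul_le_mul_of_nonneg_left hw1 (by linarith : (0 : ℝ) ≤ 4 * v + 2)
      nlinarith only [this, hv0, hv1, hvv]
    have g3 : 2 + 6 * v + 4 * v ^ 2 + 2 * W ≤ 456 / 100 := by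
      rw [hWv]
      nlinarith only [hv0, hv1, hvv]
    rw [e, e3, abs_le]
    constructor
    · have g4 : 0 ≤ G ^ 2 * (4 * W - w) - G * ((4 * v + 2) * w - 1 - v) := by
        have g5 : G * ((4 * v + 2) * w - 1 - v) ≤ G * 2 := by
          apply mul_le_mul_of_nonneg_left _ hG0.le
          have := mul_le_mul_of_nonneg_left hw2 (by linarith : (0 : ℝ) ≤ 4 * v + 2)
          linarith
        have g6 : G ^ 2 * 1 ≤ G ^ 2 * (4 * W - w) := by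
          apply mul_le_mul_of_nonneg_left _ (sq_nonneg G)
          linarith
        nlinarith only [g5, g6, hG]
      have g7 : 0 ≤ 2 + 6 * v + 4 * v ^ 2 + 2 * W := by positivity
      have g8 : 0 ≤ 3 * G * c := by positivity
      linarith
    · nlinarith only [g1, g2, g3, hG, hGv1, hGv2]
  -- b2
  have hb2 : |W * (3 * (1 + 2 * (v + 1 / 2)) - 2 * (G * w) + (G / 2 - 1))| ≤ 3 * c := by
    rw [abs_mul, abs_of_nonneg (by linarith : 0 ≤ W)]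
    have h5 : |3 * (1 + 2 * (v + 1 / 2)) - 2 * (G * w) + (G / 2 - 1)| ≤ 3 / 2 * G := by
      rw [abs_le]
      constructor <;> linarith
    have h6 : W * |3 * (1 + 2 * (v + 1 / 2)) - 2 * (G * w) + (G / 2 - 1)| ≤ 1 * (3 / 2 * G) :=
      mul_le_mul (by linarith) h5 (abs_nonneg _) (by norm_num)
    rw [hc]
    linarith
  -- the four terms
  have he0 : 1 - d0 ≤ e0 := by
    have := (abs_le.mp h0).1
    linarith
  have t0 : G ^ 2 * (e0 * (-c)) ≤ G ^ 2 * ((1 - d0) * (-c)) := by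
    apply mul_le_mul_of_nonneg_left _ (sq_nonneg G)
    exact mul_le_mul_of_nonpos_right he0 (by linarith)
  have t1 := mul_le_of_abs h1 hb1
  have t2 := mul_le_of_abs h2 hb2
  have t3 : e3 * W ^ 2 ≤ G ^ 2 * c * d3 := by
    have h4 : e3 * W ^ 2 ≤ G ^ 3 * d3 * W ^ 2 :=
      mul_le_mul_of_nonneg_right ((le_abs_self _).trans h3) (sq_nonneg _)
    have h5 : G ^ 2 * d3 * (G * W ^ 2) ≤ G ^ 2 * d3 * c :=
      mul_le_mul_of_nonneg_left hb3 (by positivity)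
    linarith
  have hT : (e0 * G ^ 2 * (1 + 2 * (v + 1 / 2) - 2 * (G * w)) +
      e1 * (4 * G ^ 2 * W + (1 + 2 * (v + 1 / 2)) ^ 2 + 2 * W -
        2 * (G * w) * (1 + 2 * (v + 1 / 2))) +
      e2 * W * (3 * (1 + 2 * (v + 1 / 2)) - 2 * (G * w)) + e3 * W ^ 2) +
      (G / 2 - 1) * (2 * G ^ 2 * e0 + (1 + 2 * (v + 1 / 2) - 2 * (G * w)) * e1 + W * e2) ≤ 0 := by
    have e : (e0 * G ^ 2 * (1 + 2 * (v + 1 / 2) - 2 * (G * w)) +
      e1 * (4 * G ^ 2 * W + (1 + 2 * (v + 1 / 2)) ^ 2 + 2 * W -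
        2 * (G * w) * (1 + 2 * (v + 1 / 2))) +
      e2 * W * (3 * (1 + 2 * (v + 1 / 2)) - 2 * (G * w)) + e3 * W ^ 2) +
      (G / 2 - 1) * (2 * G ^ 2 * e0 + (1 + 2 * (v + 1 / 2) - 2 * (G * w)) * e1 + W * e2) =
      G ^ 2 * (e0 * (-c)) +
      e1 * (4 * G ^ 2 * W + (1 + 2 * (v + 1 / 2)) ^ 2 + 2 * W -
        2 * (G * w) * (1 + 2 * (v + 1 / 2)) +
        (G / 2 - 1) * (1 + 2 * (v + 1 / 2) - 2 * (G * w))) +
      e2 * (W * (3 * (1 + 2 * (v + 1 / 2)) - 2 * (G * w) + (G / 2 - 1))) + e3 * W ^ 2 := by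
      rw [hc]; ring
    rw [e]
    have k : 0 ≤ G ^ 2 * c * (1 - d0 - 3 * d1 - 3 * d2 - d3) :=
      mul_nonneg (by positivity) (by linarith)
    nlinarith only [k, t0, t1, t2, t3]
  -- positivity of A
  have hA : 0 < 2 * G ^ 2 * e0 + (1 + 2 * (v + 1 / 2) - 2 * (G * w)) * e1 + W * e2 := by
    have h5 : |1 + 2 * (v + 1 / 2) - 2 * (G * w)| ≤ 2 * G := by
      rw [abs_le]; constructor <;> linarith
    have h6 : |W| ≤ 1 := by rw [abs_of_nonneg (by linarith)]; linarith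
    have h7 : |-e1| ≤ G * d1 := by rwa [abs_neg]
    have h8 : |-e2| ≤ G ^ 2 * d2 := by rwa [abs_neg]
    have t4 := mul_le_of_abs h5 h7
    have t5 := mul_le_of_abs h6 h8
    have t6 : 2 * G ^ 2 * (1 - d0) ≤ 2 * G ^ 2 * e0 :=
      mul_le_mul_of_nonneg_left he0 (by positivity)
    have k : 0 < 2 * G ^ 2 * (1 - d0 - 3 * d1 - 3 * d2 - d3) :=
      mul_pos (by positivity) (by linarith)
    have k1 : 0 ≤ G ^ 2 * d1 := by positivity
    have k2 : 0 ≤ G ^ 2 * d2 := by positivity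
    have k3 : 0 ≤ G ^ 2 * d3 := by positivity
    nlinarith only [k, k1, k2, k3, t4, t5, t6]
  by_contra hcon
  push Not at hcon
  have h9 : -(G / 2 - 1) < m - G ^ 2 * (v + 1 / 2) := by linarith
  have h10 := mul_lt_mul_of_pos_right h9 hA
  linarith

end Pool.TK.NUM
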