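import Pool.Agent.Work.MP_29fd3c_tk.Interface

/-!
# NUM, part B: the moments
-/

set_option autoImplicit false

namespace Pool.TK.NUM

open Complex

/-- the exponential sums and their derivatives -/
noncomputable def ee {ι : Type} (h : ι → ℝ) (ε : ι → ℂ) (j : ℕ) (u : ℝ) : ℂ :=
  ∑' i, ((-(Real.pi * h i)) ^ j : ℝ) * ε i *
    ((Real.exp (-(Real.pi / 2 * (1 + 2 * u) * h i)) : ℝ) : ℂ)

/-- the normalised moments -/
noncomputable def FF (g : ℕ) (p : ℕ → ℝ) (j : ℕ) (u : ℝ) : ℝ :=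
  ((1 + u) ^ g)⁻¹ * ∑' k : ℕ, (k : ℝ) ^ j * p k * (u / (1 + u)) ^ k

theorem r_bounds {u : ℝ} (hu : 0 < u) : 0 < u / (1 + u) ∧ u / (1 + u) < 1 := by
  refine ⟨by positivity, ?_⟩
  rw [div_lt_one (by positivity)]
  linarith

theorem FF_deriv (hM : Stmt_MOMP) {p : ℕ → ℝ} (hp : ∀ k, 0 ≤ p k)
    (hs : ∀ r : ℝ, 0 < r → r < 1 → Summable (fun k => p k * r ^ k)) (g j : ℕ) {u : ℝ}
    (hu : 0 < u) :
    HasDerivAt (FF g p j) (-(g / (1 + u)) * FF g p j u + FF g p (j + 1) u / (u * (1 + u))) u := by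
  obtain ⟨h0, h1⟩ := r_bounds hu
  have hu1 : (1 + u) ≠ 0 := by positivity
  have hd := (hM p (fun r => ∑' k, p k * r ^ k) hp (fun r a b => (hs r a b).hasSum) j
    (u / (1 + u)) h0 h1).2
  have hr : HasDerivAt (fun x : ℝ => x / (1 + x)) (1 / (1 + u) ^ 2) u := by
    have := (hasDerivAt_id u).div ((hasDerivAt_id u).const_add 1) hu1
    refine this.congr_deriv ?_
    simp only [id]
    field_simp
    ring
  have hc := HasDerivAt.comp u hd hr
  have hpow : HasDerivAt (fun x : ℝ => ((1 + x) ^ g)⁻¹) (-(g / (1 + u)) * ((1 + u) ^ g)⁻¹) u := by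
    have h2 := (((hasDerivAt_id u).const_add 1).pow g).inv (pow_ne_zero g hu1)
    refine h2.congr_deriv ?_
    simp only [id, Pi.pow_apply]
    rcases g with _ | g
    · simp
    · simp only [Nat.add_sub_cancel]
      have : (1 + u) ^ g ≠ 0 := pow_ne_zero _ hu1
      rw [pow_succ]
      field_simp
      ring
  have h3 := hpow.mul hc
  refine h3.congr_deriv ?_
  simp only [FF, Function.comp]
  have hune : u ≠ 0 := hu.ne'
  have hg : (1 + u) ^ g ≠ 0 := pow_ne_zero _ hu1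
  field_simp

theorem ee_deriv (hE : Stmt_EDER) {ι : Type} {h : ι → ℝ} {ε : ι → ℂ} (hh : ∀ i, 0 ≤ h i)
    (hε : ∀ i, ‖ε i‖ ≤ 1) (hs : ∀ s : ℝ, 0 < s → Summable (fun i => Real.exp (-(s * h i))))
    (j : ℕ) {u : ℝ} (hu : 0 < u) :
    HasDerivAt (fun x => (ee h ε j x).re) (ee h ε (j + 1) u).re u := by
  have h1 := (hE ι h ε hh hε hs j u (by linarith)).2
  exact (Complex.reCLM.hasFDerivAt.comp_hasDerivAt u h1)

theorem unique_step {f f' : ℝ → ℝ} (hff : ∀ x, 0 < x → f x = f' x) {a b u : ℝ} (hu : 0 < u)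
    (h1 : HasDerivAt f a u) (h2 : HasDerivAt f' b u) : a = b := by
  have h3 : HasDerivAt f b u := by
    refine h2.congr_of_eventuallyEq ?_
    filter_upwards [Ioi_mem_nhds hu] with x hx using hff x hx
  exact h1.unique h3

theorem moments (hM : Stmt_MOMP) (hE : Stmt_EDER) {p : ℕ → ℝ} (hp : ∀ k, 0 ≤ p k)
    (hs : ∀ r : ℝ, 0 < r → r < 1 → Summable (fun k => p k * r ^ k)) (g : ℕ)
    {ι : Type} {h : ι → ℝ} {ε : ι → ℂ} (hh : ∀ i, 0 ≤ h i)
    (hε : ∀ i, ‖ε i‖ ≤ 1) (hs' : ∀ s : ℝ, 0 < s → Summable (fun i => Real.exp (-(s * h i))))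
    (h0 : ∀ u : ℝ, 0 < u → FF g p 0 u = (ee h ε 0 u).re) (u : ℝ) (hu : 0 < u) :
    FF g p 1 u = (ee h ε 1 u).re * (u * (1 + u)) + (ee h ε 0 u).re * (g * u) ∧
    FF g p 2 u = (ee h ε 2 u).re * (u * (1 + u)) ^ 2 +
      (ee h ε 1 u).re * (u * (1 + u) * (1 + 2 * u) + 2 * (g * u) * (u * (1 + u))) +
      (ee h ε 0 u).re * ((g * u) ^ 2 + g * (u * (1 + u))) ∧
    FF g p 3 u = (ee h ε 3 u).re * (u * (1 + u)) ^ 3 +
      (ee h ε 2 u).re * (3 * (u * (1 + u)) ^ 2 * (1 + 2 * u) +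
        3 * (g * u) * (u * (1 + u)) ^ 2) +
      (ee h ε 1 u).re * (u * (1 + u) * ((1 + 2 * u) ^ 2 + 2 * (u * (1 + u))) +
        3 * (g * u) * (u * (1 + u) * (1 + 2 * u)) +
        3 * ((g * u) ^ 2 + g * (u * (1 + u))) * (u * (1 + u))) +
      (ee h ε 0 u).re * ((g * u) ^ 3 + 3 * (g * u) * (g * (u * (1 + u))) +
        g * (u * (1 + u)) * (1 + 2 * u)) := by
  have hF := fun (j : ℕ) {u : ℝ} (hu : 0 < u) => FF_deriv hM hp hs g j hu
  have hee := fun (j : ℕ) {u : ℝ} (hu : 0 < u) => ee_deriv hE hh hε hs' j hu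
  have f1 : ∀ u : ℝ, 0 < u → FF g p 1 u =
      (ee h ε 1 u).re * (u * (1 + u)) + (ee h ε 0 u).re * (g * u) := by
    intro u hu
    have h1 := unique_step h0 hu (hF 0 hu) (hee 0 hu)
    rw [h0 u hu] at h1
    have hu1 : (1 + u) ≠ 0 := by positivity
    have hune : u ≠ 0 := hu.ne'
    rw [← h1]
    field_simp
    ring
  have dW : ∀ u : ℝ, HasDerivAt (fun x : ℝ => x * (1 + x)) (1 + 2 * u) u := by
    intro u
    refine ((hasDerivAt_id u).mul ((hasDerivAt_id u).const_add 1)).congr_deriv ?_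
    simp only [id]; ring
  have dgu : ∀ u : ℝ, HasDerivAt (fun x : ℝ => (g : ℝ) * x) g u := by
    intro u
    refine ((hasDerivAt_id u).const_mul (g : ℝ)).congr_deriv ?_
    ring
  have f2 : ∀ u : ℝ, 0 < u → FF g p 2 u = (ee h ε 2 u).re * (u * (1 + u)) ^ 2 +
      (ee h ε 1 u).re * (u * (1 + u) * (1 + 2 * u) + 2 * (g * u) * (u * (1 + u))) +
      (ee h ε 0 u).re * ((g * u) ^ 2 + g * (u * (1 + u))) := by
    intro u hu
    have h1 := unique_step f1 hu (hF 1 hu)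
      (((hee 1 hu).mul (dW u)).add ((hee 0 hu).mul (dgu u)))
    rw [f1 u hu] at h1
    have hu1 : (1 + u) ≠ 0 := by positivity
    have hune : u ≠ 0 := hu.ne'
    have h2 : FF g p 2 u = (u * (1 + u)) * (FF g p (1 + 1) u / (u * (1 + u))) := by
      field_simp
    have h3 : (u * (1 + u)) * (-(↑g / (1 + u)) * ((ee h ε 1 u).re * (u * (1 + u)) +
        (ee h ε 0 u).re * (g * u))) = - (g * u) * ((ee h ε 1 u).re * (u * (1 + u)) +
        (ee h ε 0 u).re * (g * u)) := by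
      field_simp
    rw [h2]
    linear_combination (u * (1 + u)) * h1 - h3
  have f3 : FF g p 3 u = (ee h ε 3 u).re * (u * (1 + u)) ^ 3 +
      (ee h ε 2 u).re * (3 * (u * (1 + u)) ^ 2 * (1 + 2 * u) +
        3 * (g * u) * (u * (1 + u)) ^ 2) +
      (ee h ε 1 u).re * (u * (1 + u) * ((1 + 2 * u) ^ 2 + 2 * (u * (1 + u))) +
        3 * (g * u) * (u * (1 + u) * (1 + 2 * u)) +
        3 * ((g * u) ^ 2 + g * (u * (1 + u))) * (u * (1 + u))) +
      (ee h ε 0 u).re * ((g * u) ^ 3 + 3 * (g * u) * (g * (u * (1 + u))) +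
        g * (u * (1 + u)) * (1 + 2 * u)) := by
    have d2u : HasDerivAt (fun x : ℝ => 1 + 2 * x) 2 u := by
      refine (((hasDerivAt_id u).const_mul (2 : ℝ)).const_add 1).congr_deriv ?_
      ring
    have h1 := unique_step f2 hu (hF 2 hu)
      ((((hee 2 hu).mul ((dW u).pow 2)).add ((hee 1 hu).mul
        (((dW u).mul d2u).add (((dgu u).const_mul 2).mul (dW u))))).add
        ((hee 0 hu).mul (((dgu u).pow 2).add ((dW u).const_mul (g : ℝ)))))
    rw [f2 u hu] at h1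
    simp only [Pi.pow_apply, Pi.mul_apply, Pi.add_apply] at h1
    have hu1 : (1 + u) ≠ 0 := by positivity
    have hune : u ≠ 0 := hu.ne'
    have h2 : FF g p 3 u = (u * (1 + u)) * (FF g p (2 + 1) u / (u * (1 + u))) := by
      field_simp
    have h3 : ∀ A : ℝ, (u * (1 + u)) * (-(↑g / (1 + u)) * A) = - (g * u) * A := by
      intro A
      field_simp
    rw [h2]
    linear_combination (u * (1 + u)) * h1 - h3 ((ee h ε 2 u).re * (u * (1 + u)) ^ 2 +
      (ee h ε 1 u).re * (u * (1 + u) * (1 + 2 * u) + 2 * (g * u) * (u * (1 + u))) +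
      (ee h ε 0 u).re * ((g * u) ^ 2 + g * (u * (1 + u))))
  exact ⟨f1 u hu, f2 u hu, f3⟩

end Pool.TK.NUM
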